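import Pool.Agent.H86.BifolDefs

/-!
# Basic facts on leaf spaces
-/

open Set Topology Filter

namespace Pool.Agent.H86.Bifol

theorem SameLevelsNear.symm {f g : ℝ × ℝ → ℝ} {p : ℝ × ℝ} (h : SameLevelsNear f g p) :
    SameLevelsNear g f p := by
  obtain ⟨V, hV, h⟩ := h
  exact ⟨V, hV, fun q hq r hr => (h q hq r hr).symm⟩

namespace Foliation

variable (F : Foliation)

/-- The projection to the leaf space. -/
def proj (p : ℝ × ℝ) : F.LeafSpace := Quotient.mk F.leafSetoid p

theorem continuous_proj : Continuous F.proj := continuous_quotient_mk'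

theorem samePlaque_symm {p q : ℝ × ℝ} (h : F.SamePlaque p q) : F.SamePlaque q p := by
  obtain ⟨φ, hφ, h1, h2, h3⟩ := h
  exact ⟨φ, hφ, h2, h1, h3.symm⟩

theorem proj_eq_iff {p q : ℝ × ℝ} : F.proj p = F.proj q ↔ Relation.EqvGen F.SamePlaque p q :=
  Quotient.eq (r := F.leafSetoid)

theorem proj_eq_of_samePlaque {p q : ℝ × ℝ} (h : F.SamePlaque p q) : F.proj p = F.proj q :=
  F.proj_eq_iff.2 (Relation.EqvGen.rel _ _ h)

theorem reflTransGen_of_proj_eq {p q : ℝ × ℝ} (h : F.proj p = F.proj q) :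
    Relation.ReflTransGen F.SamePlaque p q := by
  have h' := F.proj_eq_iff.1 h
  clear h
  induction h' with
  | rel _ _ h => exact Relation.ReflTransGen.single h
  | refl _ => exact Relation.ReflTransGen.refl
  | symm _ _ _ ih =>
    have hs : Std.Symm F.SamePlaque := ⟨fun _ _ h => F.samePlaque_symm h⟩
    exact (Relation.ReflTransGen.stdSymm (r := F.SamePlaque)).symm _ _ ih
  | trans _ _ _ _ _ ih1 ih2 => exact ih1.trans ih2

theorem proj_eq_of_reflTransGen {p q : ℝ × ℝ} (h : Relation.ReflTransGen F.SamePlaque p q) :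
    F.proj p = F.proj q := by
  induction h with
  | refl => rfl
  | tail _ h ih => exact ih.trans (F.proj_eq_of_samePlaque h)

/-- A homeomorphism onto the square whose horizontal segments are plaques of `F`. -/
def Adapted (e : OpenPartialHomeomorph (ℝ × ℝ) (ℝ × ℝ)) : Prop :=
  e.target = Square ∧ ∀ φ ∈ F.charts, ∀ q ∈ e.source ∩ φ.source,
    SameLevelsNear (fun x => (e x).2) (fun x => (φ x).2) q

theorem adapted_of_mem {φ : OpenPartialHomeomorph (ℝ × ℝ) (ℝ × ℝ)} (h : φ ∈ F.charts) :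
    F.Adapted φ :=
  ⟨F.target_eq φ h, fun ψ hψ q hq => F.compatible φ h ψ hψ q hq⟩

variable {F}

theorem mem_square {x y : ℝ} : (x, y) ∈ Square ↔ x ∈ Ioo (-1 : ℝ) 1 ∧ y ∈ Ioo (-1 : ℝ) 1 :=
  Iff.rfl

/-- Points of an adapted box on the same horizontal segment are in the same leaf. -/
theorem Adapted.proj_eq {e : OpenPartialHomeomorph (ℝ × ℝ) (ℝ × ℝ)} (he : F.Adapted e)
    {p q : ℝ × ℝ} (hp : p ∈ e.source) (hq : q ∈ e.source) (h : (e p).2 = (e q).2) :
    F.proj p = F.proj q := by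
  set c := (e p).2 with hc
  have hpS : e p ∈ Square := he.1 ▸ e.map_source hp
  have hqS : e q ∈ Square := he.1 ▸ e.map_source hq
  have hcm : c ∈ Ioo (-1 : ℝ) 1 := hpS.2
  have hlc : IsLocallyConstant
      (fun s : Ioo (-1 : ℝ) 1 => F.proj (e.symm (s.1, c))) := by
    rw [IsLocallyConstant.iff_eventually_eq]
    intro s
    have hsT : ((s.1, c) : ℝ × ℝ) ∈ e.target := by rw [he.1]; exact ⟨s.2, hcm⟩
    have hsS : e.symm (s.1, c) ∈ e.source := e.map_target hsT
    obtain ⟨φ, hφ, hφs⟩ := F.cover (e.symm (s.1, c))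
    obtain ⟨V, hV, hVe⟩ := he.2 φ hφ _ ⟨hsS, hφs⟩
    have hcont : ContinuousAt (fun s' : Ioo (-1 : ℝ) 1 => e.symm (s'.1, c)) s := by
      refine ContinuousAt.comp (f := fun s' : Ioo (-1 : ℝ) 1 => ((s'.1, c) : ℝ × ℝ)) (g := e.symm)
        (e.continuousAt_symm hsT) ?_
      exact (continuous_subtype_val.prodMk continuous_const).continuousAt
    filter_upwards [hcont (Filter.inter_mem hV (φ.open_source.mem_nhds hφs))] with s' hs'
    refine F.proj_eq_of_samePlaque ⟨φ, hφ, hs'.2, hφs, ?_⟩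
    refine (hVe _ hs'.1 _ (mem_of_mem_nhds hV)).1 ?_
    have hsT' : ((s'.1, c) : ℝ × ℝ) ∈ e.target := by rw [he.1]; exact ⟨s'.2, hcm⟩
    simp only [e.right_inv hsT, e.right_inv hsT']
  have _ : PreconnectedSpace (Ioo (-1 : ℝ) 1) := Subtype.preconnectedSpace isPreconnected_Ioo
  have key := hlc.apply_eq_of_preconnectedSpace ⟨(e p).1, hpS.1⟩ ⟨(e q).1, hqS.1⟩
  have e1 : e.symm ((e p).1, c) = p := e.left_inv hp
  have e2 : e.symm ((e q).1, c) = q := by rw [h]; exact e.left_inv hq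
  simp only [e1, e2] at key
  exact key

/-- The projection to the leaf space is an open map. -/
theorem isOpenMap_proj (F : Foliation) : IsOpenMap F.proj := by
  intro O hO
  have hq : IsOpen (F.proj ⁻¹' (F.proj '' O)) := by
    rw [isOpen_iff_mem_nhds]
    rintro q ⟨p, hpO, hpq⟩
    have hgen := F.reflTransGen_of_proj_eq hpq
    clear hpq
    induction hgen with
    | refl =>
      exact Filter.mem_of_superset (hO.mem_nhds hpO) (fun x hx => ⟨x, hx, rfl⟩)
    | @tail b c _ hbc ih =>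
      obtain ⟨φ, hφ, hb, hc, hbc⟩ := hbc
      have hbS : φ b ∈ Square := F.target_eq φ hφ ▸ φ.map_source hb
      have hcS : φ c ∈ Square := F.target_eq φ hφ ▸ φ.map_source hc
      -- the map sliding along the plaques
      have hcont : ContinuousAt (fun x => φ.symm ((φ b).1, (φ x).2)) c := by
        have h1 : ContinuousAt (fun x => (((φ b).1, (φ x).2) : ℝ × ℝ)) c :=
          continuousAt_const.prodMk (φ.continuousAt hc).snd
        have h2 : (((φ b).1, (φ c).2) : ℝ × ℝ) ∈ φ.target := by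
          rw [F.target_eq φ hφ]; exact ⟨hbS.1, hcS.2⟩
        exact ContinuousAt.comp (f := fun x => (((φ b).1, (φ x).2) : ℝ × ℝ)) (g := φ.symm)
          (φ.continuousAt_symm h2) h1
      have hval : φ.symm ((φ b).1, (φ c).2) = b := by rw [← hbc]; exact φ.left_inv hb
      have hih : F.proj ⁻¹' (F.proj '' O) ∈ 𝓝 (φ.symm ((φ b).1, (φ c).2)) := by
        rw [hval]; exact ih
      filter_upwards [hcont hih, φ.open_source.mem_nhds hc] with x hx hxs
      have hxS : φ x ∈ Square := F.target_eq φ hφ ▸ φ.map_source hxs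
      have h2 : (((φ b).1, (φ x).2) : ℝ × ℝ) ∈ φ.target := by
        rw [F.target_eq φ hφ]; exact ⟨hbS.1, hxS.2⟩
      have : F.proj x = F.proj (φ.symm ((φ b).1, (φ x).2)) := by
        refine F.proj_eq_of_samePlaque ⟨φ, hφ, hxs, φ.map_target h2, ?_⟩
        rw [φ.right_inv h2]
      change F.proj x ∈ F.proj '' O
      rw [this]
      exact hx
  exact isOpen_coinduced.2 hq

/-- Leaves are connected. -/
theorem isPreconnected_leaf (F : Foliation) (l : F.LeafSpace) :
    IsPreconnected (F.proj ⁻¹' {l}) := by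
  refine isPreconnected_of_forall_pair ?_
  intro p hp q hq
  have hpq : F.proj p = F.proj q := by
    rw [mem_preimage, mem_singleton_iff] at hp hq
    rw [hp, hq]
  have hgen := F.reflTransGen_of_proj_eq hpq
  clear hpq hq
  induction hgen with
  | refl => exact ⟨{p}, by simpa using hp, rfl, rfl, isPreconnected_singleton⟩
  | @tail b c hpb hbc ih =>
    obtain ⟨t, ht, hpt, hbt, hpre⟩ := ih
    obtain ⟨φ, hφ, hb, hc, hbc⟩ := hbc
    have hbS : φ b ∈ Square := F.target_eq φ hφ ▸ φ.map_source hb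
    have hcS : φ c ∈ Square := F.target_eq φ hφ ▸ φ.map_source hc
    have hin : ∀ x ∈ Ioo (-1 : ℝ) 1, ((x, (φ b).2) : ℝ × ℝ) ∈ φ.target := by
      intro x hx
      rw [F.target_eq φ hφ]; exact ⟨hx, hbS.2⟩
    have hplq : IsPreconnected ((fun x => φ.symm (x, (φ b).2)) '' Ioo (-1 : ℝ) 1) := by
      refine isPreconnected_Ioo.image _ ?_
      refine φ.continuousOn_symm.comp (Continuous.continuousOn (by fun_prop)) ?_
      exact hin
    have hbp : b ∈ (fun x => φ.symm (x, (φ b).2)) '' Ioo (-1 : ℝ) 1 :=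
      ⟨(φ b).1, hbS.1, φ.left_inv hb⟩
    have hcp : c ∈ (fun x => φ.symm (x, (φ b).2)) '' Ioo (-1 : ℝ) 1 := by
      refine ⟨(φ c).1, hcS.1, ?_⟩
      simp only
      rw [hbc]
      exact φ.left_inv hc
    refine ⟨t ∪ (fun x => φ.symm (x, (φ b).2)) '' Ioo (-1 : ℝ) 1, union_subset ht ?_,
      Or.inl hpt, Or.inr hcp, hpre.union b hbt hbp hplq⟩
    rintro _ ⟨x, hx, rfl⟩
    have hpb' : F.proj p = F.proj b := F.proj_eq_of_reflTransGen hpb
    have : F.proj (φ.symm (x, (φ b).2)) = F.proj b := by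
      refine F.proj_eq_of_samePlaque ⟨φ, hφ, φ.map_target (hin x hx), hb, ?_⟩
      rw [φ.right_inv (hin x hx)]
    rw [mem_preimage, mem_singleton_iff] at hp ⊢
    rw [this, ← hpb', hp]

end Foliation

/-- Exchange of coordinates after a chart. -/
noncomputable def swapChart (e : OpenPartialHomeomorph (ℝ × ℝ) (ℝ × ℝ)) :
    OpenPartialHomeomorph (ℝ × ℝ) (ℝ × ℝ) :=
  e.trans (Homeomorph.prodComm ℝ ℝ).toOpenPartialHomeomorph

theorem swapChart_source (e : OpenPartialHomeomorph (ℝ × ℝ) (ℝ × ℝ)) :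
    (swapChart e).source = e.source := by
  simp [swapChart]

theorem swapChart_apply (e : OpenPartialHomeomorph (ℝ × ℝ) (ℝ × ℝ)) (p : ℝ × ℝ) :
    swapChart e p = ((e p).2, (e p).1) := rfl

theorem swapChart_target (e : OpenPartialHomeomorph (ℝ × ℝ) (ℝ × ℝ)) (he : e.target = Square) :
    (swapChart e).target = Square := by
  ext ⟨x, y⟩
  simp [swapChart, he, Square, and_comm]

/-- A box adapted to both foliations. -/
def BiBox (F G : Foliation) (e : OpenPartialHomeomorph (ℝ × ℝ) (ℝ × ℝ)) : Prop :=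
  F.Adapted e ∧ G.Adapted (swapChart e)

theorem Transverse.exists_biBox {F G : Foliation} (h : Transverse F G) (p : ℝ × ℝ) :
    ∃ e, p ∈ e.source ∧ BiBox F G e := by
  obtain ⟨e, hp, ht, h1, h2⟩ := h p
  exact ⟨e, hp, ⟨ht, h1⟩, swapChart_target e ht, fun φ hφ q hq => by
    rw [swapChart_source] at hq
    exact h2 φ hφ q hq⟩

theorem Transverse.symm {F G : Foliation} (h : Transverse F G) : Transverse G F := by
  intro p
  obtain ⟨e, hp, h1, h2⟩ := h.exists_biBox p
  refine ⟨swapChart e, by rwa [swapChart_source], h2.1, h2.2, ?_⟩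
  intro φ hφ q hq
  rw [swapChart_source] at hq
  exact h1.2 φ hφ q hq

theorem BiBox.projF {F G : Foliation} {e} (h : BiBox F G e) {p q : ℝ × ℝ} (hp : p ∈ e.source)
    (hq : q ∈ e.source) (hpq : (e p).2 = (e q).2) : F.proj p = F.proj q :=
  h.1.proj_eq hp hq hpq

theorem BiBox.projG {F G : Foliation} {e} (h : BiBox F G e) {p q : ℝ × ℝ} (hp : p ∈ e.source)
    (hq : q ∈ e.source) (hpq : (e p).1 = (e q).1) : G.proj p = G.proj q :=
  h.2.proj_eq (by rwa [swapChart_source]) (by rwa [swapChart_source]) hpq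

/-- Small neighbourhoods with product structure. -/
theorem Transverse.exists_small {F G : Foliation} (h : Transverse F G) {p : ℝ × ℝ}
    {W : Set (ℝ × ℝ)} (hW : W ∈ 𝓝 p) :
    ∃ V ⊆ W, IsOpen V ∧ p ∈ V ∧ ∀ q ∈ V, ∀ r ∈ V, ∃ s ∈ V, F.proj s = F.proj q ∧
      G.proj s = G.proj r := by
  obtain ⟨e, hp, hbb⟩ := h.exists_biBox p
  have ht : e.target = Square := hbb.1.1
  -- a rectangle in the image of `W`
  have hmem : e.symm ⁻¹' W ∩ e.target ∈ 𝓝 (e p) := by
    refine Filter.inter_mem ?_ (e.open_target.mem_nhds (e.map_source hp))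
    have := e.continuousAt_symm (e.map_source hp)
    rw [ContinuousAt, e.left_inv hp] at this
    exact this hW
  rw [nhds_prod_eq, Filter.mem_prod_iff] at hmem
  obtain ⟨A, hA, B, hB, hAB⟩ := hmem
  obtain ⟨A', hA'A, hA'o, hA'm⟩ := mem_nhds_iff.1 hA
  obtain ⟨B', hB'B, hB'o, hB'm⟩ := mem_nhds_iff.1 hB
  have hsub : A' ×ˢ B' ⊆ e.symm ⁻¹' W ∩ e.target := (prod_mono hA'A hB'B).trans hAB
  refine ⟨e.source ∩ e ⁻¹' (A' ×ˢ B'), ?_, e.isOpen_inter_preimage (hA'o.prod hB'o),
    ⟨hp, hA'm, hB'm⟩, ?_⟩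
  · rintro q ⟨hq, hq2⟩
    have := (hsub hq2).1
    rwa [mem_preimage, e.left_inv hq] at this
  · rintro q ⟨hq, hq2⟩ r ⟨hr, hr2⟩
    have hs : (((e r).1, (e q).2) : ℝ × ℝ) ∈ A' ×ˢ B' := ⟨hr2.1, hq2.2⟩
    have hsT := (hsub hs).2
    refine ⟨e.symm ((e r).1, (e q).2), ⟨e.map_target hsT, ?_⟩, ?_, ?_⟩
    · rw [mem_preimage, e.right_inv hsT]; exact hs
    · exact hbb.projF (e.map_target hsT) hq (by rw [e.right_inv hsT])
    · exact hbb.projG (e.map_target hsT) hr (by rw [e.right_inv hsT])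

end Pool.Agent.H86.Bifol
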