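import Mathlib

/-!
# Foliations of the plane, transversality, leaf spaces (definitions for `MP_a3f59c_gt`)
-/

open Set Topology Filter

namespace Pool.Agent.H86.Bifol

/-- The open square `(-1,1)²`. -/
def Square : Set (ℝ × ℝ) := Ioo (-1) 1 ×ˢ Ioo (-1) 1

/-- The functions `f` and `g` have the same level sets near `p`: there is a neighbourhood `V` of
`p` such that for `q, r ∈ V`, `f q = f r` if and only if `g q = g r`. -/
def SameLevelsNear (f g : ℝ × ℝ → ℝ) (p : ℝ × ℝ) : Prop :=
  ∃ V ∈ 𝓝 p, ∀ q ∈ V, ∀ r ∈ V, f q = f r ↔ g q = g r

/-- A topological foliation of the plane `ℝ²` by 1-dimensional leaves, given by an atlas: a family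
of homeomorphisms from open subsets of the plane onto `(-1,1)²` whose domains cover the plane, such
that on the overlap of two of them the horizontal segments (the level sets of the second
coordinate) agree locally. -/
structure Foliation where
  /-- the charts of the foliation -/
  charts : Set (OpenPartialHomeomorph (ℝ × ℝ) (ℝ × ℝ))
  target_eq : ∀ φ ∈ charts, φ.target = Square
  cover : ∀ p, ∃ φ ∈ charts, p ∈ φ.source
  compatible : ∀ φ ∈ charts, ∀ ψ ∈ charts, ∀ p ∈ φ.source ∩ ψ.source,
    SameLevelsNear (fun q => (φ q).2) (fun q => (ψ q).2) p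

namespace Foliation

/-- Two points lie in a common plaque: in some chart both are defined and have the same second
coordinate. -/
def SamePlaque (F : Foliation) (p q : ℝ × ℝ) : Prop :=
  ∃ φ ∈ F.charts, p ∈ φ.source ∧ q ∈ φ.source ∧ (φ p).2 = (φ q).2

/-- The equivalence relation generated by lying in a common plaque. Its classes are the leaves. -/
def leafSetoid (F : Foliation) : Setoid (ℝ × ℝ) := Relation.EqvGen.setoid F.SamePlaque

/-- The leaf space: the quotient of the plane by the partition into leaves, with the quotient
topology. -/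
abbrev LeafSpace (F : Foliation) : Type := Quotient F.leafSetoid

end Foliation

/-- `F` and `G` are transverse: every point has an open neighbourhood `U` (the source of `e`) and
a homeomorphism `e : U → (-1,1)²` carrying the plaques of `F` to horizontal segments and those of
`G` to vertical segments. -/
def Transverse (F G : Foliation) : Prop :=
  ∀ p : ℝ × ℝ, ∃ e : OpenPartialHomeomorph (ℝ × ℝ) (ℝ × ℝ), p ∈ e.source ∧ e.target = Square ∧
    (∀ φ ∈ F.charts, ∀ q ∈ e.source ∩ φ.source,
      SameLevelsNear (fun x => (e x).2) (fun x => (φ x).2) q) ∧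
    (∀ φ ∈ G.charts, ∀ q ∈ e.source ∩ φ.source,
      SameLevelsNear (fun x => (e x).1) (fun x => (φ x).2) q)

/-- The pair `(Λ, Λ')` is realized by transverse foliations of the plane. -/
def Realized (Λ Λ' : Type*) [TopologicalSpace Λ] [TopologicalSpace Λ'] : Prop :=
  ∃ F G : Foliation, Transverse F G ∧ Nonempty (F.LeafSpace ≃ₜ Λ) ∧ Nonempty (G.LeafSpace ≃ₜ Λ')

/-- A (possibly non-Hausdorff) 1-manifold: second countable, and every point has an open
neighbourhood homeomorphic to `ℝ`. -/
structure IsOneManifold (X : Type*) [TopologicalSpace X] : Prop where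
  secondCountable : SecondCountableTopology X
  exists_chart : ∀ x : X, ∃ U : Set X, IsOpen U ∧ x ∈ U ∧ Nonempty (U ≃ₜ ℝ)

/-- A half-space of `X`: a connected component of the complement of a point. -/
def IsHalfSpace {X : Type*} [TopologicalSpace X] (H : Set X) : Prop :=
  ∃ w z : X, z ≠ w ∧ H = connectedComponentIn {w}ᶜ z

/-- Two points are not separated: all their neighbourhoods meet. -/
def NonSeparated {X : Type*} [TopologicalSpace X] (x y : X) : Prop :=
  ∀ U V : Set X, IsOpen U → IsOpen V → x ∈ U → y ∈ V → (U ∩ V).Nonempty

/-- A bad half-space of `X`: a connected component `H` of the complement of a point `w` which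
contains two distinct non-separated points `z₁, z₂` such that `z₁` separates `w` from `z₂`, that
is, `w` and `z₂` lie in different connected components of the complement of `z₁`. -/
def IsBadHalfSpace {X : Type*} [TopologicalSpace X] (H : Set X) : Prop :=
  ∃ w z₁ z₂ : X, z₁ ≠ w ∧ H = connectedComponentIn {w}ᶜ z₁ ∧ z₂ ∈ H ∧ z₁ ≠ z₂ ∧
    NonSeparated z₁ z₂ ∧ z₂ ∉ connectedComponentIn {z₁}ᶜ w

end Pool.Agent.H86.Bifol
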