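import Pool.Agent.H86.BifolPath

/-!
# Bad half-spaces of a leaf space and half-spaces of the transverse leaf space
-/

open Set Topology Filter

namespace Pool.Agent.H86.Bifol

section topology

variable {X Y : Type*} [TopologicalSpace X] [TopologicalSpace Y]

/-- The preimage of a connected set under a surjective open map with connected fibres. -/
theorem isPreconnected_preimage {f : X → Y} (ho : IsOpenMap f) (hs : Function.Surjective f)
    (hf : ∀ y, IsPreconnected (f ⁻¹' {y})) {s : Set Y} (h : IsPreconnected s) :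
    IsPreconnected (f ⁻¹' s) := by
  rintro U V hU hV hsub ⟨x, hxs, hxU⟩ ⟨y, hys, hyV⟩
  have hcov : s ⊆ f '' U ∪ f '' V := by
    intro z hz
    obtain ⟨x, rfl⟩ := hs z
    rcases hsub hz with h | h
    · exact Or.inl ⟨x, h, rfl⟩
    · exact Or.inr ⟨x, h, rfl⟩
  obtain ⟨z, hz, ⟨u, huU, rfl⟩, ⟨v, hvV, hv⟩⟩ := h _ _ (ho U hU) (ho V hV) hcov
    ⟨f x, hxs, x, hxU, rfl⟩ ⟨f y, hys, y, hyV, rfl⟩
  have hsub' : f ⁻¹' {f u} ⊆ f ⁻¹' s := by
    intro w hw
    rw [mem_preimage, mem_singleton_iff] at hw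
    rw [mem_preimage, hw]
    exact hz
  obtain ⟨w, hw, hwUV⟩ := hf (f u) U V hU hV (hsub'.trans hsub) ⟨u, rfl, huU⟩ ⟨v, hv, hvV⟩
  exact ⟨w, hsub' hw, hwUV⟩

theorem mem_closure_component [PreconnectedSpace X] [LocallyConnectedSpace X] [T1Space X]
    {w y : X} (hy : y ≠ w) : w ∈ closure (connectedComponentIn {w}ᶜ y) := by
  set C := connectedComponentIn {w}ᶜ y with hC
  have hCo : IsOpen C := isOpen_compl_singleton.connectedComponentIn
  have hyC : y ∈ C := mem_connectedComponentIn hy
  by_contra hw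
  have hcl : closure C ⊆ C := by
    have h1 : IsPreconnected (closure C) := isPreconnected_connectedComponentIn.closure
    refine h1.subset_connectedComponentIn (subset_closure hyC) ?_
    intro z hz hzw
    rw [mem_singleton_iff] at hzw
    exact hw (hzw ▸ hz)
  have hclopen : IsClopen C := ⟨isClosed_of_closure_subset hcl, hCo⟩
  rcases isClopen_iff.1 hclopen with h | h
  · rw [h] at hyC; exact hyC
  · exact hw (subset_closure (h ▸ mem_univ w))

theorem isPreconnected_insert_component [PreconnectedSpace X] [LocallyConnectedSpace X]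
    [T1Space X] {w y : X} (hy : y ≠ w) :
    IsPreconnected (insert w (connectedComponentIn {w}ᶜ y)) := by
  refine (isPreconnected_connectedComponentIn (F := {w}ᶜ) (x := y)).subset_closure
    (subset_insert _ _) ?_
  exact insert_subset (mem_closure_component hy) subset_closure

/-- The complement of a component of the complement of a point is connected. -/
theorem isPreconnected_compl_component [PreconnectedSpace X] [LocallyConnectedSpace X]
    [T1Space X] {w y : X} : IsPreconnected (connectedComponentIn {w}ᶜ y)ᶜ := by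
  refine isPreconnected_of_forall w ?_
  intro z hz
  by_cases hzw : z = w
  · subst hzw
    exact ⟨{z}, by simpa using hz, rfl, rfl, isPreconnected_singleton⟩
  · refine ⟨insert w (connectedComponentIn {w}ᶜ z), ?_, mem_insert _ _,
      mem_insert_of_mem _ (mem_connectedComponentIn hzw), isPreconnected_insert_component hzw⟩
    rintro x (rfl | hx) hx'
    · exact (connectedComponentIn_subset _ _ hx') rfl
    · refine hz ?_
      rw [connectedComponentIn_eq hx', ← connectedComponentIn_eq hx]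
      exact mem_connectedComponentIn hzw

end topology

theorem IsOneManifold.hasCharts {X : Type*} [TopologicalSpace X] (h : IsOneManifold X) :
    HasCharts X := by
  intro x
  obtain ⟨U, hU, hx, ⟨f⟩⟩ := h.exists_chart x
  have : Nonempty U := ⟨⟨x, hx⟩⟩
  refine ⟨((⟨U, hU⟩ : TopologicalSpace.Opens X).openPartialHomeomorphSubtypeCoe this).symm.trans
    f.toOpenPartialHomeomorph, ?_, ?_⟩
  · simp [hx]
  · simp

variable {Λ Λ' : Type*} [TopologicalSpace Λ] [TopologicalSpace Λ']

/-- A leaf of `G` does not cross two non-separated leaves of `F`. -/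
theorem noncross {F G : Foliation} (hFG : Transverse F G) (hΛ : HasCharts Λ)
    [SimplyConnectedSpace Λ] (L : F.LeafSpace ≃ₜ Λ) {p q : ℝ × ℝ}
    (hne : F.proj p ≠ F.proj q) (hns : NonSeparated (L (F.proj p)) (L (F.proj q))) :
    G.proj p ≠ G.proj q := by
  intro hG
  have hpq : p ≠ q := by rintro rfl; exact hne rfl
  obtain ⟨O₁, O₂, hO₁, hO₂, hp, hq, hd⟩ := t2_separation hpq
  obtain ⟨V₁, hV₁, hV₁o, hpV, hbox₁⟩ := hFG.exists_small (hO₁.mem_nhds hp)
  obtain ⟨V₂, hV₂, hV₂o, hqV, hbox₂⟩ := hFG.exists_small (hO₂.mem_nhds hq)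
  have hπo : IsOpenMap (fun p => L (F.proj p)) := L.isOpenMap.comp F.isOpenMap_proj
  obtain ⟨l, ⟨r₁, hr₁, h₁⟩, ⟨r₂, hr₂, h₂⟩⟩ := hns _ _ (hπo V₁ hV₁o) (hπo V₂ hV₂o)
    ⟨p, hpV, rfl⟩ ⟨q, hqV, rfl⟩
  obtain ⟨s₁, hs₁, h₁F, h₁G⟩ := hbox₁ r₁ hr₁ p hpV
  obtain ⟨s₂, hs₂, h₂F, h₂G⟩ := hbox₂ r₂ hr₂ q hqV
  have h₁₂ : F.proj r₁ = F.proj r₂ := L.injective (h₁.trans h₂.symm)
  have heq : s₁ = s₂ := eq_of_proj_eq hFG hΛ L (by rw [h₁F, h₂F, h₁₂]) (by rw [h₁G, h₂G, hG])
  exact (Set.disjoint_left.1 hd (hV₁ hs₁)) (heq ▸ hV₂ hs₂)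

/-- **Main lemma.** For a bad half-space `H` of the leaf space of `F` there is a half-space `K` of
the leaf space of `G` such that all leaves of `F` meeting a leaf in `K` belong to `H`. -/
theorem exists_halfSpace {F G : Foliation} (hFG : Transverse F G) (hΛ : HasCharts Λ)
    (hΛ' : HasCharts Λ') [SimplyConnectedSpace Λ] [SimplyConnectedSpace Λ']
    (L : F.LeafSpace ≃ₜ Λ) (L' : G.LeafSpace ≃ₜ Λ') {H : Set Λ} (hH : IsBadHalfSpace H) :
    ∃ K : Set Λ', IsHalfSpace K ∧ ∀ p, L' (G.proj p) ∈ K → L (F.proj p) ∈ H := by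
  have _ : T1Space Λ := hΛ.t1
  have _ : T1Space Λ' := hΛ'.t1
  have _ : LocallyPathConnectedSpace Λ := hΛ.locPath
  have _ : LocallyPathConnectedSpace Λ' := hΛ'.locPath
  obtain ⟨w, z₁, z₂, hz₁w, rfl, hz₂H, hz₁₂, hns, hsep⟩ := hH
  set π : ℝ × ℝ → Λ := fun p => L (F.proj p) with hπ
  set π' : ℝ × ℝ → Λ' := fun p => L' (G.proj p) with hπ'
  have hπc : Continuous π := L.continuous.comp F.continuous_proj
  have hπ'c : Continuous π' := L'.continuous.comp G.continuous_proj
  have hπo : IsOpenMap π := L.isOpenMap.comp F.isOpenMap_proj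
  have hπs : Function.Surjective π := L.surjective.comp Quotient.mk_surjective
  have hfib : ∀ l, IsPreconnected (π ⁻¹' {l}) := by
    intro l
    have : π ⁻¹' {l} = F.proj ⁻¹' {L.symm l} := by
      ext p
      simp only [hπ, mem_preimage, mem_singleton_iff]
      exact L.eq_symm_apply.symm
    rw [this]
    exact Foliation.isPreconnected_leaf F _
  have hfib' : ∀ l, IsPreconnected (π' ⁻¹' {l}) := by
    intro l
    have : π' ⁻¹' {l} = G.proj ⁻¹' {L'.symm l} := by
      ext p
      simp only [hπ', mem_preimage, mem_singleton_iff]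
      exact L'.eq_symm_apply.symm
    rw [this]
    exact Foliation.isPreconnected_leaf G _
  obtain ⟨q₁, hq₁⟩ := hπs z₁
  obtain ⟨q₂, hq₂⟩ := hπs z₂
  set c := π' q₂ with hc
  -- a point of `z₁` is not on the leaf `c`
  have hnc : ∀ p, π p = z₁ → π' p ≠ c := by
    intro p hp hpc
    have h1 : F.proj p ≠ F.proj q₂ := by
      intro h
      refine hz₁₂ ?_
      rw [← hp, ← hq₂]
      simp only [hπ, h]
    refine noncross hFG hΛ L h1 ?_ (L'.injective hpc)
    have e1 : L (F.proj p) = z₁ := hp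
    have e2 : L (F.proj q₂) = z₂ := hq₂
    rw [e1, e2]
    exact hns
  -- leaves meeting `c` are on the side of `z₂`
  have hU : π '' (π' ⁻¹' {c}) ⊆ connectedComponentIn {z₁}ᶜ z₂ := by
    have hpre : IsPreconnected (π '' (π' ⁻¹' {c})) := (hfib' c).image _ hπc.continuousOn
    refine hpre.subset_connectedComponentIn ⟨q₂, rfl, hq₂⟩ ?_
    rintro _ ⟨p, hp, rfl⟩ hpz
    exact hnc p hpz hp
  set C := connectedComponentIn {z₁}ᶜ w with hC
  have hCc : ∀ p, π p ∈ C → π' p ≠ c := by
    intro p hp hpc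
    have h1 : π p ∈ connectedComponentIn {z₁}ᶜ z₂ := hU ⟨p, hpc, rfl⟩
    refine hsep ?_
    have h2 : C = connectedComponentIn {z₁}ᶜ (π p) := connectedComponentIn_eq hp
    rw [h2, ← connectedComponentIn_eq h1]
    exact mem_connectedComponentIn hz₁₂.symm
  -- the leaves of `G` meeting leaves in `C ∪ {z₁}` are in one component of the complement of `c`
  have hS : π' '' (π ⁻¹' insert z₁ C) ⊆ connectedComponentIn {c}ᶜ (π' q₁) := by
    have h1 : IsPreconnected (insert z₁ C) := isPreconnected_insert_component hz₁w.symm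
    have h2 : IsPreconnected (π ⁻¹' insert z₁ C) := isPreconnected_preimage hπo hπs hfib h1
    have h3 : IsPreconnected (π' '' (π ⁻¹' insert z₁ C)) := h2.image _ hπ'c.continuousOn
    refine h3.subset_connectedComponentIn ⟨q₁, Or.inl hq₁, rfl⟩ ?_
    rintro _ ⟨p, hp, rfl⟩ hpc
    rcases hp with hp | hp
    · exact hnc p hp hpc
    · exact hCc p hp hpc
  -- the complement of the half-space is contained in `C`
  have hHC : (connectedComponentIn {w}ᶜ z₁)ᶜ ⊆ C := by
    refine isPreconnected_compl_component.subset_connectedComponentIn ?_ ?_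
    · intro h
      exact (connectedComponentIn_subset _ _ h) rfl
    · intro x hx hxz
      rw [mem_singleton_iff] at hxz
      subst hxz
      exact hx (mem_connectedComponentIn hz₁w)
  -- another component of the complement of `c`
  obtain ⟨y, hyc, hy⟩ : ∃ y, y ≠ c ∧ y ∉ connectedComponentIn {c}ᶜ (π' q₁) := by
    obtain ⟨e, he, htar⟩ := hΛ' c
    have hmem : ∀ v, e.symm v ∈ e.source := fun v => e.map_target (by rw [htar]; trivial)
    have hinv : ∀ v, e (e.symm v) = v := fun v => e.right_inv (by rw [htar]; trivial)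
    have hne : ∀ v, v ≠ e c → e.symm v ≠ c := by
      intro v hv hvc
      exact hv (by rw [← hvc, hinv v])
    have hab := sides hΛ' he htar (show e c - 1 < e c by linarith) (show e c < e c + 1 by linarith)
    by_cases h : e.symm (e c - 1) ∈ connectedComponentIn {c}ᶜ (π' q₁)
    · refine ⟨e.symm (e c + 1), hne _ (by linarith), fun h' => hab ?_⟩
      rw [← connectedComponentIn_eq h]
      exact h'
    · exact ⟨_, hne _ (by linarith), h⟩
  refine ⟨connectedComponentIn {c}ᶜ y, ⟨c, y, hyc, rfl⟩, ?_⟩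
  intro p hp
  by_contra hpH
  have h1 : π p ∈ C := hHC hpH
  have h2 : π' p ∈ connectedComponentIn {c}ᶜ (π' q₁) := hS ⟨p, Or.inr h1, rfl⟩
  refine hy ?_
  rw [connectedComponentIn_eq h2, ← connectedComponentIn_eq hp]
  exact mem_connectedComponentIn hyc

theorem family {F G : Foliation} (hFG : Transverse F G) (hΛ : HasCharts Λ)
    (hΛ' : HasCharts Λ') [SimplyConnectedSpace Λ] [SimplyConnectedSpace Λ']
    (L : F.LeafSpace ≃ₜ Λ) (L' : G.LeafSpace ≃ₜ Λ') {ι : Type*} {H : ι → Set Λ}
    (hH : ∀ i, IsBadHalfSpace (H i)) (hd : Pairwise fun i j => Disjoint (H i) (H j)) :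
    ∃ K : ι → Set Λ', (∀ i, IsHalfSpace (K i)) ∧ Pairwise fun i j => Disjoint (K i) (K j) := by
  choose K hK hKH using fun i => exists_halfSpace hFG hΛ hΛ' L L' (hH i)
  refine ⟨K, hK, fun i j hij => Set.disjoint_left.2 ?_⟩
  intro x hxi hxj
  obtain ⟨p, rfl⟩ := (L'.surjective.comp Quotient.mk_surjective : Function.Surjective
    (fun p => L' (G.proj p))) x
  exact Set.disjoint_left.1 (hd hij) (hKH i p hxi) (hKH j p hxj)

end Pool.Agent.H86.Bifol
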