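import Pool.Agent.H86.OneMan

/-!
# Locally injective paths in simply connected 1-manifolds are injective
-/

open Set Topology Filter

namespace Pool.Agent.H86

variable {X : Type*} [TopologicalSpace X]

theorem exists_mid {a p q : ℝ} (h : (a < p ∧ a < q) ∨ (p < a ∧ q < a)) :
    ∃ v, v ≠ a ∧ v ∈ uIcc a p ∧ v ∈ uIcc a q := by
  rcases h with ⟨h1, h2⟩ | ⟨h1, h2⟩
  · refine ⟨min p q, (lt_min h1 h2).ne', ?_, ?_⟩
    · rw [uIcc_of_le h1.le]; exact ⟨(lt_min h1 h2).le, min_le_left _ _⟩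
    · rw [uIcc_of_le h2.le]; exact ⟨(lt_min h1 h2).le, min_le_right _ _⟩
  · refine ⟨max p q, (max_lt h1 h2).ne, ?_, ?_⟩
    · rw [uIcc_of_ge h1.le]; exact ⟨le_max_left _ _, (max_lt h1 h2).le⟩
    · rw [uIcc_of_ge h2.le]; exact ⟨le_max_right _ _, (max_lt h1 h2).le⟩

/-- Two half-germs at `x` of a path which lie on the same side of `x` have common values. -/
theorem germs (h : HasCharts X) [SimplyConnectedSpace X] {β : ℝ → X} {r t1 t2 u : ℝ}
    (h1 : r < t1) (h2 : t2 < u)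
    (hc1 : ContinuousOn β (Icc r t1)) (hc2 : ContinuousOn β (Icc t2 u))
    (he : β r = β u)
    (hn1 : ∀ t ∈ Ioc r t1, β t ≠ β r) (hn2 : ∀ t ∈ Ico t2 u, β t ≠ β r)
    (hcomp : β t2 ∈ connectedComponentIn {β r}ᶜ (β t1)) :
    ∃ s1 ∈ Ioc r t1, ∃ s2 ∈ Ico t2 u, β s1 = β s2 := by
  obtain ⟨e, hx, htar⟩ := h (β r)
  -- shrink on the left end
  obtain ⟨t1', ht1', hs1⟩ : ∃ t1' ∈ Ioc r t1, ∀ t ∈ Icc r t1', β t ∈ e.source := by
    have := (hc1 r ⟨le_rfl, h1.le⟩) (e.open_source.mem_nhds hx)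
    rw [mem_map, Metric.mem_nhdsWithin_iff] at this
    obtain ⟨ε, hε, hsub⟩ := this
    refine ⟨min t1 (r + ε / 2), ⟨lt_min h1 (by linarith), min_le_left _ _⟩, fun t ht => ?_⟩
    have h3 : t ≤ r + ε / 2 := ht.2.trans (min_le_right _ _)
    refine hsub ⟨?_, ht.1, ht.2.trans (min_le_left _ _)⟩
    rw [Metric.mem_ball, Real.dist_eq, abs_lt]
    constructor <;> linarith [ht.1]
  obtain ⟨t2', ht2', hs2⟩ : ∃ t2' ∈ Ico t2 u, ∀ t ∈ Icc t2' u, β t ∈ e.source := by
    have := (hc2 u ⟨h2.le, le_rfl⟩) (e.open_source.mem_nhds (he ▸ hx))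
    rw [mem_map, Metric.mem_nhdsWithin_iff] at this
    obtain ⟨ε, hε, hsub⟩ := this
    refine ⟨max t2 (u - ε / 2), ⟨le_max_left _ _, max_lt h2 (by linarith)⟩, fun t ht => ?_⟩
    have h3 : u - ε / 2 ≤ t := (le_max_right _ _).trans ht.1
    refine hsub ⟨?_, (le_max_left _ _).trans ht.1, ht.2⟩
    rw [Metric.mem_ball, Real.dist_eq, abs_lt]
    constructor <;> linarith [ht.2]
  have hf1 : ContinuousOn (fun t => e (β t)) (Icc r t1') :=
    e.continuousOn.comp (hc1.mono (Icc_subset_Icc le_rfl ht1'.2)) hs1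
  have hf2 : ContinuousOn (fun t => e (β t)) (Icc t2' u) :=
    e.continuousOn.comp (hc2.mono (Icc_subset_Icc ht2'.1 le_rfl)) hs2
  have hb1 : β t1' ∈ e.source := hs1 _ ⟨ht1'.1.le, le_rfl⟩
  have hb2 : β t2' ∈ e.source := hs2 _ ⟨le_rfl, ht2'.2.le⟩
  -- same component
  have c1 : β t1 ∈ connectedComponentIn {β r}ᶜ (β t1') := by
    have hpre : IsPreconnected (β '' Icc t1' t1) :=
      isPreconnected_Icc.image _ (hc1.mono (Icc_subset_Icc ht1'.1.le le_rfl))
    refine hpre.subset_connectedComponentIn ⟨t1', ⟨le_rfl, ht1'.2⟩, rfl⟩ ?_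
      ⟨t1, ⟨ht1'.2, le_rfl⟩, rfl⟩
    rintro _ ⟨t, ht, rfl⟩
    exact hn1 t ⟨ht1'.1.trans_le ht.1, ht.2⟩
  have c2 : β t2' ∈ connectedComponentIn {β r}ᶜ (β t2) := by
    have hpre : IsPreconnected (β '' Icc t2 t2') :=
      isPreconnected_Icc.image _ (hc2.mono (Icc_subset_Icc le_rfl ht2'.2.le))
    refine hpre.subset_connectedComponentIn ⟨t2, ⟨le_rfl, ht2'.1⟩, rfl⟩ ?_
      ⟨t2', ⟨ht2'.1, le_rfl⟩, rfl⟩
    rintro _ ⟨t, ht, rfl⟩
    exact hn2 t ⟨ht.1, ht.2.trans_lt ht2'.2⟩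
  have c3 : β t2' ∈ connectedComponentIn {β r}ᶜ (β t1') := by
    rw [connectedComponentIn_eq c1, connectedComponentIn_eq hcomp]
    exact c2
  have c4 : β t1' ∈ connectedComponentIn {β r}ᶜ (β t2') := by
    rw [← connectedComponentIn_eq c3]
    exact mem_connectedComponentIn (hn1 t1' ⟨ht1'.1, ht1'.2⟩)
  have n1 : e (β t1') ≠ e (β r) := fun hh =>
    hn1 t1' ⟨ht1'.1, ht1'.2⟩ (e.injOn hb1 hx hh)
  have n2 : e (β t2') ≠ e (β r) := fun hh =>
    hn2 t2' ⟨ht2'.1, ht2'.2⟩ (e.injOn hb2 hx hh)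
  have sgn : (e (β r) < e (β t1') ∧ e (β r) < e (β t2')) ∨
      (e (β t1') < e (β r) ∧ e (β t2') < e (β r)) := by
    rcases lt_or_gt_of_ne n1 with k1 | k1 <;> rcases lt_or_gt_of_ne n2 with k2 | k2
    · exact Or.inr ⟨k1, k2⟩
    · exfalso
      have := sides h hx htar k1 k2
      rw [e.left_inv hb1, e.left_inv hb2] at this
      exact this c3
    · exfalso
      have := sides h hx htar k2 k1
      rw [e.left_inv hb1, e.left_inv hb2] at this
      exact this c4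
    · exact Or.inl ⟨k1, k2⟩
  obtain ⟨v, hv, hv1, hv2⟩ := exists_mid sgn
  have i1 := intermediate_value_uIcc (a := r) (b := t1') (f := fun t => e (β t))
    (by rw [uIcc_of_le ht1'.1.le]; exact hf1)
  have i2 := intermediate_value_uIcc (a := t2') (b := u) (f := fun t => e (β t))
    (by rw [uIcc_of_le ht2'.2.le]; exact hf2)
  obtain ⟨s1, hs1m, hs1v⟩ := i1 hv1
  obtain ⟨s2, hs2m, hs2v⟩ := i2 (by rw [uIcc_comm, ← he]; exact hv2)
  rw [uIcc_of_le ht1'.1.le] at hs1m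
  rw [uIcc_of_le ht2'.2.le] at hs2m
  simp only at hs1v hs2v
  have m1 : s1 ≠ r := by rintro rfl; exact hv hs1v.symm
  have m2 : s2 ≠ u := by rintro rfl; rw [← he] at hs2v; exact hv hs2v.symm
  refine ⟨s1, ⟨lt_of_le_of_ne hs1m.1 m1.symm, hs1m.2.trans ht1'.2⟩, s2,
    ⟨ht2'.1.trans hs2m.1, lt_of_le_of_ne hs2m.2 m2⟩, ?_⟩
  exact e.injOn (hs1 _ hs1m) (hs2 _ hs2m) (hs1v.trans hs2v.symm)

/-- A locally injective path in a simply connected 1-manifold is injective. -/
theorem path_inj (h : HasCharts X) [SimplyConnectedSpace X] {β : ℝ → X} {a b : ℝ}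
    (hc : ContinuousOn β (Icc a b))
    (hloc : ∀ t ∈ Icc a b, ∃ ε > 0, InjOn β (Icc a b ∩ Ioo (t - ε) (t + ε))) :
    InjOn β (Icc a b) := by
  have _ : T1Space X := h.t1
  by_contra hcon
  set E : Set ℝ := {u | u ∈ Icc a b ∧ ∃ r ∈ Ico a u, β r = β u} with hE
  have hne : E.Nonempty := by
    simp only [InjOn, not_forall] at hcon
    obtain ⟨x, hx, y, hy, hxy, hne⟩ := hcon
    rcases lt_or_gt_of_ne hne with k | k
    · exact ⟨y, hy, x, ⟨hx.1, k⟩, hxy⟩
    · exact ⟨x, hx, y, ⟨hy.1, k⟩, hxy.symm⟩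
  have hbdd : BddBelow E := ⟨a, fun u hu => hu.1.1⟩
  set u := sInf E with hu
  have hua : a ≤ u := le_csInf hne fun v hv => hv.1.1
  have hub : u ≤ b := by
    obtain ⟨v, hv⟩ := hne
    exact (csInf_le hbdd hv).trans hv.1.2
  have inj : ∀ r v, a ≤ r → r < v → v < u → β r ≠ β v := by
    intro r v har hrv hvu hh
    exact absurd (csInf_le hbdd (⟨⟨har.trans hrv.le, hvu.le.trans hub⟩, r, ⟨har, hrv⟩, hh⟩ : v ∈ E))
      (not_le.2 hvu)
  obtain ⟨ε, hε, hinj⟩ := hloc u ⟨hua, hub⟩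
  by_cases huE : u ∈ E
  · obtain ⟨-, r, hr, hru⟩ := huE
    -- pick intermediate times
    set t1 := (2 * r + u) / 3 with ht1
    set t2 := (r + 2 * u) / 3 with ht2
    have hr2 := hr.2
    have hr1 := hr.1
    have k1 : r < t1 := by rw [ht1]; linarith
    have k2 : t2 < u := by rw [ht2]; linarith
    have k3 : t1 < t2 := by rw [ht1, ht2]; linarith
    obtain ⟨s1, hs1, s2, hs2, hs⟩ := germs h k1 k2
      (hc.mono (Icc_subset_Icc hr1 (by linarith))) (hc.mono (Icc_subset_Icc (by linarith) hub)) hru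
      (fun t ht => (inj r t hr1 ht.1 (by linarith [ht.2])).symm)
      (fun t ht => (inj r t hr1 (by linarith [ht.1]) ht.2).symm) (by
        have hpre : IsPreconnected (β '' Icc t1 t2) :=
          isPreconnected_Icc.image _ (hc.mono (Icc_subset_Icc (by linarith) (by linarith)))
        refine hpre.subset_connectedComponentIn ⟨t1, ⟨le_rfl, k3.le⟩, rfl⟩ ?_
          ⟨t2, ⟨k3.le, le_rfl⟩, rfl⟩
        rintro _ ⟨t, ht, rfl⟩
        exact (inj r t hr1 (by linarith [ht.1]) (by linarith [ht.2])).symm)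
    exact inj s1 s2 (by linarith [hs1.1]) (by linarith [hs1.2, hs2.1]) hs2.2 hs
  · -- `β` is injective on `[a, u]`
    have inj' : ∀ r v, a ≤ r → r < v → v ≤ u → β r ≠ β v := by
      intro r v har hrv hvu hh
      rcases hvu.lt_or_eq with k | k
      · exact inj r v har hrv k hh
      · subst k
        exact huE ⟨⟨hua, hub⟩, r, ⟨har, hrv⟩, hh⟩
    -- elements of `E` just above `u`
    have near : ∀ η > 0, ∃ v ∈ E, u < v ∧ v < u + η := by
      intro η hη
      obtain ⟨v, hv, hv2⟩ := exists_lt_of_csInf_lt hne (show sInf E < u + η by linarith)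
      refine ⟨v, hv, lt_of_le_of_ne (csInf_le hbdd hv) ?_, hv2⟩
      intro hh
      exact huE (hh ▸ hv)
    rcases hua.eq_or_lt with hau | hau
    · obtain ⟨v, ⟨hv, r, hr, hrv⟩, hv1, hv2⟩ := near ε hε
      have : r = v := hinj ⟨⟨hr.1, hr.2.le.trans hv.2⟩, by linarith [hr.1], by linarith [hr.2]⟩
        ⟨hv, by linarith, hv2⟩ hrv
      exact absurd this hr.2.ne
    · -- a reference time
      obtain ⟨r0, hr0a, hr0u⟩ := exists_between (max_lt hau (by linarith : u - ε < u))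
      have hr0a' : a < r0 := (le_max_left _ _).trans_lt hr0a
      have hr0e : u - ε < r0 := (le_max_right _ _).trans_lt hr0a
      -- times after `u` avoiding `β r0`
      obtain ⟨η, hη, hav⟩ : ∃ η > 0, ∀ t ∈ Icc a b, u ≤ t → t < u + η → β t ≠ β r0 := by
        have hmem : ({β r0}ᶜ : Set X) ∈ 𝓝 (β u) :=
          isOpen_compl_singleton.mem_nhds (inj' r0 u hr0a'.le hr0u le_rfl).symm
        have := (hc u ⟨hua, hub⟩) hmem
        rw [mem_map, Metric.mem_nhdsWithin_iff] at this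
        obtain ⟨η, hη, hsub⟩ := this
        refine ⟨η, hη, fun t ht h1 h2 => ?_⟩
        have : t ∈ β ⁻¹' {β r0}ᶜ := by
          refine hsub ⟨?_, ht⟩
          rw [Metric.mem_ball, Real.dist_eq, abs_lt]
          constructor <;> linarith
        exact this
      obtain ⟨v, ⟨hv, r, hr, hrv⟩, hv1, hv2⟩ := near (min ε η) (lt_min hε hη)
      have hv3 : v < u + ε := hv2.trans_le (by linarith [min_le_left ε η])
      have hv4 : v < u + η := hv2.trans_le (by linarith [min_le_right ε η])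
      -- `r` is before `r0`
      have hrr0 : r < r0 := by
        by_contra hcon2
        push Not at hcon2
        have : r = v := hinj ⟨⟨hr.1, hr.2.le.trans hv.2⟩, by linarith, by linarith [hr.2]⟩
          ⟨hv, by linarith, hv3⟩ hrv
        exact absurd this hr.2.ne
      -- `β a` and `β u` are in the same component of the complement of `β r0`
      have hp1 : β r ∈ connectedComponentIn {β r0}ᶜ (β u) := by
        have hpre : IsPreconnected (β '' Icc u v) :=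
          isPreconnected_Icc.image _ (hc.mono (Icc_subset_Icc hua hv.2))
        rw [hrv]
        refine hpre.subset_connectedComponentIn ⟨u, ⟨le_rfl, hv1.le⟩, rfl⟩ ?_
          ⟨v, ⟨hv1.le, le_rfl⟩, rfl⟩
        rintro _ ⟨t, ht, rfl⟩
        exact hav t ⟨hua.trans ht.1, ht.2.trans hv.2⟩ ht.1 (ht.2.trans_lt hv4)
      obtain ⟨s1, hs1, s2, hs2, hs⟩ := germs h (r := r0) (t1 := u) (t2 := r) (u := r0) hr0u hrr0
        (hc.mono (Icc_subset_Icc hr0a'.le hub))
        (hc.mono (Icc_subset_Icc hr.1 (hr0u.le.trans hub))) rfl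
        (fun t ht => (inj' r0 t hr0a'.le ht.1 ht.2).symm)
        (fun t ht => inj' t r0 (hr.1.trans ht.1) ht.2 hr0u.le) hp1
      exact inj' s2 s1 (hr.1.trans hs2.1) (hs2.2.trans hs1.1) hs1.2 hs.symm

end Pool.Agent.H86
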