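import Pool.Agent.H86.BifolBasic
import Pool.Agent.H86.PathInj

/-!
# Injective paths in leaves, and a leaf meets a transverse leaf at most once
-/

open Set Topology Filter

namespace Pool.Agent.H86.Bifol

/-- The path `γ` on the set `S` runs locally in plaques of `G`. -/
def InPlaques (G : Foliation) (γ : ℝ → ℝ × ℝ) (S : Set ℝ) : Prop :=
  ∀ t ∈ S, ∀ ψ ∈ G.charts, γ t ∈ ψ.source → ∀ᶠ s in 𝓝[S] t, (ψ (γ s)).2 = (ψ (γ t)).2

theorem InPlaques.mono {G : Foliation} {γ : ℝ → ℝ × ℝ} {S S' : Set ℝ} (h : InPlaques G γ S)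
    (hs : S' ⊆ S) : InPlaques G γ S' :=
  fun t ht ψ hψ hm => (h t (hs ht) ψ hψ hm).filter_mono (nhdsWithin_mono _ hs)

theorem InPlaques.congr {G : Foliation} {γ δ : ℝ → ℝ × ℝ} {S : Set ℝ} (h : InPlaques G γ S)
    (hs : EqOn δ γ S) : InPlaques G δ S := by
  intro t ht ψ hψ hm
  rw [hs ht] at hm ⊢
  filter_upwards [h t ht ψ hψ hm, self_mem_nhdsWithin] with s h1 h2
  rw [hs h2, h1]

theorem InPlaques.union {G : Foliation} {γ : ℝ → ℝ × ℝ} {S T : Set ℝ} (hS : InPlaques G γ S)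
    (hT : InPlaques G γ T) (cS : IsClosed S) (cT : IsClosed T) : InPlaques G γ (S ∪ T) := by
  have aux : ∀ {S : Set ℝ}, InPlaques G γ S → IsClosed S → ∀ t, ∀ ψ ∈ G.charts, γ t ∈ ψ.source →
      ∀ᶠ s in 𝓝[S] t, (ψ (γ s)).2 = (ψ (γ t)).2 := by
    intro S hS cS t ψ hψ hm
    by_cases ht : t ∈ S
    · exact hS t ht ψ hψ hm
    · rw [eventually_nhdsWithin_iff]
      filter_upwards [cS.isOpen_compl.mem_nhds ht] with s hs hs'
      exact absurd hs' hs
  intro t _ ψ hψ hm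
  rw [nhdsWithin_union, eventually_sup]
  exact ⟨aux hS cS t ψ hψ hm, aux hT cT t ψ hψ hm⟩

/-- A path which runs in a plaque of a chart. -/
theorem inPlaques_of_chart {G : Foliation} {ψ : OpenPartialHomeomorph (ℝ × ℝ) (ℝ × ℝ)}
    (hψ : ψ ∈ G.charts) {γ : ℝ → ℝ × ℝ} {S : Set ℝ} {c : ℝ} (hc : ContinuousOn γ S)
    (hm : ∀ t ∈ S, γ t ∈ ψ.source) (h2 : ∀ t ∈ S, (ψ (γ t)).2 = c) : InPlaques G γ S := by
  intro t ht ψ' hψ' hm'
  obtain ⟨V, hV, hVe⟩ := G.compatible ψ hψ ψ' hψ' (γ t) ⟨hm t ht, hm'⟩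
  filter_upwards [hc t ht hV, self_mem_nhdsWithin] with s hs hsS
  refine (hVe _ hs _ (mem_of_mem_nhds hV)).1 ?_
  simp only [h2 s hsS, h2 t ht]

/-- A good path: continuous, injective, running in plaques. -/
structure GoodPath (G : Foliation) (γ : ℝ → ℝ × ℝ) (a b : ℝ) : Prop where
  le : a ≤ b
  cont : ContinuousOn γ (Icc a b)
  inj : InjOn γ (Icc a b)
  plq : InPlaques G γ (Icc a b)

theorem GoodPath.glue {G : Foliation} {γ τ : ℝ → ℝ × ℝ} {a t b : ℝ} (h1 : GoodPath G γ a t)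
    (h2 : GoodPath G τ t b) (hj : γ t = τ t)
    (hd : ∀ s ∈ Ico a t, ∀ s' ∈ Icc t b, γ s ≠ τ s') :
    GoodPath G (fun s => if s ≤ t then γ s else τ s) a b := by
  set δ : ℝ → ℝ × ℝ := fun s => if s ≤ t then γ s else τ s with hδ
  have e1 : EqOn δ γ (Icc a t) := fun s hs => by simp [hδ, hs.2]
  have e2 : EqOn δ τ (Icc t b) := fun s hs => by
    rcases hs.1.eq_or_lt with h | h
    · subst h; simp [hδ, hj]
    · simp [hδ, not_le.2 h]
  have hU : Icc a t ∪ Icc t b = Icc a b := Icc_union_Icc_eq_Icc h1.le h2.le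
  refine ⟨h1.le.trans h2.le, ?_, ?_, ?_⟩
  · rw [← hU]
    exact (h1.cont.congr e1).union_of_isClosed (h2.cont.congr e2) isClosed_Icc isClosed_Icc
  · intro x hx y hy hxy
    by_cases hxt : x ≤ t <;> by_cases hyt : y ≤ t
    · rw [e1 ⟨hx.1, hxt⟩, e1 ⟨hy.1, hyt⟩] at hxy
      exact h1.inj ⟨hx.1, hxt⟩ ⟨hy.1, hyt⟩ hxy
    · push Not at hyt
      rcases hxt.eq_or_lt with h | h
      · subst h
        rw [e2 ⟨le_rfl, hx.2⟩, e2 ⟨hyt.le, hy.2⟩] at hxy
        exact h2.inj ⟨le_rfl, hx.2⟩ ⟨hyt.le, hy.2⟩ hxy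
      · rw [e1 ⟨hx.1, hxt⟩, e2 ⟨hyt.le, hy.2⟩] at hxy
        exact absurd hxy (hd x ⟨hx.1, h⟩ y ⟨hyt.le, hy.2⟩)
    · push Not at hxt
      rcases hyt.eq_or_lt with h | h
      · subst h
        rw [e2 ⟨le_rfl, hy.2⟩, e2 ⟨hxt.le, hx.2⟩] at hxy
        exact h2.inj ⟨hxt.le, hx.2⟩ ⟨le_rfl, hy.2⟩ hxy
      · rw [e1 ⟨hy.1, hyt⟩, e2 ⟨hxt.le, hx.2⟩] at hxy
        exact absurd hxy.symm (hd y ⟨hy.1, h⟩ x ⟨hxt.le, hx.2⟩)
    · push Not at hxt hyt
      rw [e2 ⟨hxt.le, hx.2⟩, e2 ⟨hyt.le, hy.2⟩] at hxy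
      exact h2.inj ⟨hxt.le, hx.2⟩ ⟨hyt.le, hy.2⟩ hxy
  · rw [← hU]
    exact (h1.plq.congr e1).union (h2.plq.congr e2) isClosed_Icc isClosed_Icc

/-- Any two points of a leaf are joined by a good path. -/
theorem exists_goodPath (G : Foliation) {p q : ℝ × ℝ}
    (h : Relation.ReflTransGen G.SamePlaque p q) :
    ∃ (γ : ℝ → ℝ × ℝ) (a b : ℝ), GoodPath G γ a b ∧ γ a = p ∧ γ b = q := by
  induction h with
  | refl =>
    refine ⟨fun _ => p, 0, 0, ⟨le_rfl, continuousOn_const, ?_, ?_⟩, rfl, rfl⟩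
    · simp
    · intro t _ ψ _ _
      simp
  | @tail q q' _ hqq' ih =>
    obtain ⟨γ, a, b, hγ, rfl, rfl⟩ := ih
    obtain ⟨ψ, hψ, hq, hq', hc⟩ := hqq'
    set c := (ψ (γ b)).2 with hcdef
    have hS : ψ (γ b) ∈ Square := G.target_eq ψ hψ ▸ ψ.map_source hq
    have hS' : ψ q' ∈ Square := G.target_eq ψ hψ ▸ ψ.map_source hq'
    set u := (ψ (γ b)).1 with hu
    set u' := (ψ q').1 with hu'
    have hin : ∀ v ∈ uIcc u u', ((v, c) : ℝ × ℝ) ∈ ψ.target := by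
      intro v hv
      rw [G.target_eq ψ hψ]
      have : uIcc u u' ⊆ Ioo (-1 : ℝ) 1 := by
        rw [uIcc, Icc_subset_Ioo_iff inf_le_sup]
        exact ⟨lt_min hS.1.1 hS'.1.1, max_lt hS.1.2 hS'.1.2⟩
      exact ⟨this hv, hS.2⟩
    set T : Set (ℝ × ℝ) := (fun v => ψ.symm (v, c)) '' uIcc u u' with hT
    have hcT : ContinuousOn (fun v : ℝ => ψ.symm (v, c)) (uIcc u u') :=
      ψ.continuousOn_symm.comp (Continuous.continuousOn (by fun_prop)) hin
    have hTc : IsCompact T := isCompact_uIcc.image_of_continuousOn hcT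
    have hbT : γ b ∈ T := ⟨u, left_mem_uIcc, ψ.left_inv hq⟩
    have hq'e : ψ.symm (u', c) = q' := by rw [hc]; exact ψ.left_inv hq'
    -- first hitting time
    have hK : IsCompact (Icc a b ∩ γ ⁻¹' T) :=
      isCompact_Icc.of_isClosed_subset
        (hγ.cont.preimage_isClosed_of_isClosed isClosed_Icc hTc.isClosed) inter_subset_left
    obtain ⟨t0, ⟨ht0, ht0T⟩, hleast⟩ := hK.exists_isLeast ⟨b, ⟨hγ.le, le_rfl⟩, hbT⟩
    have havoid : ∀ s ∈ Ico a t0, γ s ∉ T := by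
      intro s hs hsT
      exact absurd (hleast ⟨⟨hs.1, hs.2.le.trans ht0.2⟩, hsT⟩) (not_le.2 hs.2)
    have hγ0 : GoodPath G γ a t0 :=
      ⟨ht0.1, hγ.cont.mono (Icc_subset_Icc le_rfl ht0.2),
        hγ.inj.mono (Icc_subset_Icc le_rfl ht0.2), hγ.plq.mono (Icc_subset_Icc le_rfl ht0.2)⟩
    by_cases hend : γ t0 = q'
    · exact ⟨γ, a, t0, hγ0, rfl, hend⟩
    obtain ⟨u0, hu0, hu0e⟩ := ht0T
    simp only at hu0e
    have hne : u0 ≠ u' := by
      rintro rfl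
      exact hend (hu0e.symm.trans hq'e)
    have hconv : ∀ s ∈ Icc t0 (t0 + 1), u0 + (s - t0) * (u' - u0) ∈ uIcc u u' := by
      intro s hs
      have hcv : Convex ℝ (uIcc u u') := convex_uIcc u u'
      have := hcv hu0 (right_mem_uIcc : u' ∈ uIcc u u') (a := 1 - (s - t0)) (b := s - t0)
        (by linarith [hs.2]) (by linarith [hs.1]) (by ring)
      simp only [smul_eq_mul] at this
      convert this using 1
      ring
    set τ : ℝ → ℝ × ℝ := fun s => ψ.symm (u0 + (s - t0) * (u' - u0), c) with hτ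
    have hτm : ∀ s ∈ Icc t0 (t0 + 1), τ s ∈ ψ.source := fun s hs =>
      ψ.map_target (hin _ (hconv s hs))
    have hτv : ∀ s ∈ Icc t0 (t0 + 1), ψ (τ s) = (u0 + (s - t0) * (u' - u0), c) := fun s hs =>
      ψ.right_inv (hin _ (hconv s hs))
    have hτT : ∀ s ∈ Icc t0 (t0 + 1), τ s ∈ T := fun s hs => ⟨_, hconv s hs, rfl⟩
    have hτc : ContinuousOn τ (Icc t0 (t0 + 1)) := by
      refine ψ.continuousOn_symm.comp
        (f := fun s => ((u0 + (s - t0) * (u' - u0), c) : ℝ × ℝ))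
        (Continuous.continuousOn (by fun_prop)) ?_
      exact fun s hs => hin _ (hconv s hs)
    have hτg : GoodPath G τ t0 (t0 + 1) := by
      refine ⟨by linarith, hτc, ?_, ?_⟩
      · intro x hx y hy hxy
        have := congrArg ψ hxy
        rw [hτv x hx, hτv y hy, Prod.mk.injEq] at this
        have h3 : (x - t0) * (u' - u0) = (y - t0) * (u' - u0) := by linarith [this.1]
        have h4 := mul_right_cancel₀ (sub_ne_zero.2 hne.symm) h3
        linarith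
      · exact inPlaques_of_chart hψ (c := c) hτc hτm (fun s hs => by rw [hτv s hs])
    refine ⟨_, a, t0 + 1, hγ0.glue hτg ?_ ?_, ?_, ?_⟩
    · simp [hτ, hu0e]
    · intro s hs s' hs' hh
      exact havoid s hs (hh ▸ hτT s' hs')
    · simp [ht0.1]
    · simp only [add_le_iff_nonpos_right]
      rw [if_neg (by norm_num)]
      simp only [hτ]
      rw [show u0 + (t0 + 1 - t0) * (u' - u0) = u' by ring]
      exact hq'e

/-- A continuous open map from an interval to the line is injective. -/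
theorem injOn_of_open {g : ℝ → ℝ} {c d : ℝ} (hc : ContinuousOn g (Ioo c d))
    (ho : ∀ U ⊆ Ioo c d, IsOpen U → IsOpen (g '' U)) : InjOn g (Ioo c d) := by
  have key : ∀ p q, p ∈ Ioo c d → q ∈ Ioo c d → p < q → g p ≠ g q := by
    intro p q hp hq hpq hg
    have hsub : Icc p q ⊆ Ioo c d := fun x hx => ⟨hp.1.trans_le hx.1, hx.2.trans_lt hq.2⟩
    obtain ⟨m, hm, hext⟩ := exists_Ioo_extr_on_Icc hpq (hc.mono hsub) hg
    have hopen := ho (Ioo p q) (Ioo_subset_Icc_self.trans hsub) isOpen_Ioo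
    have hmem : g m ∈ g '' Ioo p q := ⟨m, hm, rfl⟩
    rw [Metric.isOpen_iff] at hopen
    obtain ⟨ε, hε, hball⟩ := hopen (g m) hmem
    rcases hext with hmin | hmax
    · obtain ⟨y, hy, hy'⟩ := hball (show g m - ε / 2 ∈ Metric.ball (g m) ε by
        rw [Metric.mem_ball, Real.dist_eq, abs_lt]; constructor <;> linarith)
      have := hmin (Ioo_subset_Icc_self hy)
      simp only [mem_ofPred_eq] at this
      linarith
    · obtain ⟨y, hy, hy'⟩ := hball (show g m + ε / 2 ∈ Metric.ball (g m) ε by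
        rw [Metric.mem_ball, Real.dist_eq, abs_lt]; constructor <;> linarith)
      have := hmax (Ioo_subset_Icc_self hy)
      simp only [mem_ofPred_eq] at this
      linarith
  intro p hp q hq hpq
  rcases lt_trichotomy p q with h | h | h
  · exact absurd hpq (key p q hp hq h)
  · exact h
  · exact absurd hpq.symm (key q p hq hp h)

variable {Λ : Type*} [TopologicalSpace Λ]

/-- Along a good path in a leaf of `G`, the projection to the leaf space of `F` is injective. -/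
theorem GoodPath.injOn_proj {F G : Foliation} (hFG : Transverse F G) (hΛ : HasCharts Λ)
    [SimplyConnectedSpace Λ] (L : F.LeafSpace ≃ₜ Λ) {γ : ℝ → ℝ × ℝ} {a b : ℝ}
    (hγ : GoodPath G γ a b) : InjOn (fun t => L (F.proj (γ t))) (Icc a b) := by
  have hπc : Continuous (fun p => L (F.proj p)) := L.continuous.comp F.continuous_proj
  have hπo : IsOpenMap (fun p => L (F.proj p)) := L.isOpenMap.comp F.isOpenMap_proj
  refine path_inj hΛ (hπc.comp_continuousOn hγ.cont) ?_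
  intro t ht
  obtain ⟨e, hte, hbb⟩ := hFG.exists_biBox (γ t)
  have htar : e.target = Square := hbb.1.1
  have hsq : e (γ t) ∈ Square := htar ▸ e.map_source hte
  set x0 := (e (γ t)).1 with hx0
  set y0 := (e (γ t)).2 with hy0
  -- the path stays in the vertical segment
  have hvert : ∀ᶠ s in 𝓝[Icc a b] t, γ s ∈ e.source ∧ (e (γ s)).1 = x0 := by
    obtain ⟨ψ, hψ, hψt⟩ := G.cover (γ t)
    obtain ⟨V, hV, hVe⟩ := hbb.2.2 ψ hψ (γ t) ⟨by rwa [swapChart_source], hψt⟩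
    filter_upwards [hγ.plq t ht ψ hψ hψt, hγ.cont t ht hV,
      hγ.cont t ht (e.open_source.mem_nhds hte)] with s h1 h2 h3
    exact ⟨h3, (hVe _ h2 _ (mem_of_mem_nhds hV)).2 h1⟩
  -- the map from the vertical segment
  obtain ⟨κ, hκ, -⟩ := hΛ (L (F.proj (γ t)))
  set σ : ℝ → Λ := fun y => L (F.proj (e.symm (x0, y))) with hσ
  have hin : ∀ y ∈ Ioo (-1 : ℝ) 1, ((x0, y) : ℝ × ℝ) ∈ e.target := fun y hy => by
    rw [htar]; exact ⟨hsq.1, hy⟩
  have hσc : ContinuousOn σ (Ioo (-1) 1) := by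
    refine hπc.comp_continuousOn (e.continuousOn_symm.comp
      (f := fun y => ((x0, y) : ℝ × ℝ)) (Continuous.continuousOn (by fun_prop)) ?_)
    exact hin
  have hσ0 : σ y0 = L (F.proj (γ t)) := by
    simp only [hσ, hx0, hy0]
    rw [show (((e (γ t)).1, (e (γ t)).2) : ℝ × ℝ) = e (γ t) from rfl, e.left_inv hte]
  have hσo : ∀ U ⊆ Ioo (-1 : ℝ) 1, IsOpen U → IsOpen (σ '' U) := by
    intro U hU hUo
    have hopen : IsOpen (e.symm '' (Ioo (-1 : ℝ) 1 ×ˢ U)) := by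
      refine e.isOpen_image_symm_of_subset_target (isOpen_Ioo.prod hUo) ?_
      rw [htar]
      exact prod_mono le_rfl hU
    convert hπo _ hopen using 1
    ext l
    constructor
    · rintro ⟨y, hy, rfl⟩
      exact ⟨_, ⟨(x0, y), ⟨hsq.1, hy⟩, rfl⟩, rfl⟩
    · rintro ⟨_, ⟨⟨x, y⟩, ⟨hx, hy⟩, rfl⟩, rfl⟩
      refine ⟨y, hy, ?_⟩
      have h1 : ((x, y) : ℝ × ℝ) ∈ e.target := by rw [htar]; exact ⟨hx, hU hy⟩
      have h2 := hin y (hU hy)
      simp only [hσ]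
      rw [hbb.projF (e.map_target h2) (e.map_target h1)
        (by rw [e.right_inv h1, e.right_inv h2])]
  -- a small interval
  obtain ⟨δ, hδ, hδ1, hδ2⟩ : ∃ δ > 0, Ioo (y0 - δ) (y0 + δ) ⊆ Ioo (-1 : ℝ) 1 ∧
      ∀ y ∈ Ioo (y0 - δ) (y0 + δ), σ y ∈ κ.source := by
    have h1 : Ioo (-1 : ℝ) 1 ∈ 𝓝 y0 := isOpen_Ioo.mem_nhds hsq.2
    have h2 : σ ⁻¹' κ.source ∈ 𝓝 y0 := by
      have : ContinuousAt σ y0 := hσc.continuousAt h1
      exact this (κ.open_source.mem_nhds (by rw [hσ0]; exact hκ))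
    obtain ⟨δ, hδ, hb⟩ := Metric.mem_nhds_iff.1 (Filter.inter_mem h1 h2)
    rw [Real.ball_eq_Ioo] at hb
    exact ⟨δ, hδ, fun y hy => (hb hy).1, fun y hy => (hb hy).2⟩
  have hginj : InjOn (fun y => κ (σ y)) (Ioo (y0 - δ) (y0 + δ)) := by
    refine injOn_of_open (κ.continuousOn.comp (hσc.mono hδ1) hδ2) ?_
    intro U hU hUo
    have h1 : IsOpen (σ '' U) := hσo U (hU.trans hδ1) hUo
    have h2 : σ '' U ⊆ κ.source := by
      rintro _ ⟨y, hy, rfl⟩; exact hδ2 y (hU hy)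
    have h3 := κ.isOpen_image_of_subset_source h1 h2
    rwa [image_image] at h3
  -- conclusion
  have hy : ∀ᶠ s in 𝓝[Icc a b] t, (e (γ s)).2 ∈ Ioo (y0 - δ) (y0 + δ) := by
    have : ContinuousWithinAt (fun s => (e (γ s)).2) (Icc a b) t :=
      ((e.continuousAt hte).comp_continuousWithinAt (hγ.cont t ht)).snd
    exact this (isOpen_Ioo.mem_nhds ⟨by linarith, by linarith⟩)
  have hall := hvert.and hy
  rw [eventually_nhdsWithin_iff] at hall
  obtain ⟨ε, hε, hb⟩ := Metric.mem_nhds_iff.1 hall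
  rw [Real.ball_eq_Ioo] at hb
  refine ⟨ε, hε, ?_⟩
  rintro s ⟨hs, hsε⟩ s' ⟨hs', hsε'⟩ hss
  obtain ⟨⟨h1, h2⟩, h3⟩ := hb hsε hs
  obtain ⟨⟨h1', h2'⟩, h3'⟩ := hb hsε' hs'
  have r1 : γ s = e.symm (x0, (e (γ s)).2) := by
    rw [← h2]; exact (e.left_inv h1).symm
  have r2 : γ s' = e.symm (x0, (e (γ s')).2) := by
    rw [← h2']; exact (e.left_inv h1').symm
  have r3 : σ (e (γ s)).2 = σ (e (γ s')).2 := by
    simp only [hσ]
    rw [← r1, ← r2]
    exact hss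
  have r4 : (e (γ s)).2 = (e (γ s')).2 := hginj h3 h3' (by simp only [r3])
  have r5 : γ s = γ s' := by rw [r1, r2, r4]
  exact hγ.inj hs hs' r5

/-- A leaf of `F` and a leaf of `G` meet at most once. -/
theorem eq_of_proj_eq {F G : Foliation} (hFG : Transverse F G) (hΛ : HasCharts Λ)
    [SimplyConnectedSpace Λ] (L : F.LeafSpace ≃ₜ Λ) {p q : ℝ × ℝ}
    (h1 : F.proj p = F.proj q) (h2 : G.proj p = G.proj q) : p = q := by
  obtain ⟨γ, a, b, hγ, rfl, rfl⟩ := exists_goodPath G (G.reflTransGen_of_proj_eq h2)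
  have := hγ.injOn_proj hFG hΛ L ⟨le_rfl, hγ.le⟩ ⟨hγ.le, le_rfl⟩ (by simp only [h1])
  rw [this]

end Pool.Agent.H86.Bifol
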