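import Pool.Agent.H86.Family

/-!
# Covering a simply connected 1-manifold by an ordered family of lines
-/

open Set Topology Filter

namespace Pool.Agent.H86.Bifol

set_option linter.unusedSectionVars false
set_option linter.unusedVariables false

variable {X : Type*} [TopologicalSpace X]

/-- A position just below `i`. -/
theorem exists_below (P : Finset ℚ) (i : ℚ) : ∃ κ, κ < i ∧ ∀ p ∈ P, p < i → p < κ := by
  by_cases h : (P.filter (· < i)).Nonempty
  · set a := (P.filter (· < i)).max' h with ha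
    have hai : a < i := (Finset.mem_filter.1 (Finset.max'_mem _ h)).2
    obtain ⟨κ, h1, h2⟩ := exists_between hai
    exact ⟨κ, h2, fun p hp hpi => lt_of_le_of_lt
      (Finset.le_max' _ _ (Finset.mem_filter.2 ⟨hp, hpi⟩)) h1⟩
  · refine ⟨i - 1, by linarith, fun p hp hpi => ?_⟩
    exact absurd ⟨p, Finset.mem_filter.2 ⟨hp, hpi⟩⟩ h

/-- A position just above `i`. -/
theorem exists_above (P : Finset ℚ) (i : ℚ) : ∃ κ, i < κ ∧ ∀ p ∈ P, i < p → κ < p := by
  by_cases h : (P.filter (i < ·)).Nonempty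
  · set a := (P.filter (i < ·)).min' h with ha
    have hai : i < a := (Finset.mem_filter.1 (Finset.min'_mem _ h)).2
    obtain ⟨κ, h1, h2⟩ := exists_between hai
    exact ⟨κ, h1, fun p hp hpi => lt_of_lt_of_le h2
      (Finset.min'_le _ _ (Finset.mem_filter.2 ⟨hp, hpi⟩))⟩
  · refine ⟨i + 1, by linarith, fun p hp hpi => ?_⟩
    exact absurd ⟨p, Finset.mem_filter.2 ⟨hp, hpi⟩⟩ h

variable [SCM X] {T : Typing X}

/-- Extension of a good family over a boundary point. -/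
theorem Good.extend {P : Finset ℚ} {ℓ : ℚ → Set X} (h : Good T P ℓ) {c g : X}
    (hcl : c ∈ closure (⋃ p ∈ P, ℓ p)) (hcG : c ∉ ⋃ p ∈ P, ℓ p) (hg : g ∈ ⋃ p ∈ P, ℓ p)
    {m : Set X} (hm : IsCLine m) (hcm : c ∈ m) :
    ∃ (P' : Finset ℚ) (ℓ' : ℚ → Set X), P ⊆ P' ∧ (∀ p ∈ P, ℓ' p = ℓ p) ∧ Good T P' ℓ' ∧
      m \ side c g ⊆ ⋃ p ∈ P', ℓ' p := by
  classical
  have hcnot : ∀ p ∈ P, c ∉ ℓ p := fun p hp h' => hcG (mem_iUnion₂.2 ⟨p, hp, h'⟩)
  have hside : ∀ p ∈ P, ∀ w ∈ ℓ p, side c w = side c g := by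
    intro p hp w hw
    exact side_eq (subset_side h.pre hcG (mem_iUnion₂.2 ⟨p, hp, hw⟩) hg)
  -- it is enough to find the position
  suffices hpos : ∃ i ∈ P, ∃ κ, κ ∉ P ∧ ∃ z ∈ ℓ i, NonSeparated z c ∧
      (∀ p ∈ P, p ≠ i → (p < κ ↔ p < i)) ∧
      (∀ r ∈ P, (i < κ ∧ κ < r) ∨ (r < κ ∧ κ < i) → ℓ i ∩ ℓ r ⊆ side z c) ∧
      (∀ p ∈ P, ∀ w ∈ ℓ p, NonSeparated w c → (side w c ∈ T.R ∨ side c w ∈ T.L) → p < κ) ∧
      (∀ p ∈ P, ∀ w ∈ ℓ p, NonSeparated w c → (side w c ∈ T.L ∨ side c w ∈ T.R) → κ < p) by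
    obtain ⟨i, hi, κ, hκ, z, hz, hzc, adj, ok, dR, dL⟩ := hpos
    refine ⟨Insert.insert κ P, Function.update ℓ κ ((ℓ i ∩ side z c) ∪ (m \ side c z)),
      Finset.subset_insert _ _, ?_, h.insert hi hκ hm hcm hcG hz hzc adj ok dR dL, ?_⟩
    · intro p hp
      exact Function.update_of_ne (fun h' : p = κ => hκ (h' ▸ hp)) _ _
    · intro x hx
      refine mem_iUnion₂.2 ⟨κ, Finset.mem_insert_self _ _, ?_⟩
      rw [Function.update_self, hside i hi z hz]
      exact Or.inr hx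
  -- the lines at the boundary point
  obtain ⟨p₀, hp₀, w₀, hw₀, hw₀c⟩ : ∃ p ∈ P, ∃ w ∈ ℓ p, NonSeparated w c := by
    rw [Finset.closure_biUnion] at hcl
    obtain ⟨p, hp, hpc⟩ := mem_iUnion₂.1 hcl
    obtain ⟨w, hw, hwc⟩ := (h.line p hp).complete c hpc (hcnot p hp)
    exact ⟨p, hp, w, hw, hwc⟩
  have hneq : ∀ p ∈ P, ∀ w ∈ ℓ p, w ≠ c := fun p hp w hw h' => hcnot p hp (h' ▸ hw)
  set AR := P.filter (fun p => ∃ w ∈ ℓ p, NonSeparated w c ∧
    (side w c ∈ T.R ∨ side c w ∈ T.L)) with hAR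
  set AL := P.filter (fun p => ∃ w ∈ ℓ p, NonSeparated w c ∧
    (side w c ∈ T.L ∨ side c w ∈ T.R)) with hAL
  set N := P.filter (fun p => ∃ w ∈ ℓ p, NonSeparated w c) with hN
  have hsep : ∀ p ∈ AR, ∀ q ∈ AL, p < q := by
    intro p hp q hq
    obtain ⟨hpP, w, hw, hwc, hw'⟩ := Finset.mem_filter.1 hp
    obtain ⟨hqP, v, hv, hvc, hv'⟩ := Finset.mem_filter.1 hq
    have hwne := hneq p hpP w hw
    have hvne := hneq q hqP v hv
    have hss : side c v = side c w := by rw [hside p hpP w hw, hside q hqP v hv]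
    rcases hw' with hw' | hw' <;> rcases hv' with hv' | hv'
    · have hwv : w ≠ v := by
        rintro rfl
        exact T.excl _ hv' hw'
      have hns : NonSeparated w v := hwc.trans_side hvc hwne (by
        rw [hss]; exact mem_side hwne)
      have hvs : v ∈ side w c := hvc.mem_side (Ne.symm hwv) (Ne.symm hwne)
      rw [side_eq hvs] at hw'
      exact h.typR p hpP q hqP w hw v hv hwv hns hw'
    · rw [hss] at hv'
      exact (T.swap.cover (H := side w c) (H' := side c w) hw' hv'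
        (union_side_side (mem_side (Ne.symm hwne)) (mem_side hwne))).elim
    · rw [← hss] at hw'
      exact (T.cover (H := side v c) (H' := side c v) hv' hw'
        (union_side_side (mem_side (Ne.symm hvne)) (mem_side hvne))).elim
    · rw [hss] at hv'
      exact absurd hv' (T.excl _ hw')
  by_cases hemp : AR.Nonempty
  · set i := AR.max' hemp with hi
    have hiAR : i ∈ AR := Finset.max'_mem _ _
    obtain ⟨hiP, z, hz, hzc, hz'⟩ := Finset.mem_filter.1 hiAR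
    obtain ⟨κ, hiκ, hκ⟩ := exists_above P i
    have hmax : ∀ p ∈ AR, p ≤ i := fun p hp => Finset.le_max' _ _ hp
    refine ⟨i, hiP, κ, fun h' => lt_irrefl _ (hκ κ h' hiκ), z, hz, hzc, ?_, ?_, ?_, ?_⟩
    · intro p hp hpi
      constructor
      · intro h1
        rcases lt_or_gt_of_ne hpi with h2 | h2
        · exact h2
        · exact absurd (hκ p hp h2) (not_lt.2 h1.le)
      · intro h1; exact h1.trans hiκ
    · rintro r hr (⟨h1, h2⟩ | ⟨h1, h2⟩)
      · by_contra hblock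
        by_cases hzr : z ∈ ℓ r
        · have : r ∈ AR := Finset.mem_filter.2 ⟨hr, z, hzr, hzc, hz'⟩
          exact absurd (hmax r this) (not_le.2 (h1.trans h2))
        · have := h.block_right hiP hr (h1.trans h2) hz hzc (hneq i hiP z hz) hblock hzr
          have hAL' : i ∈ AL := Finset.mem_filter.2 ⟨hiP, z, hz, hzc, Or.inl this⟩
          exact lt_irrefl _ (hsep i hiAR i hAL')
      · exact absurd h2 (not_lt.2 hiκ.le)
    · intro p hp w hw hwc hw'
      exact lt_of_le_of_lt (hmax p (Finset.mem_filter.2 ⟨hp, w, hw, hwc, hw'⟩)) hiκ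
    · intro p hp w hw hwc hw'
      exact hκ p hp (hsep i hiAR p (Finset.mem_filter.2 ⟨hp, w, hw, hwc, hw'⟩))
  · have hNne : N.Nonempty := ⟨p₀, Finset.mem_filter.2 ⟨hp₀, w₀, hw₀, hw₀c⟩⟩
    set i := N.min' hNne with hi
    have hiN : i ∈ N := Finset.min'_mem _ _
    obtain ⟨hiP, z, hz, hzc⟩ := Finset.mem_filter.1 hiN
    obtain ⟨κ, hiκ, hκ⟩ := exists_below P i
    have hmin : ∀ p ∈ N, i ≤ p := fun p hp => Finset.min'_le _ _ hp
    refine ⟨i, hiP, κ, fun h' => lt_irrefl _ (hκ κ h' hiκ), z, hz, hzc, ?_, ?_, ?_, ?_⟩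
    · intro p hp hpi
      constructor
      · intro h1; exact h1.trans hiκ
      · intro h1; exact hκ p hp h1
    · rintro r hr (⟨h1, h2⟩ | ⟨h1, h2⟩)
      · exact absurd h1 (not_lt.2 hiκ.le)
      · by_contra hblock
        by_cases hzr : z ∈ ℓ r
        · have : r ∈ N := Finset.mem_filter.2 ⟨hr, z, hzr, hzc⟩
          exact absurd (hmin r this) (not_le.2 (h1.trans h2))
        · have := h.block_left hiP hr (h1.trans h2) hz hzc (hneq i hiP z hz) hblock hzr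
          exact hemp ⟨i, Finset.mem_filter.2 ⟨hiP, z, hz, hzc, Or.inl this⟩⟩
    · intro p hp w hw hwc hw'
      exact absurd ⟨p, Finset.mem_filter.2 ⟨hp, w, hw, hwc, hw'⟩⟩ hemp
    · intro p hp w hw hwc hw'
      exact lt_of_lt_of_le hiκ (hmin p (Finset.mem_filter.2 ⟨hp, w, hw, hwc⟩))

/-- Every point can be covered by an extension of a good family. -/
theorem Good.reach {P : Finset ℚ} {ℓ : ℚ → Set X} (h : Good T P ℓ) (x : X) :
    ∃ (P' : Finset ℚ) (ℓ' : ℚ → Set X), P ⊆ P' ∧ (∀ p ∈ P, ℓ' p = ℓ p) ∧ Good T P' ℓ' ∧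
      x ∈ ⋃ p ∈ P', ℓ' p := by
  set S : Set X := {x | ∃ (P' : Finset ℚ) (ℓ' : ℚ → Set X), P ⊆ P' ∧ (∀ p ∈ P, ℓ' p = ℓ p) ∧
    Good T P' ℓ' ∧ x ∈ ⋃ p ∈ P', ℓ' p} with hS
  have hGo : ∀ {P' : Finset ℚ} {ℓ' : ℚ → Set X}, Good T P' ℓ' → IsOpen (⋃ p ∈ P', ℓ' p) := by
    intro P' ℓ' h'
    exact isOpen_biUnion fun p hp => (h'.line p hp).isOpen
  have hSo : IsOpen S := by
    rw [isOpen_iff_mem_nhds]
    rintro y ⟨P', ℓ', h1, h2, h3, h4⟩
    exact Filter.mem_of_superset ((hGo h3).mem_nhds h4) fun z hz => ⟨P', ℓ', h1, h2, h3, hz⟩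
  have hSc : IsClosed S := by
    refine isClosed_of_closure_subset fun c hc => ?_
    obtain ⟨e, hce, htar⟩ := exists_chart c
    obtain ⟨m, hem, hm⟩ := exists_cline_source htar
    obtain ⟨y, hye, P', ℓ', h1, h2, h3, hy⟩ := mem_closure_iff.1 hc _ e.open_source hce
    by_cases hcG : c ∈ ⋃ p ∈ P', ℓ' p
    · exact ⟨P', ℓ', h1, h2, h3, hcG⟩
    set G := ⋃ p ∈ P', ℓ' p with hG
    have hepre := isPreconnected_source htar
    obtain ⟨d, hde, hdcl, hdW, hd⟩ := exit hepre e.open_source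
      (isPreconnected_inter hepre e.open_source h3.pre (hGo h3))
      (e.open_source.inter (hGo h3)) inter_subset_left hce (fun h' => hcG h'.2)
      (⟨hye, hy⟩ : y ∈ e.source ∩ G)
    have hdG : d ∉ G := fun h' => hdW ⟨hde, h'⟩
    obtain ⟨P'', ℓ'', h1', h2', h3', h4'⟩ := h3.extend (closure_mono inter_subset_right hdcl) hdG
      hy hm (hem hde)
    refine ⟨P'', ℓ'', h1.trans h1', fun p hp => by rw [h2' p (h1 hp), h2 p hp], h3',
      h4' ⟨hem hce, ?_⟩⟩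
    rcases hd with rfl | hd
    · exact self_notMem_side
    · intro h'
      exact hd (mem_side_symm h')
  have hne : S.Nonempty := by
    obtain ⟨p, hp⟩ := h.ne
    obtain ⟨y, hy⟩ := (h.line p hp).nonempty
    exact ⟨y, P, ℓ, subset_rfl, fun _ _ => rfl, h, mem_iUnion₂.2 ⟨p, hp, hy⟩⟩
  have huniv : S = univ := IsClopen.eq_univ ⟨hSc, hSo⟩ hne
  have hx : x ∈ S := by rw [huniv]; trivial
  exact hx

/-- **Ordered covering by lines.** If there are no three pairwise disjoint folded half-spaces, then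
the 1-manifold is a union of a countable totally ordered family of lines which is convex: the
intersection of two lines is contained in all lines between them. -/
theorem exists_family [SecondCountableTopology X] (h3 : NoThree X) :
    ∃ (P : Set ℚ) (ℓ : ℚ → Set X), (∀ p ∈ P, IsLine (ℓ p)) ∧
      (∀ p ∈ P, ∀ q ∈ P, ∀ r ∈ P, p ≤ q → q ≤ r → ℓ p ∩ ℓ r ⊆ ℓ q) ∧
      ∀ x, ∃ p ∈ P, x ∈ ℓ p := by
  classical
  obtain ⟨T⟩ := exists_typing h3
  -- the initial family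
  obtain ⟨x₀⟩ : Nonempty X := inferInstance
  obtain ⟨e, -, htar⟩ := exists_chart x₀
  obtain ⟨m, -, hm⟩ := exists_cline_source htar
  have h0 : Good T {0} (fun _ => m) := by
    refine ⟨fun _ _ => hm, fun _ _ _ _ _ _ _ _ => inter_subset_left, ?_, ?_, ?_,
      Finset.singleton_nonempty _⟩
    · intro p _ q _ z hz z' hz' hne hns _
      exact absurd (hm.sep z hz z' hz' hns) hne
    · intro p _ q _ z hz z' hz' hne hns _
      exact absurd (hm.sep z hz z' hz' hns) hne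
    · simpa using hm.pre
  let St := {s : Finset ℚ × (ℚ → Set X) // Good T s.1 s.2}
  have hstep : ∀ (s : St) (x : X), ∃ s' : St, s.1.1 ⊆ s'.1.1 ∧ (∀ p ∈ s.1.1, s'.1.2 p = s.1.2 p) ∧
      x ∈ ⋃ p ∈ s'.1.1, s'.1.2 p := by
    rintro ⟨⟨P, ℓ⟩, h⟩ x
    obtain ⟨P', ℓ', h1, h2, h3, h4⟩ := h.reach x
    exact ⟨⟨⟨P', ℓ'⟩, h3⟩, h1, h2, h4⟩
  choose next hn1 hn2 hn3 using hstep
  obtain ⟨u, hu⟩ := TopologicalSpace.exists_dense_seq X
  let s : ℕ → St := fun n => Nat.rec ⟨⟨{0}, fun _ => m⟩, h0⟩ (fun k s => next s (u k)) n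
  have hs : ∀ n, s (n + 1) = next (s n) (u n) := fun n => rfl
  have hmono : ∀ n k, n ≤ k → (s n).1.1 ⊆ (s k).1.1 ∧
      ∀ p ∈ (s n).1.1, (s k).1.2 p = (s n).1.2 p := by
    intro n k hnk
    induction k, hnk using Nat.le_induction with
    | base => exact ⟨subset_rfl, fun _ _ => rfl⟩
    | succ k hk ih =>
      rw [hs]
      exact ⟨ih.1.trans (hn1 _ _), fun p hp => by rw [hn2 _ _ p (ih.1 hp), ih.2 p hp]⟩
  set P : Set ℚ := {p | ∃ n, p ∈ (s n).1.1} with hP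
  have hex : ∀ p, ∃ n, p ∈ P → p ∈ (s n).1.1 := by
    intro p
    by_cases h : p ∈ P
    · obtain ⟨n, hn⟩ := h
      exact ⟨n, fun _ => hn⟩
    · exact ⟨0, fun h' => absurd h' h⟩
  choose N hN using hex
  set ℓ : ℚ → Set X := fun p => (s (N p)).1.2 p with hℓ
  have hval : ∀ n, ∀ p ∈ (s n).1.1, ℓ p = (s n).1.2 p := by
    intro n p hp
    have hpP : p ∈ P := ⟨n, hp⟩
    rcases le_total n (N p) with h | h
    · exact (hmono n (N p) h).2 p hp
    · exact ((hmono (N p) n h).2 p (hN p hpP)).symm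
  have hG : ∀ n, (⋃ p ∈ (s n).1.1, (s n).1.2 p) ⊆ ⋃ p ∈ P, ℓ p := by
    intro n x hx
    obtain ⟨p, hp, hx⟩ := mem_iUnion₂.1 hx
    refine mem_iUnion₂.2 ⟨p, ⟨n, hp⟩, ?_⟩
    rw [hval n p hp]; exact hx
  have hGmono : ∀ n k, n ≤ k → (⋃ p ∈ (s n).1.1, (s n).1.2 p) ⊆ ⋃ p ∈ (s k).1.1, (s k).1.2 p := by
    intro n k hnk x hx
    obtain ⟨p, hp, hx⟩ := mem_iUnion₂.1 hx
    refine mem_iUnion₂.2 ⟨p, (hmono n k hnk).1 hp, ?_⟩
    rw [(hmono n k hnk).2 p hp]; exact hx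
  have hline : ∀ p ∈ P, IsLine (ℓ p) := by
    rintro p ⟨n, hp⟩
    rw [hval n p hp]
    exact ((s n).2.line p hp).toIsLine
  refine ⟨P, ℓ, hline, ?_, ?_⟩
  · rintro p ⟨n₁, hp⟩ q ⟨n₂, hq⟩ r ⟨n₃, hr⟩ hpq hqr
    set n := max n₁ (max n₂ n₃) with hn
    have hp' := (hmono n₁ n (le_max_left _ _)).1 hp
    have hq' := (hmono n₂ n ((le_max_left _ _).trans (le_max_right _ _))).1 hq
    have hr' := (hmono n₃ n ((le_max_right _ _).trans (le_max_right _ _))).1 hr
    rw [hval n p hp', hval n q hq', hval n r hr']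
    exact (s n).2.conv p hp' q hq' r hr' hpq hqr
  · -- the union is everything
    intro x
    by_contra hx
    have hxG : x ∉ ⋃ p ∈ P, ℓ p := by
      intro h
      obtain ⟨p, hp, hxp⟩ := mem_iUnion₂.1 h
      exact hx ⟨p, hp, hxp⟩
    have hpre : IsPreconnected (⋃ p ∈ P, ℓ p) := by
      refine isPreconnected_of_forall_pair ?_
      intro y hy z hz
      obtain ⟨p, ⟨n, hp⟩, hyp⟩ := mem_iUnion₂.1 hy
      obtain ⟨q, ⟨k, hq⟩, hzq⟩ := mem_iUnion₂.1 hz
      refine ⟨⋃ p ∈ (s (max n k)).1.1, (s (max n k)).1.2 p, hG _, ?_, ?_, (s (max n k)).2.pre⟩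
      · refine hGmono n _ (le_max_left _ _) (mem_iUnion₂.2 ⟨p, hp, ?_⟩)
        rw [← hval n p hp]; exact hyp
      · refine hGmono k _ (le_max_right _ _) (mem_iUnion₂.2 ⟨q, hq, ?_⟩)
        rw [← hval k q hq]; exact hzq
    have hdense : ∀ n, u n ∈ ⋃ p ∈ P, ℓ p := by
      intro n
      refine hG (n + 1) ?_
      rw [hs]
      exact hn3 _ _
    obtain ⟨w, hwx, hw⟩ := exists_other x (u 0)
    have h1 : (⋃ p ∈ P, ℓ p) ⊆ side x (u 0) := subset_side hpre hxG (hdense 0)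
    obtain ⟨_, hz, ⟨n, rfl⟩⟩ := hu.inter_open_nonempty (side x w) isOpen_side ⟨w, mem_side hwx⟩
    exact Set.disjoint_left.1 (disjoint_side hw) hz (h1 (hdense n))

end Pool.Agent.H86.Bifol
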