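import Pool.Agent.H86.FromMap
import Pool.Agent.H86.Cover

/-!
# The family of lines of an ordered covering
-/

open Set Topology Filter

namespace Pool.Agent.H86.Bifol

set_option linter.unusedSectionVars false
set_option linter.unusedVariables false

variable {X : Type*} [TopologicalSpace X] [SCM X]

theorem κ_strictMono : StrictMono κ := by
  intro a b h
  exact (orderIsoIooNegOneOne ℝ).strictMono h

theorem κ_mem (t : ℝ) : κ t ∈ Ioo (-1 : ℝ) 1 := (orderIsoIooNegOneOne ℝ t).2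

/-- The family `U x`, the union of the `L i ∩ L k` with `σ i < x < σ k`. -/
theorem exists_fam {J : Type*} [LinearOrder J] {σ : J → ℝ} (hσ : StrictMono σ)
    (hσb : ∀ j, σ j ∈ Ioo (-1 : ℝ) 1) {L : J → Set X} (hL : ∀ j, IsLine (L j))
    (conv : ∀ i j k, i ≤ j → j ≤ k → L i ∩ L k ⊆ L j)
    (cov : ∀ x, ∃ i k, i < k ∧ x ∈ L i ∧ x ∈ L k) : Nonempty (Fam X) := by
  have pair : ∀ x : ℝ, ∀ l m : X, (∃ i k, σ i < x ∧ x < σ k ∧ l ∈ L i ∧ l ∈ L k) →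
      (∃ i k, σ i < x ∧ x < σ k ∧ m ∈ L i ∧ m ∈ L k) →
      ∃ i k, σ i < x ∧ x < σ k ∧ l ∈ L i ∩ L k ∧ m ∈ L i ∩ L k := by
    rintro x l m ⟨i, k, h1, h2, h3, h4⟩ ⟨i', k', h1', h2', h3', h4'⟩
    have hik : ∀ a b : J, σ a < x → x < σ b → a ≤ b := fun a b ha hb =>
      (hσ.lt_iff_lt.1 (ha.trans hb)).le
    have hmax : σ (max i i') < x := by
      rcases max_choice i i' with h | h <;> rw [h] <;> assumption
    have hmin : x < σ (min k k') := by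
      rcases min_choice k k' with h | h <;> rw [h] <;> assumption
    refine ⟨max i i', min k k', hmax, hmin, ⟨?_, ?_⟩, ?_, ?_⟩
    · exact conv i _ k (le_max_left _ _) (hik _ _ hmax h2) ⟨h3, h4⟩
    · exact conv i _ k (hik _ _ h1 hmin) (min_le_left _ _) ⟨h3, h4⟩
    · exact conv i' _ k' (le_max_right _ _) (hik _ _ hmax h2') ⟨h3', h4'⟩
    · exact conv i' _ k' (hik _ _ h1' hmin) (min_le_right _ _) ⟨h3', h4'⟩
  refine ⟨⟨fun x => {l | ∃ i k, σ i < x ∧ x < σ k ∧ l ∈ L i ∧ l ∈ L k}, ?_, ?_, ?_, ?_, ?_, ?_⟩⟩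
  · have h1 : {p : X × ℝ | p.1 ∈ {l | ∃ i k, σ i < p.2 ∧ p.2 < σ k ∧ l ∈ L i ∧ l ∈ L k}} =
        ⋃ i, ⋃ k, (L i ∩ L k) ×ˢ Ioo (σ i) (σ k) := by
      ext ⟨l, x⟩
      simp only [mem_ofPred_eq, mem_iUnion, mem_prod, mem_inter_iff, mem_Ioo]
      constructor
      · rintro ⟨i, k, h1, h2, h3, h4⟩
        exact ⟨i, k, ⟨h3, h4⟩, h1, h2⟩
      · rintro ⟨i, k, ⟨h3, h4⟩, h1, h2⟩
        exact ⟨i, k, h1, h2, h3, h4⟩
    rw [h1]
    exact isOpen_iUnion fun i => isOpen_iUnion fun k =>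
      ((hL i).isOpen.inter (hL k).isOpen).prod isOpen_Ioo
  · intro l
    refine ⟨?_⟩
    rintro x ⟨i, k, h1, h2, h3, h4⟩ y ⟨i', k', h1', h2', h3', h4'⟩ z hz
    exact ⟨i, k', lt_of_lt_of_le h1 hz.1, lt_of_le_of_lt hz.2 h2', h3, h4'⟩
  · intro l
    obtain ⟨i, k, h1, h2, h3⟩ := cov l
    obtain ⟨x, hx1, hx2⟩ := exists_between (hσ h1)
    exact ⟨x, i, k, hx1, hx2, h2, h3⟩
  · intro x
    refine isPreconnected_of_forall_pair ?_
    intro l hl m hm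
    obtain ⟨i, k, h1, h2, h3, h4⟩ := pair x l m hl hm
    refine ⟨L i ∩ L k, fun n hn => ⟨i, k, h1, h2, hn.1, hn.2⟩, h3, h4, ?_⟩
    exact isPreconnected_inter (hL i).pre (hL i).isOpen (hL k).pre (hL k).isOpen
  · intro x l hl m hm hlm
    obtain ⟨i, k, h1, h2, h3, h4⟩ := pair x l m hl hm
    exact (hL i).sep l h3.1 m h4.1 hlm
  · rintro x ⟨l, i, k, h1, h2, -⟩
    exact ⟨(hσb i).1.trans h1, h2.trans (hσb k).2⟩

/-- If there are no three pairwise disjoint folded half-spaces, then there is a family of lines. -/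
theorem exists_fam_of_noThree [SecondCountableTopology X] (h3 : NoThree X) :
    Nonempty (Fam X) := by
  obtain ⟨P, ℓ, hline, hconv, hcov⟩ := exists_family h3
  have hcount : Countable (P ×ₗ Bool) := inferInstanceAs (Countable (P × Bool))
  obtain ⟨g⟩ : Nonempty (P ×ₗ Bool ↪o ℚ) := Order.embedding_from_countable_to_dense _ _
  exact exists_fam (J := P ×ₗ Bool) (σ := fun j => κ (g j : ℚ))
    (fun i j hij => κ_strictMono (by exact_mod_cast g.strictMono hij))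
    (fun j => κ_mem _) (L := fun j => ℓ ((ofLex j).1 : ℚ))
    (fun j => hline _ (ofLex j).1.2)
    (fun i j k hij hjk => hconv _ (ofLex i).1.2 _ (ofLex j).1.2 _ (ofLex k).1.2
      (Prod.Lex.monotone_fst _ _ hij) (Prod.Lex.monotone_fst _ _ hjk))
    (fun x => by
      obtain ⟨p, hp, hx⟩ := hcov x
      refine ⟨toLex (⟨p, hp⟩, false), toLex (⟨p, hp⟩, true), ?_, hx, hx⟩
      rw [Prod.Lex.toLex_lt_toLex]
      exact Or.inr ⟨rfl, Bool.false_lt_true⟩)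

/-- **Sufficiency.** If there are no three pairwise disjoint folded half-spaces, then `(X, ℝ)` is
realized. -/
theorem realized_of_noThree [SecondCountableTopology X] (h3 : NoThree X) : Realized X ℝ := by
  obtain ⟨F⟩ := exists_fam_of_noThree h3
  exact realized_of_fam F

/-- The line has no three pairwise disjoint half-spaces. -/
theorem real_not_three {K₁ K₂ K₃ : Set ℝ} (h₁ : IsHalfSpace K₁) (h₂ : IsHalfSpace K₂)
    (h₃ : IsHalfSpace K₃) (h₁₂ : Disjoint K₁ K₂) (h₁₃ : Disjoint K₁ K₃)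
    (h₂₃ : Disjoint K₂ K₃) : False := by
  have key : ∀ K : Set ℝ, IsHalfSpace K → ∃ w, Ioi w ⊆ K ∨ Iio w ⊆ K := by
    rintro K ⟨w, z, hzw, rfl⟩
    refine ⟨w, ?_⟩
    rcases lt_or_gt_of_ne hzw with h | h
    · right
      exact isPreconnected_Iio.subset_connectedComponentIn h (fun x hx => ne_of_lt hx)
    · left
      exact isPreconnected_Ioi.subset_connectedComponentIn h (fun x hx => ne_of_gt hx)
  have hup : ∀ K K' : Set ℝ, Disjoint K K' → ∀ w w', Ioi w ⊆ K → Ioi w' ⊆ K' → False := by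
    intro K K' hd w w' h h'
    have h1 : max w w' + 1 ∈ Ioi w := mem_Ioi.2 (lt_of_le_of_lt (le_max_left _ _) (lt_add_one _))
    have h2 : max w w' + 1 ∈ Ioi w' :=
      mem_Ioi.2 (lt_of_le_of_lt (le_max_right _ _) (lt_add_one _))
    exact Set.disjoint_left.1 hd (h h1) (h' h2)
  have hdn : ∀ K K' : Set ℝ, Disjoint K K' → ∀ w w', Iio w ⊆ K → Iio w' ⊆ K' → False := by
    intro K K' hd w w' h h'
    have h1 : min w w' - 1 ∈ Iio w := mem_Iio.2 (lt_of_lt_of_le (sub_one_lt _) (min_le_left _ _))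
    have h2 : min w w' - 1 ∈ Iio w' :=
      mem_Iio.2 (lt_of_lt_of_le (sub_one_lt _) (min_le_right _ _))
    exact Set.disjoint_left.1 hd (h h1) (h' h2)
  obtain ⟨w₁, k₁⟩ := key K₁ h₁
  obtain ⟨w₂, k₂⟩ := key K₂ h₂
  obtain ⟨w₃, k₃⟩ := key K₃ h₃
  rcases k₁ with k₁ | k₁ <;> rcases k₂ with k₂ | k₂ <;> rcases k₃ with k₃ | k₃
  · exact hup _ _ h₁₂ _ _ k₁ k₂
  · exact hup _ _ h₁₂ _ _ k₁ k₂
  · exact hup _ _ h₁₃ _ _ k₁ k₃
  · exact hdn _ _ h₂₃ _ _ k₂ k₃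
  · exact hup _ _ h₂₃ _ _ k₂ k₃
  · exact hdn _ _ h₁₃ _ _ k₁ k₃
  · exact hdn _ _ h₁₂ _ _ k₁ k₂
  · exact hdn _ _ h₁₂ _ _ k₁ k₂

/-- **Necessity.** -/
theorem noThree_of_realized {Y : Type*} [TopologicalSpace Y] [SimplyConnectedSpace Y]
    (hY : HasCharts Y) (h : Realized Y ℝ) : NoThree Y := by
  rintro ⟨H₁, H₂, H₃, h₁, h₂, h₃, h₁₂, h₁₃, h₂₃⟩
  obtain ⟨F, G, hFG, ⟨L⟩, ⟨L'⟩⟩ := h
  have hR : HasCharts ℝ := fun x => ⟨OpenPartialHomeomorph.refl ℝ, trivial, rfl⟩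
  obtain ⟨K₁, k₁, e₁⟩ := exists_halfSpace_of_folded hFG hY hR L L' h₁
  obtain ⟨K₂, k₂, e₂⟩ := exists_halfSpace_of_folded hFG hY hR L L' h₂
  obtain ⟨K₃, k₃, e₃⟩ := exists_halfSpace_of_folded hFG hY hR L L' h₃
  have hd : ∀ K K' : Set ℝ, ∀ H H' : Set Y, (∀ p, L' (G.proj p) ∈ K → L (F.proj p) ∈ H) →
      (∀ p, L' (G.proj p) ∈ K' → L (F.proj p) ∈ H') → Disjoint H H' → Disjoint K K' := by
    intro K K' H H' hK hK' hHH
    rw [Set.disjoint_left]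
    intro x hx hx'
    obtain ⟨p, rfl⟩ := (L'.surjective.comp Quotient.mk_surjective : Function.Surjective
      (fun p => L' (G.proj p))) x
    exact Set.disjoint_left.1 hHH (hK p hx) (hK' p hx')
  exact real_not_three k₁ k₂ k₃ (hd _ _ _ _ e₁ e₂ h₁₂) (hd _ _ _ _ e₁ e₃ h₁₃)
    (hd _ _ _ _ e₂ e₃ h₂₃)

theorem Realized.symm {Y Z : Type*} [TopologicalSpace Y] [TopologicalSpace Z]
    (h : Realized Y Z) : Realized Z Y := by
  obtain ⟨F, G, hFG, hL, hL'⟩ := h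
  exact ⟨G, F, hFG.symm, hL', hL⟩

end Pool.Agent.H86.Bifol
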