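import Pool.Agent.H86.Types

/-!
# Ordered families of complete lines
-/

open Set Topology Filter

namespace Pool.Agent.H86.Bifol

set_option linter.unusedSectionVars false
set_option linter.unusedVariables false

variable {X : Type*} [TopologicalSpace X]

/-- A good finite family of complete lines at rational positions. -/
structure Good (T : Typing X) (P : Finset ℚ) (ℓ : ℚ → Set X) : Prop where
  line : ∀ p ∈ P, IsCLine (ℓ p)
  conv : ∀ p ∈ P, ∀ q ∈ P, ∀ r ∈ P, p ≤ q → q ≤ r → ℓ p ∩ ℓ r ⊆ ℓ q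
  typR : ∀ p ∈ P, ∀ q ∈ P, ∀ z ∈ ℓ p, ∀ z' ∈ ℓ q, z ≠ z' → NonSeparated z z' →
    side z z' ∈ T.R → p < q
  typL : ∀ p ∈ P, ∀ q ∈ P, ∀ z ∈ ℓ p, ∀ z' ∈ ℓ q, z ≠ z' → NonSeparated z z' →
    side z z' ∈ T.L → q < p
  pre : IsPreconnected (⋃ p ∈ P, ℓ p)
  ne : P.Nonempty

/-- Reflection of a good family. -/
theorem Good.mirror {T : Typing X} {P : Finset ℚ} {ℓ : ℚ → Set X} (h : Good T P ℓ) :
    Good T.swap (P.image Neg.neg) (fun p => ℓ (-p)) := by
  have hmem : ∀ p, p ∈ P.image Neg.neg ↔ -p ∈ P := by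
    intro p
    rw [Finset.mem_image]
    constructor
    · rintro ⟨q, hq, rfl⟩
      rwa [neg_neg]
    · intro hp
      exact ⟨-p, hp, neg_neg p⟩
  refine ⟨fun p hp => h.line _ ((hmem p).1 hp), ?_, ?_, ?_, ?_, h.ne.image _⟩
  · intro p hp q hq r hr hpq hqr
    have := h.conv _ ((hmem r).1 hr) _ ((hmem q).1 hq) _ ((hmem p).1 hp) (neg_le_neg hqr)
      (neg_le_neg hpq)
    rwa [inter_comm] at this
  · intro p hp q hq z hz z' hz' hne hns hR
    have := h.typL _ ((hmem p).1 hp) _ ((hmem q).1 hq) z hz z' hz' hne hns hR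
    linarith
  · intro p hp q hq z hz z' hz' hne hns hR
    have := h.typR _ ((hmem p).1 hp) _ ((hmem q).1 hq) z hz z' hz' hne hns hR
    linarith
  · have : (⋃ p ∈ P.image Neg.neg, ℓ (-p)) = ⋃ p ∈ P, ℓ p := by
      ext x
      simp only [mem_iUnion, exists_prop]
      constructor
      · rintro ⟨p, hp, hx⟩
        exact ⟨-p, (hmem p).1 hp, hx⟩
      · rintro ⟨p, hp, hx⟩
        exact ⟨-p, (hmem _).2 (by rwa [neg_neg]), by rwa [neg_neg]⟩
    rw [this]
    exact h.pre

variable [SCM X]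

section block

variable {T : Typing X} {P : Finset ℚ} {ℓ : ℚ → Set X}

/-- A blocked insertion on the left of `i` comes from a common point `z` or a type. -/
theorem Good.block_left (h : Good T P ℓ) {i r : ℚ} (hi : i ∈ P) (hr : r ∈ P) (hri : r < i)
    {c z : X} (hz : z ∈ ℓ i) (hzc : NonSeparated z c) (hne : z ≠ c)
    (hblock : ¬ (ℓ i ∩ ℓ r ⊆ side z c)) (hzr : z ∉ ℓ r) : side z c ∈ T.R := by
  obtain ⟨g, ⟨hgi, hgr⟩, hgs⟩ := Set.not_subset.1 hblock
  have hli := h.line i hi
  have hlr := h.line r hr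
  have hgz : g ≠ z := fun h' => hzr (h' ▸ hgr)
  set W := ℓ i ∩ ℓ r with hW
  have hWpre : IsPreconnected W := isPreconnected_inter hli.pre hli.isOpen hlr.pre hlr.isOpen
  have hWo : IsOpen W := hli.isOpen.inter hlr.isOpen
  have hzW : z ∉ W := fun h' => hzr h'.2
  obtain ⟨p, hpi, hpcl, hpW, hp⟩ := exit hli.pre hli.isOpen hWpre hWo inter_subset_left hz hzW
    (⟨hgi, hgr⟩ : g ∈ W)
  have hpr : p ∉ ℓ r := fun h' => hpW ⟨hpi, h'⟩
  obtain ⟨p', hp'r, hp'⟩ := hlr.complete p (closure_mono inter_subset_right hpcl) hpr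
  have hpp' : p ≠ p' := fun h' => hpr (h' ▸ hp'r)
  have hp's : p' ∈ side p g := subset_side hlr.pre hpr hgr hp'r
  have hsideeq : side p p' = side p g := (side_eq hp's).symm
  have hd : Disjoint (side z c) (side p p') := by
    rw [hsideeq]
    rcases hp with rfl | hp
    · exact (disjoint_side hgs).symm
    · by_cases hpz : p = z
      · rw [hpz]; exact (disjoint_side hgs).symm
      refine disjoint_side_side (Ne.symm hpz) (Ne.symm hne) ?_ ?_
      · intro hps
        have h1 : W ⊆ side z g := subset_side hWpre hzW ⟨hgi, hgr⟩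
        have h2 : p ∈ side z g := by
          rcases closure_side_subset (closure_mono h1 hpcl) with h3 | h3
          · exact absurd h3 hpz
          · exact h3
        exact hgs (mem_side_trans (mem_side_symm h2) hps)
      · intro hzp
        exact hp (mem_side_symm hzp)
  have hf1 : IsFolded (side z c) := ⟨z, c, hne, hzc, rfl⟩
  have hf2 : IsFolded (side p p') := ⟨p, p', hpp', hp'.symm', rfl⟩
  rcases T.opp _ _ hf1 hf2 hd with h1 | h1
  · have := h.typR i hi r hr p hpi p' hp'r hpp' hp'.symm' h1.2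
    exact absurd this (not_lt.2 hri.le)
  · exact h1.1

/-- A blocked insertion on the right of `i` comes from a common point `z` or a type. -/
theorem Good.block_right (h : Good T P ℓ) {i r : ℚ} (hi : i ∈ P) (hr : r ∈ P) (hri : i < r)
    {c z : X} (hz : z ∈ ℓ i) (hzc : NonSeparated z c) (hne : z ≠ c)
    (hblock : ¬ (ℓ i ∩ ℓ r ⊆ side z c)) (hzr : z ∉ ℓ r) : side z c ∈ T.L := by
  have hm := h.mirror
  refine hm.block_left (i := -i) (r := -r) ?_ ?_ (by linarith) (c := c) (z := z) ?_ hzc hne ?_ ?_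
  · exact Finset.mem_image_of_mem _ hi
  · exact Finset.mem_image_of_mem _ hr
  · simpa using hz
  · simpa using hblock
  · simpa using hzr

/-- Insertion of a line in a good family. -/
theorem Good.insert (h : Good T P ℓ) {i κ : ℚ} (hi : i ∈ P) (hκ : κ ∉ P) {c z : X} {m : Set X}
    (hm : IsCLine m) (hcm : c ∈ m) (hcG : c ∉ ⋃ p ∈ P, ℓ p) (hz : z ∈ ℓ i)
    (hzc : NonSeparated z c)
    (adj : ∀ p ∈ P, p ≠ i → (p < κ ↔ p < i))
    (ok : ∀ r ∈ P, (i < κ ∧ κ < r) ∨ (r < κ ∧ κ < i) → ℓ i ∩ ℓ r ⊆ side z c)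
    (dR : ∀ p ∈ P, ∀ w ∈ ℓ p, NonSeparated w c → (side w c ∈ T.R ∨ side c w ∈ T.L) → p < κ)
    (dL : ∀ p ∈ P, ∀ w ∈ ℓ p, NonSeparated w c → (side w c ∈ T.L ∨ side c w ∈ T.R) → κ < p) :
    Good T (Insert.insert κ P)
      (Function.update ℓ κ ((ℓ i ∩ side z c) ∪ (m \ side c z))) := by
  set n := (ℓ i ∩ side z c) ∪ (m \ side c z) with hn
  set ℓ' := Function.update ℓ κ n with hℓ'
  have hcnot : ∀ p ∈ P, c ∉ ℓ p := fun p hp h' => hcG (mem_iUnion₂.2 ⟨p, hp, h'⟩)
  have hne : z ≠ c := fun h' => hcnot i hi (h' ▸ hz)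
  have hnew : IsCLine n := (h.line i hi).switch hm (hcnot i hi) hz hzc hcm
  have hκ' : ℓ' κ = n := Function.update_self _ _ _
  have hold : ∀ p ∈ P, ℓ' p = ℓ p := fun p hp =>
    Function.update_of_ne (fun h' : p = κ => hκ (h' ▸ hp)) _ _
  have hGs : (⋃ p ∈ P, ℓ p) ⊆ side c z :=
    subset_side h.pre hcG (mem_iUnion₂.2 ⟨i, hi, hz⟩)
  have hsub : ∀ p ∈ P, ℓ p ⊆ side c z := fun p hp =>
    (subset_iUnion₂ (s := fun p _ => ℓ p) p hp).trans hGs
  have hnp : ∀ p ∈ P, ∀ x ∈ n, x ∈ ℓ p → x ∈ ℓ i ∩ side z c := by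
    rintro p hp x (hx | hx) hxp
    · exact hx
    · exact absurd (hsub p hp hxp) hx.2
  have hgt : ∀ p ∈ P, p ≠ i → (κ < p ↔ i < p) := by
    intro p hp hpi
    have h1 : p ≠ κ := fun h' => hκ (h' ▸ hp)
    constructor
    · intro h2
      exact lt_of_le_of_ne (not_lt.1 fun h3 => not_lt.2 h2.le ((adj p hp hpi).2 h3)) (Ne.symm hpi)
    · intro h2
      exact lt_of_le_of_ne (not_lt.1 fun h3 => not_lt.2 h2.le ((adj p hp hpi).1 h3)) (Ne.symm h1)
  have hle1 : ∀ p ∈ P, p < κ → p ≤ i := by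
    intro p hp h1
    by_cases hpi : p = i
    · exact hpi.le
    · exact ((adj p hp hpi).1 h1).le
  have hle2 : ∀ p ∈ P, κ < p → i ≤ p := by
    intro p hp h1
    by_cases hpi : p = i
    · exact hpi.ge
    · exact ((hgt p hp hpi).1 h1).le
  -- non-separated pairs with one point on the new line
  have hcross : ∀ p ∈ P, ∀ w ∈ ℓ p, ∀ v ∈ n, NonSeparated w v →
      (v ∈ ℓ i) ∨ v = c := by
    rintro p hp w hw v (hv | hv) hwv
    · exact Or.inl hv.1
    · right
      by_contra hvc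
      have h1 : v ∈ side c w :=
        hwv.symm'.mem_side hvc (fun h' => hcnot p hp (h' ▸ hw))
      exact hv.2 (mem_side_trans h1 (hsub p hp hw))
  refine ⟨?_, ?_, ?_, ?_, ?_, ⟨κ, Finset.mem_insert_self _ _⟩⟩
  · intro p hp
    rcases Finset.mem_insert.1 hp with rfl | hp
    · rw [hκ']; exact hnew
    · rw [hold p hp]; exact h.line p hp
  · intro p hp q hq r hr hpq hqr
    rcases Finset.mem_insert.1 hp with hpκ | hpP <;>
    rcases Finset.mem_insert.1 hq with hqκ | hqP <;>
    rcases Finset.mem_insert.1 hr with hrκ | hrP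
    · subst hpκ; subst hqκ; exact inter_subset_left
    · subst hpκ; subst hqκ; exact inter_subset_left
    · subst hpκ; subst hrκ
      exact absurd hqP (le_antisymm hqr hpq ▸ hκ)
    · subst hpκ
      rw [hκ', hold q hqP, hold r hrP]
      rintro x ⟨hx, hx'⟩
      have hqκ : p < q := lt_of_le_of_ne hpq (fun h' => hκ (h' ▸ hqP))
      exact h.conv i hi q hqP r hrP (hle2 q hqP hqκ) hqr ⟨(hnp r hrP x hx hx').1, hx'⟩
    · subst hqκ; subst hrκ; exact inter_subset_right
    · subst hqκ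
      rw [hκ', hold p hpP, hold r hrP]
      rintro x ⟨hx, hx'⟩
      have h1 : p < q := lt_of_le_of_ne hpq (fun h' => hκ (h' ▸ hpP))
      have h2 : q < r := lt_of_le_of_ne hqr (fun h' => hκ (h' ▸ hrP))
      have hxi : x ∈ ℓ i := h.conv p hpP i hi r hrP (hle1 p hpP h1) (hle2 r hrP h2) ⟨hx, hx'⟩
      left
      refine ⟨hxi, ?_⟩
      rcases lt_trichotomy i q with h3 | h3 | h3
      · exact ok r hrP (Or.inl ⟨h3, h2⟩) ⟨hxi, hx'⟩
      · exact absurd (h3 ▸ hi) hκ
      · exact ok p hpP (Or.inr ⟨h1, h3⟩) ⟨hxi, hx⟩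
    · subst hrκ
      rw [hκ', hold q hqP, hold p hpP]
      rintro x ⟨hx, hx'⟩
      have hqκ : q < r := lt_of_le_of_ne hqr (fun h' => hκ (h' ▸ hqP))
      exact h.conv p hpP q hqP i hi hpq (hle1 q hqP hqκ) ⟨hx, (hnp p hpP x hx' hx).1⟩
    · rw [hold p hpP, hold q hqP, hold r hrP]
      exact h.conv p hpP q hqP r hrP hpq hqr
  · intro p hp q hq w hw v hv hwv hns hR
    rcases Finset.mem_insert.1 hp with hpκ | hpP <;>
    rcases Finset.mem_insert.1 hq with hqκ | hqP
    · subst hpκ; subst hqκ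
      rw [hκ'] at hw hv
      exact absurd (hnew.sep w hw v hv hns) hwv
    · subst hpκ
      rw [hκ'] at hw
      rw [hold q hqP] at hv
      rcases hcross q hqP v hv w hw hns.symm' with h1 | h1
      · have h2 := h.typR i hi q hqP w h1 v hv hwv hns hR
        exact (hgt q hqP h2.ne').2 h2
      · subst h1
        exact dL q hqP v hv hns.symm' (Or.inr hR)
    · subst hqκ
      rw [hκ'] at hv
      rw [hold p hpP] at hw
      rcases hcross p hpP w hw v hv hns with h1 | h1
      · have h2 := h.typR p hpP i hi w hw v h1 hwv hns hR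
        exact (adj p hpP h2.ne).2 h2
      · subst h1
        exact dR p hpP w hw hns (Or.inl hR)
    · rw [hold p hpP] at hw
      rw [hold q hqP] at hv
      exact h.typR p hpP q hqP w hw v hv hwv hns hR
  · intro p hp q hq w hw v hv hwv hns hR
    rcases Finset.mem_insert.1 hp with hpκ | hpP <;>
    rcases Finset.mem_insert.1 hq with hqκ | hqP
    · subst hpκ; subst hqκ
      rw [hκ'] at hw hv
      exact absurd (hnew.sep w hw v hv hns) hwv
    · subst hpκ
      rw [hκ'] at hw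
      rw [hold q hqP] at hv
      rcases hcross q hqP v hv w hw hns.symm' with h1 | h1
      · have h2 := h.typL i hi q hqP w h1 v hv hwv hns hR
        exact (adj q hqP h2.ne).2 h2
      · subst h1
        exact dR q hqP v hv hns.symm' (Or.inr hR)
    · subst hqκ
      rw [hκ'] at hv
      rw [hold p hpP] at hw
      rcases hcross p hpP w hw v hv hns with h1 | h1
      · have h2 := h.typL p hpP i hi w hw v h1 hwv hns hR
        exact (hgt p hpP h2.ne').2 h2
      · subst h1
        exact dL p hpP w hw hns (Or.inl hR)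
    · rw [hold p hpP] at hw
      rw [hold q hqP] at hv
      exact h.typL p hpP q hqP w hw v hv hwv hns hR
  · have hU : (⋃ p ∈ Insert.insert κ P, ℓ' p) = (⋃ p ∈ P, ℓ p) ∪ n := by
      rw [Finset.set_biUnion_insert, hκ', union_comm]
      congr 1
      exact iUnion₂_congr hold
    rw [hU]
    have hccl : c ∈ closure (ℓ i) := hzc.mem_closure (h.line i hi).isOpen hz
    have hg : ℓ i ∩ side z c ∈ 𝓝[side c z] c :=
      Filter.inter_mem (germ (h.line i hi).pre (hcnot i hi) hccl hz)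
        (mem_nhdsWithin_of_mem_nhds (isOpen_side.mem_nhds (mem_side (Ne.symm hne))))
    have := neBot_side hne
    obtain ⟨x, hx⟩ := this.nonempty_of_mem hg
    exact IsPreconnected.union x (mem_iUnion₂.2 ⟨i, hi, hx.1⟩) (Or.inl hx) h.pre hnew.pre

end block

end Pool.Agent.H86.Bifol
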