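import Pool.Agent.H86.BifolMain

/-!
# Folded half-spaces of a leaf space and half-spaces of the transverse leaf space
-/

open Set Topology Filter

namespace Pool.Agent.H86.Bifol

/-- A folded half-space of `X`: for two distinct non-separated points `z, z'`, the connected
component of the complement of `z` which contains `z'`. -/
def IsFolded {X : Type*} [TopologicalSpace X] (H : Set X) : Prop :=
  ∃ z z' : X, z ≠ z' ∧ NonSeparated z z' ∧ H = connectedComponentIn {z}ᶜ z'

variable {Λ Λ' : Type*} [TopologicalSpace Λ] [TopologicalSpace Λ']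

/-- A point of a simply connected 1-manifold has at least two sides. -/
theorem exists_other_side (hΛ' : HasCharts Λ') [SimplyConnectedSpace Λ'] (c x : Λ') :
    ∃ y, y ≠ c ∧ y ∉ connectedComponentIn {c}ᶜ x := by
  obtain ⟨e, he, htar⟩ := hΛ' c
  have hmem : ∀ v, e.symm v ∈ e.source := fun v => e.map_target (by rw [htar]; trivial)
  have hinv : ∀ v, e (e.symm v) = v := fun v => e.right_inv (by rw [htar]; trivial)
  have hne : ∀ v, v ≠ e c → e.symm v ≠ c := by
    intro v hv hvc
    exact hv (by rw [← hvc, hinv v])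
  have hab := sides hΛ' he htar (show e c - 1 < e c by linarith) (show e c < e c + 1 by linarith)
  by_cases h : e.symm (e c - 1) ∈ connectedComponentIn {c}ᶜ x
  · refine ⟨e.symm (e c + 1), hne _ (by linarith), fun h' => hab ?_⟩
    rw [← connectedComponentIn_eq h]
    exact h'
  · exact ⟨_, hne _ (by linarith), h⟩

/-- **Main lemma.** For a folded half-space `H` of the leaf space of `F` there is a half-space `K`
of the leaf space of `G` such that all leaves of `F` meeting a leaf in `K` belong to `H`. -/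
theorem exists_halfSpace_of_folded {F G : Foliation} (hFG : Transverse F G) (hΛ : HasCharts Λ)
    (hΛ' : HasCharts Λ') [SimplyConnectedSpace Λ] [SimplyConnectedSpace Λ']
    (L : F.LeafSpace ≃ₜ Λ) (L' : G.LeafSpace ≃ₜ Λ') {H : Set Λ} (hH : IsFolded H) :
    ∃ K : Set Λ', IsHalfSpace K ∧ ∀ p, L' (G.proj p) ∈ K → L (F.proj p) ∈ H := by
  have _ : T1Space Λ := hΛ.t1
  have _ : T1Space Λ' := hΛ'.t1
  have _ : LocallyPathConnectedSpace Λ := hΛ.locPath
  have _ : LocallyPathConnectedSpace Λ' := hΛ'.locPath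
  obtain ⟨z₁, z₂, hz₁₂, hns, rfl⟩ := hH
  set π : ℝ × ℝ → Λ := fun p => L (F.proj p) with hπ
  set π' : ℝ × ℝ → Λ' := fun p => L' (G.proj p) with hπ'
  have hπc : Continuous π := L.continuous.comp F.continuous_proj
  have hπ'c : Continuous π' := L'.continuous.comp G.continuous_proj
  have hπo : IsOpenMap π := L.isOpenMap.comp F.isOpenMap_proj
  have hπs : Function.Surjective π := L.surjective.comp Quotient.mk_surjective
  have hfib : ∀ l, IsPreconnected (π ⁻¹' {l}) := by
    intro l
    have : π ⁻¹' {l} = F.proj ⁻¹' {L.symm l} := by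
      ext p
      simp only [hπ, mem_preimage, mem_singleton_iff]
      exact L.eq_symm_apply.symm
    rw [this]
    exact Foliation.isPreconnected_leaf F _
  have hfib' : ∀ l, IsPreconnected (π' ⁻¹' {l}) := by
    intro l
    have : π' ⁻¹' {l} = G.proj ⁻¹' {L'.symm l} := by
      ext p
      simp only [hπ', mem_preimage, mem_singleton_iff]
      exact L'.eq_symm_apply.symm
    rw [this]
    exact Foliation.isPreconnected_leaf G _
  obtain ⟨q₁, hq₁⟩ := hπs z₁
  obtain ⟨q₂, hq₂⟩ := hπs z₂
  set c := π' q₂ with hc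
  -- a point of `z₁` is not on the leaf `c`
  have hnc : ∀ p, π p = z₁ → π' p ≠ c := by
    intro p hp hpc
    have h1 : F.proj p ≠ F.proj q₂ := by
      intro h
      refine hz₁₂ ?_
      rw [← hp, ← hq₂]
      simp only [hπ, h]
    refine noncross hFG hΛ L h1 ?_ (L'.injective hpc)
    have e1 : L (F.proj p) = z₁ := hp
    have e2 : L (F.proj q₂) = z₂ := hq₂
    rw [e1, e2]
    exact hns
  -- leaves meeting `c` are in `H`
  have hU : π '' (π' ⁻¹' {c}) ⊆ connectedComponentIn {z₁}ᶜ z₂ := by
    have hpre : IsPreconnected (π '' (π' ⁻¹' {c})) := (hfib' c).image _ hπc.continuousOn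
    refine hpre.subset_connectedComponentIn ⟨q₂, rfl, hq₂⟩ ?_
    rintro _ ⟨p, hp, rfl⟩ hpz
    exact hnc p hpz hp
  set C := (connectedComponentIn {z₁}ᶜ z₂)ᶜ with hC
  -- the leaves of `G` meeting leaves in `C` are in one component of the complement of `c`
  have hS : π' '' (π ⁻¹' C) ⊆ connectedComponentIn {c}ᶜ (π' q₁) := by
    have h1 : IsPreconnected C := isPreconnected_compl_component
    have h2 : IsPreconnected (π ⁻¹' C) := isPreconnected_preimage hπo hπs hfib h1
    have h3 : IsPreconnected (π' '' (π ⁻¹' C)) := h2.image _ hπ'c.continuousOn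
    refine h3.subset_connectedComponentIn ⟨q₁, ?_, rfl⟩ ?_
    · rw [mem_preimage, hq₁]
      intro h
      exact (connectedComponentIn_subset _ _ h) rfl
    rintro _ ⟨p, hp, rfl⟩ hpc
    exact hp (hU ⟨p, hpc, rfl⟩)
  obtain ⟨y, hyc, hy⟩ := exists_other_side hΛ' c (π' q₁)
  refine ⟨connectedComponentIn {c}ᶜ y, ⟨c, y, hyc, rfl⟩, ?_⟩
  intro p hp
  by_contra hpH
  have h2 : π' p ∈ connectedComponentIn {c}ᶜ (π' q₁) := hS ⟨p, hpH, rfl⟩
  refine hy ?_
  rw [connectedComponentIn_eq h2, ← connectedComponentIn_eq hp]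
  exact mem_connectedComponentIn hyc

end Pool.Agent.H86.Bifol
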