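import Pool.Agent.H86.Homeo

/-!
# Foliations from maps to a 1-manifold, and the realization theorem
-/

open Set Topology Filter

namespace Pool.Agent.H86.Bifol

set_option linter.unusedSectionVars false
set_option linter.unusedVariables false

/-- The charts whose horizontal segments are level sets of `f`. -/
def LevelChart {Z : Type*} (f : ℝ × ℝ → Z) (φ : OpenPartialHomeomorph (ℝ × ℝ) (ℝ × ℝ)) : Prop :=
  φ.target = Square ∧ ∀ q ∈ φ.source, ∀ r ∈ φ.source, f q = f r ↔ (φ q).2 = (φ r).2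

/-- The foliation by the fibres of a map. -/
def ofMap {Z : Type*} (f : ℝ × ℝ → Z) (hcov : ∀ p, ∃ φ, p ∈ φ.source ∧ LevelChart f φ) :
    Foliation where
  charts := {φ | LevelChart f φ}
  target_eq φ hφ := hφ.1
  cover p := by
    obtain ⟨φ, h1, h2⟩ := hcov p
    exact ⟨φ, h2, h1⟩
  compatible φ hφ ψ hψ p hp := by
    refine ⟨φ.source ∩ ψ.source, (φ.open_source.inter ψ.open_source).mem_nhds hp, ?_⟩
    intro q hq r hr
    exact (hφ.2 q hq.1 r hr.1).symm.trans (hψ.2 q hq.2 r hr.2)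

theorem ofMap_proj_eq {Z : Type*} {f : ℝ × ℝ → Z}
    (hcov : ∀ p, ∃ φ, p ∈ φ.source ∧ LevelChart f φ)
    (hf : ∀ z, IsPreconnected (f ⁻¹' {z})) (p q : ℝ × ℝ) :
    (ofMap f hcov).proj p = (ofMap f hcov).proj q ↔ f p = f q := by
  classical
  constructor
  · intro h
    have h' := (ofMap f hcov).proj_eq_iff.1 h
    clear h
    induction h' with
    | rel _ _ h =>
      obtain ⟨φ, hφ, h1, h2, h3⟩ := h
      exact (hφ.2 _ h1 _ h2).2 h3
    | refl _ => rfl
    | symm _ _ _ ih => exact ih.symm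
    | trans _ _ _ _ _ ih1 ih2 => exact ih1.trans ih2
  · intro h
    have hc : ContinuousOn
        (fun r => decide ((ofMap f hcov).proj r = (ofMap f hcov).proj p)) (f ⁻¹' {f p}) := by
      intro r hr
      obtain ⟨φ, hrφ, hφ⟩ := hcov r
      have h1 : (fun s => decide ((ofMap f hcov).proj s = (ofMap f hcov).proj p))
          =ᶠ[𝓝[f ⁻¹' {f p}] r]
          fun _ => decide ((ofMap f hcov).proj r = (ofMap f hcov).proj p) := by
        filter_upwards [mem_nhdsWithin_of_mem_nhds (φ.open_source.mem_nhds hrφ),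
          self_mem_nhdsWithin] with s hs hs'
        have h2 : f s = f r := hs'.trans hr.symm
        have h3 : (ofMap f hcov).proj s = (ofMap f hcov).proj r :=
          (ofMap f hcov).proj_eq_of_samePlaque ⟨φ, hφ, hs, hrφ, (hφ.2 s hs r hrφ).1 h2⟩
        rw [h3]
      exact continuousWithinAt_const.congr_of_eventuallyEq h1 rfl
    have := (hf (f p)).constant hc (x := p) (y := q) rfl h.symm
    simp only [decide_true] at this
    exact (of_decide_eq_true this.symm).symm

/-- The leaf space of the foliation by the fibres of `f` is the target of `f`. -/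
theorem ofMap_leafSpace {Z : Type*} [TopologicalSpace Z] {f : ℝ × ℝ → Z}
    (hcov : ∀ p, ∃ φ, p ∈ φ.source ∧ LevelChart f φ)
    (hf : ∀ z, IsPreconnected (f ⁻¹' {z})) (hc : Continuous f) (ho : IsOpenMap f)
    (hs : Function.Surjective f) : Nonempty ((ofMap f hcov).LeafSpace ≃ₜ Z) := by
  set F := ofMap f hcov with hF
  have hrel : ∀ p q : ℝ × ℝ, F.leafSetoid p q → f p = f q := by
    intro p q h
    exact (ofMap_proj_eq hcov hf p q).1 (Quotient.sound h)
  let g : F.LeafSpace → Z := Quotient.lift f hrel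
  have hg : ∀ p, g (F.proj p) = f p := fun p => rfl
  have hgc : Continuous g := hc.quotient_lift hrel
  have hgo : IsOpenMap g := by
    intro U hU
    have h1 : g '' U = f '' (F.proj ⁻¹' U) := by
      ext z
      constructor
      · rintro ⟨u, hu, rfl⟩
        induction u using Quotient.inductionOn with
        | h p => exact ⟨p, hu, rfl⟩
      · rintro ⟨p, hp, rfl⟩
        exact ⟨F.proj p, hp, rfl⟩
    rw [h1]
    exact ho _ (hU.preimage F.continuous_proj)
  have hgi : Function.Injective g := by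
    intro u v huv
    induction u using Quotient.inductionOn with
    | h p =>
      induction v using Quotient.inductionOn with
      | h q => exact (ofMap_proj_eq hcov hf p q).2 huv
  have hgs : Function.Surjective g := by
    intro z
    obtain ⟨p, rfl⟩ := hs z
    exact ⟨F.proj p, rfl⟩
  exact ⟨(Equiv.ofBijective g ⟨hgi, hgs⟩).toHomeomorphOfContinuousOpen hgc hgo⟩

variable {X : Type*} [TopologicalSpace X] [SCM X]

/-- A product chart of the plane from a box. -/
theorem exists_plane_box (F : Fam X) (Ψ : ℝ × ℝ ≃ₜ F.Ω) (p : ℝ × ℝ) :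
    ∃ E : OpenPartialHomeomorph (ℝ × ℝ) (ℝ × ℝ), p ∈ E.source ∧ E.target = Square ∧
      (∀ q ∈ E.source, ∀ r ∈ E.source, (Ψ q).1.1 = (Ψ r).1.1 ↔ (E q).2 = (E r).2) ∧
      (∀ q ∈ E.source, ∀ r ∈ E.source, (Ψ q).1.2 = (Ψ r).1.2 ↔ (E q).1 = (E r).1) := by
  obtain ⟨up, hup⟩ := exists_orientation X
  obtain ⟨C, hC1, hC2, hC3⟩ := exists_box F ⟨up, hup⟩ F.isOpen subset_rfl (Ψ p).2
  have hαβ : 0 < C.β - C.α := sub_pos.2 C.hαβ
  have hab : 0 < C.b - C.a := sub_pos.2 C.hab
  have htar := C.pos.tar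
  -- the plane as an open subset of `X × ℝ`
  have hne : Nonempty F.Ω := ⟨Ψ p⟩
  set E₀ : OpenPartialHomeomorph (ℝ × ℝ) (X × ℝ) := Ψ.toOpenPartialHomeomorph.trans
    ((⟨F.Ω, F.isOpen⟩ : TopologicalSpace.Opens (X × ℝ)).openPartialHomeomorphSubtypeCoe hne)
    with hE₀
  have hE₀s : E₀.source = univ := by simp [hE₀]
  have hE₀t : E₀.target = F.Ω := by simp [hE₀]
  have hE₀a : ∀ q, E₀ q = (Ψ q).1 := fun q => rfl
  have hmem : ∀ v ∈ Square, (C.α + C.β + (C.β - C.α) * v.2) / 2 ∈ Ioo C.α C.β ∧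
      (C.a + C.b + (C.b - C.a) * v.1) / 2 ∈ Ioo C.a C.b := by
    rintro ⟨v, w⟩ ⟨⟨h1, h2⟩, h3, h4⟩
    simp only at h1 h2 h3 h4 ⊢
    refine ⟨⟨?_, ?_⟩, ?_, ?_⟩ <;> nlinarith
  set S : Set (ℝ × ℝ) := {q | (Ψ q).1.1 ∈ C.e.symm '' Ioo C.α C.β ∧ (Ψ q).1.2 ∈ Ioo C.a C.b}
    with hS
  have hSo : IsOpen S := by
    have h1 : IsOpen (C.e.symm '' Ioo C.α C.β) := isOpen_symm_image htar isOpen_Ioo
    exact (h1.preimage (by fun_prop : Continuous fun q => (Ψ q).1.1)).inter
      (isOpen_Ioo.preimage (by fun_prop : Continuous fun q => (Ψ q).1.2))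
  have hSe : ∀ q ∈ S, (Ψ q).1.1 ∈ C.e.source ∧ C.e (Ψ q).1.1 ∈ Ioo C.α C.β := by
    rintro q ⟨⟨c, hc, hcq⟩, -⟩
    rw [← hcq, apply_symm htar]
    exact ⟨symm_mem htar c, hc⟩
  let E : OpenPartialHomeomorph (ℝ × ℝ) (ℝ × ℝ) :=
    { toFun := fun q => ((2 * (Ψ q).1.2 - C.a - C.b) / (C.b - C.a),
        (2 * C.e (Ψ q).1.1 - C.α - C.β) / (C.β - C.α))
      invFun := fun v => E₀.symm (C.e.symm ((C.α + C.β + (C.β - C.α) * v.2) / 2),
        (C.a + C.b + (C.b - C.a) * v.1) / 2)
      source := S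
      target := Square
      map_source' := by
        intro q hq
        obtain ⟨h1, h2⟩ := hSe q hq
        have h3 := hq.2
        refine ⟨⟨?_, ?_⟩, ?_, ?_⟩
        · change -1 < (2 * (Ψ q).1.2 - C.a - C.b) / (C.b - C.a)
          rw [lt_div_iff₀ hab]; linarith [h3.1]
        · change (2 * (Ψ q).1.2 - C.a - C.b) / (C.b - C.a) < 1
          rw [div_lt_one hab]; linarith [h3.2]
        · change -1 < (2 * C.e (Ψ q).1.1 - C.α - C.β) / (C.β - C.α)
          rw [lt_div_iff₀ hαβ]; linarith [h2.1]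
        · change (2 * C.e (Ψ q).1.1 - C.α - C.β) / (C.β - C.α) < 1
          rw [div_lt_one hαβ]; linarith [h2.2]
      map_target' := by
        intro v hv
        obtain ⟨h1, h2⟩ := hmem v hv
        have h3 : ((C.e.symm ((C.α + C.β + (C.β - C.α) * v.2) / 2),
            (C.a + C.b + (C.b - C.a) * v.1) / 2) : X × ℝ) ∈ E₀.target := by
          rw [hE₀t]; exact hC3 _ ⟨h1.1.le, h1.2.le⟩ _ h2
        have h4 := E₀.right_inv h3
        rw [hE₀a] at h4
        change (Ψ _).1.1 ∈ _ ∧ (Ψ _).1.2 ∈ _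
        rw [h4]
        exact ⟨⟨_, h1, rfl⟩, h2⟩
      left_inv' := by
        intro q hq
        obtain ⟨h1, h2⟩ := hSe q hq
        have e1 : (C.α + C.β + (C.β - C.α) *
            ((2 * C.e (Ψ q).1.1 - C.α - C.β) / (C.β - C.α))) / 2 = C.e (Ψ q).1.1 := by
          field_simp; ring
        have e2 : (C.a + C.b + (C.b - C.a) *
            ((2 * (Ψ q).1.2 - C.a - C.b) / (C.b - C.a))) / 2 = (Ψ q).1.2 := by
          field_simp; ring
        simp only [e1, e2, C.e.left_inv h1]
        exact E₀.left_inv (hE₀s ▸ mem_univ q : q ∈ E₀.source)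
      right_inv' := by
        intro v hv
        obtain ⟨h1, h2⟩ := hmem v hv
        have h3 : ((C.e.symm ((C.α + C.β + (C.β - C.α) * v.2) / 2),
            (C.a + C.b + (C.b - C.a) * v.1) / 2) : X × ℝ) ∈ E₀.target := by
          rw [hE₀t]; exact hC3 _ ⟨h1.1.le, h1.2.le⟩ _ h2
        have h4 := E₀.right_inv h3
        rw [hE₀a] at h4
        rw [h4]
        simp only [apply_symm htar]
        refine Prod.ext ?_ ?_
        · field_simp; ring
        · field_simp; ring
      open_source := hSo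
      open_target := isOpen_Ioo.prod isOpen_Ioo
      continuousOn_toFun := by
        have h1 : ContinuousOn (fun q => C.e (Ψ q).1.1) S := by
          refine C.e.continuousOn.comp (by fun_prop) ?_
          intro q hq
          exact (hSe q hq).1
        fun_prop
      continuousOn_invFun := by
        refine E₀.continuousOn_symm.comp ?_ ?_
        · have h1 : ContinuousOn C.e.symm univ := htar ▸ C.e.continuousOn_symm
          have h2 : Continuous C.e.symm := continuousOn_univ.1 h1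
          fun_prop
        · intro v hv
          obtain ⟨h1, h2⟩ := hmem v hv
          rw [hE₀t]; exact hC3 _ ⟨h1.1.le, h1.2.le⟩ _ h2 }
  refine ⟨E, ⟨hC1, hC2⟩, rfl, ?_, ?_⟩
  · intro q hq r hr
    change _ ↔ (2 * C.e (Ψ q).1.1 - C.α - C.β) / (C.β - C.α) =
      (2 * C.e (Ψ r).1.1 - C.α - C.β) / (C.β - C.α)
    rw [div_left_inj' hαβ.ne']
    constructor
    · intro h; rw [h]
    · intro h
      exact C.e.injOn (hSe q hq).1 (hSe r hr).1 (by linarith)
  · intro q hq r hr
    change _ ↔ (2 * (Ψ q).1.2 - C.a - C.b) / (C.b - C.a) =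
      (2 * (Ψ r).1.2 - C.a - C.b) / (C.b - C.a)
    rw [div_left_inj' hab.ne']
    constructor
    · intro h; rw [h]
    · intro h; linarith

/-- **Realization.** A family of lines gives transverse foliations with leaf spaces `X` and `ℝ`. -/
theorem realized_of_fam (F : Fam X) [SecondCountableTopology X] : Realized X ℝ := by
  obtain ⟨Ψ, A, C, hAC, hΨ⟩ := exists_homeo F
  have hρ : Function.Injective (ρ A C) := (isOpenEmbedding_ρ hAC).injective
  have hfst : ∀ q r : ℝ × ℝ, (Ψ q).1.2 = (Ψ r).1.2 ↔ q.1 = r.1 := by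
    intro q r
    rw [hΨ, hΨ]
    exact hρ.eq_iff
  set f : ℝ × ℝ → X := fun q => (Ψ q).1.1 with hf
  set g : ℝ × ℝ → ℝ := fun q => q.1 with hg
  have hcf : ∀ p, ∃ φ, p ∈ φ.source ∧ LevelChart f φ := by
    intro p
    obtain ⟨E, h1, h2, h3, h4⟩ := exists_plane_box F Ψ p
    exact ⟨E, h1, h2, h3⟩
  have hcg : ∀ p, ∃ φ, p ∈ φ.source ∧ LevelChart g φ := by
    intro p
    obtain ⟨E, h1, h2, h3, h4⟩ := exists_plane_box F Ψ p
    refine ⟨swapChart E, by rwa [swapChart_source], swapChart_target E h2, ?_⟩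
    intro q hq r hr
    rw [swapChart_source] at hq hr
    exact (hfst q r).symm.trans (h4 q hq r hr)
  refine ⟨ofMap f hcf, ofMap g hcg, ?_, ?_, ?_⟩
  · intro p
    obtain ⟨E, h1, h2, h3, h4⟩ := exists_plane_box F Ψ p
    refine ⟨E, h1, h2, ?_, ?_⟩
    · intro φ hφ q hq
      refine ⟨E.source ∩ φ.source, (E.open_source.inter φ.open_source).mem_nhds hq, ?_⟩
      intro r hr s hs
      exact (h3 r hr.1 s hs.1).symm.trans (hφ.2 r hr.2 s hs.2)
    · intro φ hφ q hq
      refine ⟨E.source ∩ φ.source, (E.open_source.inter φ.open_source).mem_nhds hq, ?_⟩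
      intro r hr s hs
      exact ((h4 r hr.1 s hs.1).symm.trans (hfst r s)).trans (hφ.2 r hr.2 s hs.2)
  · refine ofMap_leafSpace hcf ?_ (by fun_prop) ?_ ?_
    · intro l
      have h1 : f ⁻¹' {l} = Ψ ⁻¹' {p : F.Ω | p.1.1 = l} := rfl
      rw [h1, Ψ.isPreconnected_preimage]
      exact isPreconnected_fibre F l
    · exact (isOpenMap_fst.comp F.isOpen.isOpenMap_subtype_val).comp Ψ.isOpenMap
    · intro l
      obtain ⟨x, hx⟩ := F.ne l
      exact ⟨Ψ.symm ⟨(l, x), hx⟩, by simp [hf]⟩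
  · refine ofMap_leafSpace hcg ?_ continuous_fst isOpenMap_fst Prod.fst_surjective
    intro c
    have h1 : g ⁻¹' {c} = range (fun t : ℝ => (c, t)) := by
      ext ⟨a, b⟩
      constructor
      · intro h
        have h' : a = c := h
        exact ⟨b, by rw [h']⟩
      · rintro ⟨t, ht⟩
        have := congrArg Prod.fst ht
        exact this.symm
    rw [h1]
    exact isPreconnected_range (by fun_prop)

end Pool.Agent.H86.Bifol
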