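import Pool.Agent.H86.Orient

/-!
# The order on a line
-/

open Set Topology Filter

namespace Pool.Agent.H86.Bifol

set_option linter.unusedSectionVars false
set_option linter.unusedVariables false

variable {X : Type*} [TopologicalSpace X]

/-- A line is a Hausdorff space. -/
theorem IsLine.t2 {ℓ : Set X} (h : IsLine ℓ) : T2Space ℓ := by
  refine ⟨fun x y hxy => ?_⟩
  by_contra hcon
  apply hxy
  refine Subtype.ext (h.sep x x.2 y y.2 ?_)
  intro U V hU hV hx hy
  by_contra hUV
  rw [Set.not_nonempty_iff_eq_empty] at hUV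
  apply hcon
  refine ⟨Subtype.val ⁻¹' U, Subtype.val ⁻¹' V, hU.preimage continuous_subtype_val,
    hV.preimage continuous_subtype_val, hx, hy, ?_⟩
  rw [Set.disjoint_left]
  intro z hz hz'
  have : (z : X) ∈ U ∩ V := ⟨hz, hz'⟩
  rw [hUV] at this
  exact this

/-- Compact subsets of a line are relatively closed. -/
theorem IsLine.isOpen_diff {ℓ K : Set X} (h : IsLine ℓ) (hK : IsCompact K) (hKℓ : K ⊆ ℓ) :
    IsOpen (ℓ \ K) := by
  have := h.t2
  have hK' : IsCompact (Subtype.val ⁻¹' K : Set ℓ) := by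
    rw [Subtype.isCompact_iff, Subtype.image_preimage_coe, inter_eq_self_of_subset_right hKℓ]
    exact hK
  have hc : IsOpen (Subtype.val ⁻¹' K : Set ℓ)ᶜ := hK'.isClosed.isOpen_compl
  have h1 := h.isOpen.isOpenMap_subtype_val _ hc
  have h2 : Subtype.val '' (Subtype.val ⁻¹' K : Set ℓ)ᶜ = ℓ \ K := by
    ext x
    constructor
    · rintro ⟨y, hy, rfl⟩
      exact ⟨y.2, hy⟩
    · rintro ⟨hx, hx'⟩
      exact ⟨⟨x, hx⟩, hx', rfl⟩
  rwa [h2] at h1

variable [SCM X]

/-- The part of a line between two points of a chart segment is the segment. -/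
theorem IsLine.segment {ℓ : Set X} (h : IsLine ℓ) {e : OpenPartialHomeomorph X ℝ}
    (ht : e.target = univ) {α β : ℝ} (hαβ : α < β) (hsub : e.symm '' Icc α β ⊆ ℓ) {x : X}
    (hx : x ∈ ℓ) : x ∈ e.symm '' Icc α β ∨ x ∈ dnS e (e.symm α) ∨ x ∈ upS e (e.symm β) := by
  by_contra hcon
  push Not at hcon
  obtain ⟨h1, h2, h3⟩ := hcon
  set pα := e.symm α with hpα
  set pβ := e.symm β with hpβ
  have hα : pα ∈ e.source := symm_mem ht α
  have hβ : pβ ∈ e.source := symm_mem ht β
  have hxα : x ≠ pα := fun h' => h1 ⟨α, left_mem_Icc.2 hαβ.le, h'.symm⟩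
  have hxβ : x ≠ pβ := fun h' => h1 ⟨β, right_mem_Icc.2 hαβ.le, h'.symm⟩
  have hxup : x ∈ upS e pα := (mem_upS_or_dnS hα ht hxα).resolve_right h2
  have hxdn : x ∈ dnS e pβ := (mem_upS_or_dnS hβ ht hxβ).resolve_left h3
  set V := (ℓ ∩ upS e pα) ∩ dnS e pβ with hV
  have hVpre : IsPreconnected V := by
    refine isPreconnected_inter (isPreconnected_inter h.pre h.isOpen isPreconnected_side
      isOpen_side) (h.isOpen.inter isOpen_side) isPreconnected_side isOpen_side
  have hseg : e.symm '' Ioo α β ⊆ V := by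
    rintro _ ⟨c, hc, rfl⟩
    refine ⟨⟨hsub ⟨c, ⟨hc.1.le, hc.2.le⟩, rfl⟩, ?_⟩, ?_⟩
    · exact symm_mem_upS hα ht (by rw [hpα, apply_symm ht]; exact hc.1)
    · exact symm_mem_dnS hβ ht (by rw [hpβ, apply_symm ht]; exact hc.2)
  have hK : IsCompact (e.symm '' Icc α β) := by
    refine isCompact_Icc.image_of_continuousOn (e.continuousOn_symm.mono ?_)
    rw [ht]; exact subset_univ _
  have hcover : V ⊆ e.symm '' Ioo α β ∪ (ℓ \ e.symm '' Icc α β) := by
    intro y hy
    by_cases hyK : y ∈ e.symm '' Icc α β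
    · left
      obtain ⟨c, hc, rfl⟩ := hyK
      refine ⟨c, ⟨lt_of_le_of_ne hc.1 ?_, lt_of_le_of_ne hc.2 ?_⟩, rfl⟩
      · rintro rfl; exact self_notMem_side hy.1.2
      · rintro rfl; exact self_notMem_side hy.2
    · exact Or.inr ⟨hy.1.1, hyK⟩
  obtain ⟨c, hc1, hc2⟩ := exists_between hαβ
  have hpc : e.symm c ∈ e.symm '' Ioo α β := ⟨c, ⟨hc1, hc2⟩, rfl⟩
  obtain ⟨y, -, hy1, hy2⟩ := hVpre _ _ (isOpen_symm_image ht isOpen_Ioo)
    (h.isOpen_diff hK hsub) hcover ⟨_, hseg hpc, hpc⟩ ⟨x, ⟨⟨hx, hxup⟩, hxdn⟩, hx, h1⟩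
  exact hy2.2 (image_mono Ioo_subset_Icc_self hy1)

/-- Nested upper sides in a chart. -/
theorem upS_subset {e : OpenPartialHomeomorph X ℝ} (ht : e.target = univ) {x y : X}
    (hx : x ∈ e.source) (hy : y ∈ e.source) (hxy : e x ≤ e y) : upS e y ⊆ upS e x := by
  rcases hxy.eq_or_lt with h | h
  · rw [e.injOn hx hy h]
  · refine side_subset_side ?_ ((mem_upS_iff hx ht hy).2 h) ?_
    · exact symm_ne ht (by linarith)
    · intro h1
      have := (mem_upS_iff hy ht hx).1 h1
      linarith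

theorem dnS_subset {e : OpenPartialHomeomorph X ℝ} (ht : e.target = univ) {x y : X}
    (hx : x ∈ e.source) (hy : y ∈ e.source) (hxy : e x ≤ e y) : dnS e x ⊆ dnS e y := by
  rcases hxy.eq_or_lt with h | h
  · rw [e.injOn hx hy h]
  · refine side_subset_side ?_ ((mem_dnS_iff hy ht hx).2 h) ?_
    · exact symm_ne ht (by linarith)
    · intro h1
      have := (mem_dnS_iff hx ht hy).1 h1
      linarith

/-- An orientation. -/
structure Orientation (X : Type*) [TopologicalSpace X] where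
  /-- the upper side -/
  up : X → Set X
  exists_pos : ∀ x, ∃ e : OpenPartialHomeomorph X ℝ, x ∈ e.source ∧ e.target = univ ∧
    ∀ y ∈ e.source, up y = upS e y

/-- Positive charts. -/
structure Orientation.Pos (o : Orientation X) (e : OpenPartialHomeomorph X ℝ) : Prop where
  tar : e.target = univ
  up_eq : ∀ y ∈ e.source, o.up y = upS e y

/-- The lower side. -/
def Orientation.dn (o : Orientation X) (x : X) : Set X := (insert x (o.up x))ᶜ

variable {o : Orientation X}

theorem Orientation.exists_chart (o : Orientation X) (x : X) :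
    ∃ e : OpenPartialHomeomorph X ℝ, x ∈ e.source ∧ o.Pos e := by
  obtain ⟨e, h1, h2, h3⟩ := o.exists_pos x
  exact ⟨e, h1, h2, h3⟩

theorem Orientation.Pos.dn_eq {e : OpenPartialHomeomorph X ℝ} (h : o.Pos e) {y : X}
    (hy : y ∈ e.source) : o.dn y = dnS e y := by
  rw [Orientation.dn, h.up_eq y hy]
  ext z
  simp only [mem_compl_iff, mem_insert_iff, not_or]
  constructor
  · rintro ⟨h1, h2⟩
    exact (mem_upS_or_dnS hy h.tar h1).resolve_left h2
  · intro h1
    exact ⟨ne_of_mem_side h1, fun h2 => Set.disjoint_left.1 (disjoint_upS_dnS hy h.tar) h2 h1⟩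

theorem Orientation.up_or_dn (o : Orientation X) {x y : X} (h : y ≠ x) :
    y ∈ o.up x ∨ y ∈ o.dn x := by
  by_cases h' : y ∈ o.up x
  · exact Or.inl h'
  · exact Or.inr (by simp [Orientation.dn, h, h'])

theorem Orientation.up_not_dn (o : Orientation X) {x y : X} (h : y ∈ o.up x) : y ∉ o.dn x := by
  simp [Orientation.dn, h]

theorem Orientation.self_up (o : Orientation X) (x : X) : x ∉ o.up x := by
  obtain ⟨e, he, hp⟩ := o.exists_chart x
  rw [hp.up_eq x he]
  exact self_notMem_side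

theorem Orientation.isOpen_up (o : Orientation X) (x : X) : IsOpen (o.up x) := by
  obtain ⟨e, he, hp⟩ := o.exists_chart x
  rw [hp.up_eq x he]
  exact isOpen_side

theorem Orientation.isOpen_dn (o : Orientation X) (x : X) : IsOpen (o.dn x) := by
  obtain ⟨e, he, hp⟩ := o.exists_chart x
  rw [hp.dn_eq he]
  exact isOpen_side

theorem Orientation.pre_up (o : Orientation X) (x : X) : IsPreconnected (o.up x) := by
  obtain ⟨e, he, hp⟩ := o.exists_chart x
  rw [hp.up_eq x he]
  exact isPreconnected_side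

theorem Orientation.pre_dn (o : Orientation X) (x : X) : IsPreconnected (o.dn x) := by
  obtain ⟨e, he, hp⟩ := o.exists_chart x
  rw [hp.dn_eq he]
  exact isPreconnected_side

theorem Orientation.up_eq_side (o : Orientation X) {x y : X} (h : y ∈ o.up x) :
    o.up x = side x y := by
  obtain ⟨e, he, hp⟩ := o.exists_chart x
  rw [hp.up_eq x he] at h ⊢
  exact upS_eq_of_mem h

theorem Orientation.dn_eq_side (o : Orientation X) {x y : X} (h : y ∈ o.dn x) :
    o.dn x = side x y := by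
  obtain ⟨e, he, hp⟩ := o.exists_chart x
  rw [hp.dn_eq he] at h ⊢
  exact dnS_eq_of_mem h

/-- A positive chart segment around a point of an open set. -/
theorem exists_segment {e : OpenPartialHomeomorph X ℝ} (ht : e.target = univ) {x : X}
    (hx : x ∈ e.source) {V : Set X} (hV : V ∈ 𝓝 x) :
    ∃ α β, α < e x ∧ e x < β ∧ e.symm '' Icc α β ⊆ V := by
  have hV' : e.symm ⁻¹' V ∈ 𝓝 (e x) := by
    have := e.continuousAt_symm (e.map_source hx)
    rw [ContinuousAt, e.left_inv hx] at this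
    exact this hV
  obtain ⟨a, b, hab, hab'⟩ := mem_nhds_iff_exists_Ioo_subset.1 hV'
  obtain ⟨α, hα1, hα2⟩ := exists_between hab.1
  obtain ⟨β, hβ1, hβ2⟩ := exists_between hab.2
  refine ⟨α, β, hα2, hβ1, ?_⟩
  rintro _ ⟨c, hc, rfl⟩
  exact hab' ⟨lt_of_lt_of_le hα1 hc.1, lt_of_le_of_lt hc.2 hβ2⟩

/-- **Order on a line.** For two points of a line, `y` is above `x` if and only if `x` is
below `y`. -/
theorem IsLine.mem_up_iff {ℓ : Set X} (h : IsLine ℓ) (o : Orientation X) {x y : X} (hx : x ∈ ℓ)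
    (hy : y ∈ ℓ) : y ∈ o.up x ↔ x ∈ o.dn y := by
  classical
  -- local constancy of the position of `x` along the line
  have hloc : ∀ z ∈ ℓ, z ≠ x → ∀ᶠ w in 𝓝 z, (x ∈ o.dn w ↔ x ∈ o.dn z) := by
    intro z hz hzx
    obtain ⟨e, hze, hp⟩ := o.exists_chart z
    obtain ⟨α, β, h1, h2, hsub⟩ := exists_segment hp.tar hze
      ((h.isOpen.inter isOpen_compl_singleton).mem_nhds ⟨hz, hzx⟩)
    have hsubℓ : e.symm '' Icc α β ⊆ ℓ := hsub.trans inter_subset_left
    have hxK : x ∉ e.symm '' Icc α β := fun h' => (hsub h').2 rfl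
    have hαs : e.symm α ∈ e.source := symm_mem hp.tar α
    have hβs : e.symm β ∈ e.source := symm_mem hp.tar β
    have key : ∀ᶠ w in 𝓝 z, w ∈ e.source ∧ e w ∈ Ioo α β := by
      filter_upwards [e.open_source.mem_nhds hze,
        (e.continuousAt hze) (Ioo_mem_nhds h1 h2)] with y h1 h2
      exact ⟨h1, h2⟩
    rcases (h.segment hp.tar (h1.trans h2) hsubℓ hx).resolve_left hxK with h3 | h3
    · have main : ∀ w ∈ e.source, e w ∈ Ioo α β → x ∈ o.dn w := by
        intro w hw hwI
        rw [hp.dn_eq hw]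
        exact dnS_subset hp.tar hαs hw (by rw [apply_symm hp.tar]; exact hwI.1.le) h3
      filter_upwards [key] with w hw
      simp only [main w hw.1 hw.2, main z hze ⟨h1, h2⟩]
    · have main : ∀ w ∈ e.source, e w ∈ Ioo α β → x ∉ o.dn w := by
        intro w hw hwI
        apply o.up_not_dn
        rw [hp.up_eq w hw]
        exact upS_subset hp.tar hw hβs (by rw [apply_symm hp.tar]; exact hwI.2.le) h3
      filter_upwards [key] with w hw
      simp only [main w hw.1 hw.2, main z hze ⟨h1, h2⟩]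
  -- constancy on connected sets
  have hconst : ∀ A : Set X, IsPreconnected A → A ⊆ ℓ → x ∉ A → ∀ z ∈ A, ∀ w ∈ A,
      (x ∈ o.dn z ↔ x ∈ o.dn w) := by
    intro A hA hAℓ hxA z hz w hw
    have hc : ContinuousOn (fun z => decide (x ∈ o.dn z)) A := by
      intro z hz
      apply ContinuousAt.continuousWithinAt
      have h1 : (fun w => decide (x ∈ o.dn w)) =ᶠ[𝓝 z] fun _ => decide (x ∈ o.dn z) := by
        filter_upwards [hloc z (hAℓ hz) (fun h' => hxA (h' ▸ hz))] with w hw
        simp only [hw]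
      exact continuousAt_const.congr h1.symm
    have := hA.constant hc hz hw
    simpa using this
  obtain ⟨e, hxe, hp⟩ := o.exists_chart x
  obtain ⟨α, β, h1, h2, hsub⟩ := exists_segment hp.tar hxe (h.isOpen.mem_nhds hx)
  constructor
  · intro hyup
    have hβs : e.symm β ∈ e.source := symm_mem hp.tar β
    have hβup : e.symm β ∈ o.up x := by
      rw [hp.up_eq x hxe]; exact symm_mem_upS hxe hp.tar h2
    have hβℓ : e.symm β ∈ ℓ := hsub ⟨β, right_mem_Icc.2 (h1.trans h2).le, rfl⟩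
    refine (hconst (ℓ ∩ o.up x) (isPreconnected_inter h.pre h.isOpen (o.pre_up x) (o.isOpen_up x))
      inter_subset_left (fun h' => o.self_up x h'.2) y ⟨hy, hyup⟩ _ ⟨hβℓ, hβup⟩).2 ?_
    rw [hp.dn_eq hβs, mem_dnS_iff hβs hp.tar hxe, apply_symm hp.tar]
    exact h2
  · intro hxdn
    by_contra hyup
    have hxy : y ≠ x := by
      rintro rfl
      simp [Orientation.dn] at hxdn
    have hydn : y ∈ o.dn x := (o.up_or_dn hxy).resolve_left hyup
    have hαs : e.symm α ∈ e.source := symm_mem hp.tar α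
    have hαdn : e.symm α ∈ o.dn x := by
      rw [hp.dn_eq hxe]; exact symm_mem_dnS hxe hp.tar h1
    have hαℓ : e.symm α ∈ ℓ := hsub ⟨α, left_mem_Icc.2 (h1.trans h2).le, rfl⟩
    have h3 := (hconst (ℓ ∩ o.dn x) (isPreconnected_inter h.pre h.isOpen (o.pre_dn x)
      (o.isOpen_dn x)) inter_subset_left (fun h' => by simp [Orientation.dn] at h') y ⟨hy, hydn⟩ _
      ⟨hαℓ, hαdn⟩).1 hxdn
    rw [hp.dn_eq hαs, mem_dnS_iff hαs hp.tar hxe, apply_symm hp.tar] at h3
    linarith

end Pool.Agent.H86.Bifol
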