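import Pool.Agent.H86.Side

/-!
# Lines in a simply connected 1-manifold
-/

open Set Topology Filter

namespace Pool.Agent.H86.Bifol

set_option linter.unusedSectionVars false
set_option linter.unusedVariables false

variable {X : Type*} [TopologicalSpace X]

/-- A line: an open connected nonempty Hausdorff subset. -/
structure IsLine (ℓ : Set X) : Prop where
  isOpen : IsOpen ℓ
  pre : IsPreconnected ℓ
  nonempty : ℓ.Nonempty
  sep : ∀ x ∈ ℓ, ∀ y ∈ ℓ, NonSeparated x y → x = y

/-- A line is complete if every boundary point is not separated from a point of the line. -/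
def IsComplete' (ℓ : Set X) : Prop :=
  ∀ d ∈ closure ℓ, d ∉ ℓ → ∃ z ∈ ℓ, NonSeparated z d

/-- A complete line. -/
structure IsCLine (ℓ : Set X) : Prop extends IsLine ℓ where
  complete : ∀ d ∈ closure ℓ, d ∉ ℓ → ∃ z ∈ ℓ, NonSeparated z d

variable [SCM X]

theorem isLine_source {e : OpenPartialHomeomorph X ℝ} (htar : e.target = univ) :
    IsLine e.source where
  isOpen := e.open_source
  pre := isPreconnected_source htar
  nonempty := ⟨_, symm_mem htar 0⟩
  sep x hx y hy h := by
    by_contra hne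
    exact h.notMem_source hne hx hy

/-- Every line is contained in a maximal line. -/
theorem exists_maximal_line {ℓ : Set X} (h : IsLine ℓ) :
    ∃ m, ℓ ⊆ m ∧ IsLine m ∧ ∀ m', IsLine m' → m ⊆ m' → m' = m := by
  obtain ⟨m, hm, hmax⟩ := zorn_subset_nonempty {s : Set X | IsLine s} (by
    intro c hc hchain hne
    refine ⟨⋃₀ c, ⟨isOpen_sUnion fun s hs => (hc hs).isOpen, ?_, ?_, ?_⟩,
      fun s hs => subset_sUnion_of_mem hs⟩
    · refine isPreconnected_of_forall_pair ?_
      rintro x ⟨s, hs, hxs⟩ y ⟨t, ht, hyt⟩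
      rcases hchain.total hs ht with h | h
      · exact ⟨t, subset_sUnion_of_mem ht, h hxs, hyt, (hc ht).pre⟩
      · exact ⟨s, subset_sUnion_of_mem hs, hxs, h hyt, (hc hs).pre⟩
    · obtain ⟨s, hs⟩ := hne
      obtain ⟨x, hx⟩ := (hc hs).nonempty
      exact ⟨x, s, hs, hx⟩
    · rintro x ⟨s, hs, hxs⟩ y ⟨t, ht, hyt⟩ hxy
      rcases hchain.total hs ht with h | h
      · exact (hc ht).sep x (h hxs) y hyt hxy
      · exact (hc hs).sep x hxs y (h hyt) hxy) ℓ h
  refine ⟨m, hm, hmax.prop, fun m' hm' hle => ?_⟩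
  exact (hmax.eq_of_subset hm' hle).symm

/-- A maximal line is complete. -/
theorem complete_of_maximal {m : Set X} (hm : IsLine m)
    (hmax : ∀ m', IsLine m' → m ⊆ m' → m' = m) : IsCLine m := by
  refine ⟨hm, fun d hd hdm => ?_⟩
  by_contra hno
  push Not at hno
  obtain ⟨g, hg⟩ := hm.nonempty
  obtain ⟨e, hde, htar⟩ := exists_chart d
  have hgd : g ≠ d := fun h => hdm (h ▸ hg)
  have hmsub : m ⊆ side d g := subset_side hm.pre hdm hg
  have hgerm : m ∈ 𝓝[side d g] d := germ hm.pre hdm hd hg
  obtain ⟨o, ho, hdo, hom⟩ := mem_nhdsWithin.1 hgerm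
  -- an interval around `d` contained in `o`
  have hV' : e.symm ⁻¹' (o ∩ e.source) ∈ 𝓝 (e d) := by
    have := e.continuousAt_symm (e.map_source hde)
    rw [ContinuousAt, e.left_inv hde] at this
    exact this (Filter.inter_mem (ho.mem_nhds hdo) (e.open_source.mem_nhds hde))
  obtain ⟨a, b, hab, hab'⟩ := mem_nhds_iff_exists_Ioo_subset.1 hV'
  set N := e.symm '' Ioo a b with hN
  have hNo : IsOpen N := isOpen_symm_image htar isOpen_Ioo
  have hdN : d ∈ N := ⟨e d, hab, e.left_inv hde⟩
  have hNe : N ⊆ o ∩ e.source := by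
    rintro _ ⟨c, hc, rfl⟩
    exact hab' hc
  have hNpre : IsPreconnected N := isPreconnected_symm_image htar isPreconnected_Ioo
  have hmeet : (m ∩ N).Nonempty := by
    have := mem_closure_iff.1 hd N hNo hdN
    rwa [inter_comm] at this
  have hsep : ∀ x ∈ m, ∀ y ∈ N, NonSeparated x y → x = y := by
    intro x hx y hy hxy
    by_cases hyd : y = d
    · subst hyd; exact absurd hxy (hno x hx)
    by_cases hys : y ∈ side d g
    · exact hm.sep x hx y (hom ⟨(hNe hy).1, hys⟩) hxy
    · exfalso
      have h1 : x ∈ side d y := hxy.mem_side (ne_of_mem_side (hmsub hx)) hyd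
      exact hys (mem_side_trans (mem_side_symm h1) (hmsub hx))
  have hline : IsLine (m ∪ N) := by
    refine ⟨hm.isOpen.union hNo, ?_, hm.nonempty.mono subset_union_left, ?_⟩
    · obtain ⟨x, hx1, hx2⟩ := hmeet
      exact hm.pre.union x hx1 hx2 hNpre
    · rintro x (hx | hx) y (hy | hy) hxy
      · exact hm.sep x hx y hy hxy
      · exact hsep x hx y hy hxy
      · exact (hsep y hy x hx hxy.symm').symm
      · exact (isLine_source htar).sep x (hNe hx).2 y (hNe hy).2 hxy
  have := hmax _ hline subset_union_left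
  exact hdm (this ▸ Or.inr hdN)

theorem exists_cline_source {e : OpenPartialHomeomorph X ℝ} (htar : e.target = univ) :
    ∃ m, e.source ⊆ m ∧ IsCLine m := by
  obtain ⟨m, h1, h2, h3⟩ := exists_maximal_line (isLine_source htar)
  exact ⟨m, h1, complete_of_maximal h2 h3⟩

/-- In a line there is at most one point on the side of `c` which is not separated from `c`. -/
theorem IsLine.unique {ℓ : Set X} (h : IsLine ℓ) {c x y : X} (hcl : c ∉ ℓ) (hx : x ∈ ℓ)
    (hy : y ∈ ℓ) (hxc : NonSeparated x c) (hyc : NonSeparated y c) : x = y := by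
  have hxc' : x ≠ c := fun h' => hcl (h' ▸ hx)
  exact h.sep x hx y hy (hxc.trans_side hyc hxc' (subset_side h.pre hcl hy hx))

/-- **Switching lines.** Let `ℓ` be a complete line with `c ∈ closure ℓ \ ℓ`, `z ∈ ℓ` not
separated from `c`, and let `m` be a complete line through `c`. The part of `ℓ` before `z`
followed by the part of `m` from `c` on is a complete line. -/
theorem IsCLine.switch {ℓ m : Set X} (hℓ : IsCLine ℓ) (hm : IsCLine m) {c z : X} (hc : c ∉ ℓ)
    (hz : z ∈ ℓ) (hzc : NonSeparated z c) (hcm : c ∈ m) :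
    IsCLine ((ℓ ∩ side z c) ∪ (m \ side c z)) := by
  have hne : z ≠ c := fun h => hc (h ▸ hz)
  have hccl : c ∈ closure ℓ := hzc.mem_closure hℓ.isOpen hz
  have hℓsub : ℓ ⊆ side c z := subset_side hℓ.pre hc hz
  have hcs : c ∈ side z c := mem_side (Ne.symm hne)
  have hgerm : ℓ ∩ side z c ∈ 𝓝[side c z] c :=
    Filter.inter_mem (germ hℓ.pre hc hccl hz) (mem_nhdsWithin_of_mem_nhds
      (isOpen_side.mem_nhds hcs))
  have hpre1 : IsPreconnected (ℓ ∩ side z c) :=
    isPreconnected_inter hℓ.pre hℓ.isOpen isPreconnected_side isOpen_side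
  -- the part of `m` on the other side
  obtain ⟨w, hwc, hw⟩ := exists_other c z
  have hoth : ∀ x, x ≠ c → x ∉ side c z → x ∈ side c w := fun x hx hx' =>
    mem_side_of_notMem hx hwc hne hx' hw
  have hdisj : Disjoint (side c w) (side c z) := disjoint_side hw
  have hm2 : m \ side c z = insert c (m ∩ side c w) := by
    ext x
    constructor
    · rintro ⟨hx, hx'⟩
      by_cases hxc : x = c
      · exact Or.inl hxc
      · exact Or.inr ⟨hx, hoth x hxc hx'⟩
    · rintro (rfl | ⟨hx, hx'⟩)
      · exact ⟨hcm, self_notMem_side⟩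
      · exact ⟨hx, fun h => Set.disjoint_left.1 hdisj hx' h⟩
  have hcclw : c ∈ closure (m ∩ side c w) := by
    rw [mem_closure_iff]
    intro o ho hco
    obtain ⟨x, hx, hx'⟩ := mem_closure_iff.1 (mem_closure_side hwc) _ (ho.inter hm.isOpen)
      ⟨hco, hcm⟩
    exact ⟨x, hx.1, hx.2, hx'⟩
  have hpre2 : IsPreconnected (m \ side c z) := by
    rw [hm2]
    refine (isPreconnected_inter hm.pre hm.isOpen isPreconnected_side isOpen_side).subset_closure
      (subset_insert _ _) ?_
    exact insert_subset hcclw subset_closure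
  have hopen : IsOpen ((ℓ ∩ side z c) ∪ (m \ side c z)) := by
    rw [hm2, isOpen_iff_mem_nhds]
    rintro x (hx | rfl | hx)
    · exact Filter.mem_of_superset ((hℓ.isOpen.inter isOpen_side).mem_nhds hx)
        subset_union_left
    · -- at `c`
      obtain ⟨o, ho, hco, hoℓ⟩ := mem_nhdsWithin.1 hgerm
      refine Filter.mem_of_superset ((ho.inter hm.isOpen).mem_nhds ⟨hco, hcm⟩) ?_
      rintro y ⟨hyo, hym⟩
      by_cases hys : y ∈ side x z
      · exact Or.inl (hoℓ ⟨hyo, hys⟩)
      · by_cases hyx : y = x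
        · exact Or.inr (Or.inl hyx)
        · exact Or.inr (Or.inr ⟨hym, hoth y hyx hys⟩)
    · exact Filter.mem_of_superset ((hm.isOpen.inter isOpen_side).mem_nhds hx)
        ((subset_insert _ _).trans subset_union_right)
  -- a point of `ℓ` and a point of `m` behind `c`
  have hcross : ∀ x ∈ ℓ ∩ side z c, ∀ y ∈ m \ side c z, ¬ NonSeparated x y := by
    rintro x ⟨hxℓ, hxs⟩ y ⟨hym, hys⟩ hxy
    by_cases hyc : y = c
    · subst hyc
      exact ne_of_mem_side hxs (hℓ.toIsLine.unique hc hxℓ hz hxy hzc)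
    · have h1 : y ∈ side c x := hxy.symm'.mem_side hyc (ne_of_mem_side (hℓsub hxℓ))
      exact hys (mem_side_trans h1 (hℓsub hxℓ))
  refine ⟨⟨hopen, ?_, ⟨c, Or.inr ⟨hcm, self_notMem_side⟩⟩, ?_⟩, ?_⟩
  · have h1 : IsPreconnected (insert c (ℓ ∩ side z c)) := by
      refine hpre1.subset_closure (subset_insert _ _) ?_
      refine insert_subset ?_ subset_closure
      have := neBot_side hne
      exact mem_closure_iff_nhdsWithin_neBot.2 (this.mono (by
        rw [nhdsWithin, nhdsWithin, le_inf_iff]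
        exact ⟨inf_le_left, le_principal_iff.2 hgerm⟩))
    have h2 : (ℓ ∩ side z c) ∪ (m \ side c z) = insert c (ℓ ∩ side z c) ∪ (m \ side c z) := by
      have h3 : c ∈ (ℓ ∩ side z c) ∪ (m \ side c z) := Or.inr ⟨hcm, self_notMem_side⟩
      rw [insert_union, insert_eq_of_mem h3]
    rw [h2]
    exact IsPreconnected.union c (mem_insert _ _)
      (show c ∈ m \ side c z from ⟨hcm, self_notMem_side⟩) h1 hpre2
  · rintro x (hx | hx) y (hy | hy) hxy
    · exact hℓ.sep x hx.1 y hy.1 hxy
    · exact absurd hxy (hcross x hx y hy)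
    · exact absurd hxy.symm' (hcross y hy x hx)
    · exact hm.sep x hx.1 y hy.1 hxy
  · intro d hd hdn
    rw [closure_union] at hd
    rcases hd with hd | hd
    · by_cases hdz : d = z
      · subst hdz
        exact ⟨c, Or.inr ⟨hcm, self_notMem_side⟩, hzc.symm'⟩
      have hds : d ∈ side z c := by
        rcases closure_side_subset (closure_mono inter_subset_right hd) with h | h
        · exact absurd h hdz
        · exact h
      have hdℓ : d ∉ ℓ := fun h => hdn (Or.inl ⟨h, hds⟩)
      obtain ⟨v, hv, hvd⟩ := hℓ.complete d (closure_mono inter_subset_left hd) hdℓ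
      by_cases hvz : v = z
      · subst hvz
        refine ⟨c, Or.inr ⟨hcm, self_notMem_side⟩, ?_⟩
        exact hzc.symm'.trans_side hvd.symm' (Ne.symm hne) (mem_side_symm hds)
      · exact ⟨v, Or.inl ⟨hv, mem_side_trans (hvd.mem_side hvz hdz) hds⟩, hvd⟩
    · have hds : d ∉ side c z := by
        intro hds
        obtain ⟨x, hx, hx'⟩ := mem_closure_iff.1 hd _ isOpen_side hds
        exact hx'.2 hx
      have hdm : d ∉ m := fun h => hdn (Or.inr ⟨h, hds⟩)
      obtain ⟨v, hv, hvd⟩ := hm.complete d (closure_mono sdiff_subset hd) hdm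
      refine ⟨v, Or.inr ⟨hv, fun hvs => ?_⟩, hvd⟩
      have hdc : d ≠ c := fun h => hdm (h ▸ hcm)
      exact hds (mem_side_trans (hvd.symm'.mem_side hdc (ne_of_mem_side hvs)) hvs)

end Pool.Agent.H86.Bifol
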