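import Pool.Agent.H86.LineOrder

/-!
# A total space of a family of lines is a plane
-/

open Set Topology Filter

namespace Pool.Agent.H86.Bifol

set_option linter.unusedSectionVars false
set_option linter.unusedVariables false

variable {X : Type*} [TopologicalSpace X]

/-- A family of open subsets `U x`, `-1 < x < 1`, of `X`, each a line or empty. -/
structure Fam (X : Type*) [TopologicalSpace X] where
  /-- the line at `x` -/
  U : ℝ → Set X
  isOpen : IsOpen {p : X × ℝ | p.1 ∈ U p.2}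
  ordC : ∀ l, OrdConnected {x | l ∈ U x}
  ne : ∀ l, ∃ x, l ∈ U x
  pre : ∀ x, IsPreconnected (U x)
  sep : ∀ x, ∀ l ∈ U x, ∀ k ∈ U x, NonSeparated l k → l = k
  bdd : ∀ x, (U x).Nonempty → x ∈ Ioo (-1 : ℝ) 1

theorem Fam.isOpen_U (F : Fam X) (x : ℝ) : IsOpen (F.U x) := by
  have : F.U x = (fun l : X => (l, x)) ⁻¹' {p : X × ℝ | p.1 ∈ F.U p.2} := rfl
  rw [this]
  exact F.isOpen.preimage (by fun_prop)

theorem Fam.isLine (F : Fam X) {x : ℝ} {l : X} (h : l ∈ F.U x) : IsLine (F.U x) :=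
  ⟨F.isOpen_U x, F.pre x, ⟨l, h⟩, F.sep x⟩

variable [SCM X]

/-- Transitivity of the order on a line. -/
theorem IsLine.up_trans {ℓ : Set X} (h : IsLine ℓ) (o : Orientation X) {x y z : X} (hx : x ∈ ℓ)
    (hy : y ∈ ℓ) (hz : z ∈ ℓ) (hxy : y ∈ o.up x) (hyz : z ∈ o.up y) : z ∈ o.up x := by
  by_contra hcon
  have h1 : x ∈ o.dn y := (h.mem_up_iff o hx hy).1 hxy
  have hzx : z ≠ x := by
    rintro rfl
    exact o.up_not_dn hyz h1
  have hzdn : z ∈ o.dn x := (o.up_or_dn hzx).resolve_left hcon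
  have hxup : x ∈ o.up z := (h.mem_up_iff o hz hx).2 hzdn
  have hydn : y ∈ o.dn z := (h.mem_up_iff o hy hz).1 hyz
  have hA : IsPreconnected (insert x (o.up x)) := by
    rw [o.up_eq_side hxy]
    exact isPreconnected_insert_component (by rintro rfl; exact o.self_up _ hxy)
  have hzA : z ∉ insert x (o.up x) := by
    rintro (h2 | h2)
    · exact hzx h2
    · exact hcon h2
  have h3 : x ∈ side z y := subset_side hA hzA (mem_insert_of_mem _ hxy) (mem_insert _ _)
  rw [← o.dn_eq_side hydn] at h3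
  exact o.up_not_dn hxup h3

/-- A box: a chart segment contained in the lines `U x` for all `x` in an interval. -/
structure Box (F : Fam X) (o : Orientation X) where
  /-- chart -/
  e : OpenPartialHomeomorph X ℝ
  pos : o.Pos e
  /-- lower end of the segment -/
  α : ℝ
  /-- upper end of the segment -/
  β : ℝ
  /-- left end of the interval -/
  a : ℝ
  /-- right end of the interval -/
  b : ℝ
  hαβ : α < β
  hab : a < b
  sub : ∀ x ∈ Ioo a b, e.symm '' Icc α β ⊆ F.U x

/-- Clamped affine function. -/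
noncomputable def clamp (α β s : ℝ) : ℝ := max (-1) (min 1 ((2 * s - α - β) / (β - α)))

theorem clamp_le (α β s : ℝ) : clamp α β s ≤ 1 := max_le (by norm_num) (min_le_left _ _)

theorem le_clamp (α β s : ℝ) : -1 ≤ clamp α β s := le_max_left _ _

theorem continuous_clamp (α β : ℝ) : Continuous (clamp α β) := by
  unfold clamp; fun_prop

theorem clamp_mono {α β s t : ℝ} (h : α < β) (hst : s ≤ t) : clamp α β s ≤ clamp α β t := by
  unfold clamp
  have : (2 * s - α - β) / (β - α) ≤ (2 * t - α - β) / (β - α) :=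
    div_le_div_of_nonneg_right (by linarith) (by linarith)
  exact max_le_max le_rfl (min_le_min le_rfl this)

theorem clamp_of_ge {α β s : ℝ} (h : α < β) (hs : β ≤ s) : clamp α β s = 1 := by
  unfold clamp
  have : 1 ≤ (2 * s - α - β) / (β - α) := by
    rw [le_div_iff₀ (by linarith)]; linarith
  rw [min_eq_left this]
  norm_num

theorem clamp_of_le {α β s : ℝ} (h : α < β) (hs : s ≤ α) : clamp α β s = -1 := by
  unfold clamp
  have : (2 * s - α - β) / (β - α) ≤ -1 := by
    rw [div_le_iff₀ (by linarith)]; linarith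
  rw [min_eq_right (by linarith), max_eq_left this]

theorem clamp_of_mem {α β s : ℝ} (h : α < β) (hs : s ∈ Ioo α β) :
    clamp α β s = (2 * s - α - β) / (β - α) := by
  unfold clamp
  have h1 : (2 * s - α - β) / (β - α) ≤ 1 := by
    rw [div_le_iff₀ (by linarith)]; linarith [hs.2]
  have h2 : -1 ≤ (2 * s - α - β) / (β - α) := by
    rw [le_div_iff₀ (by linarith)]; linarith [hs.1]
  rw [min_eq_right h1, max_eq_right h2]

theorem clamp_lt_one {α β s : ℝ} (h : α < β) (hs : s ∈ Ioo α β) : clamp α β s < 1 := by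
  rw [clamp_of_mem h hs, div_lt_one (by linarith)]; linarith [hs.2]

theorem neg_one_lt_clamp {α β s : ℝ} (h : α < β) (hs : s ∈ Ioo α β) : -1 < clamp α β s := by
  rw [clamp_of_mem h hs, lt_div_iff₀ (by linarith)]; linarith [hs.1]

theorem clamp_lt_clamp {α β s t : ℝ} (h : α < β) (hs : s ∈ Ioo α β) (hst : s < t) :
    clamp α β s < clamp α β t := by
  rcases lt_or_ge t β with h1 | h1
  · rw [clamp_of_mem h hs, clamp_of_mem h ⟨hs.1.trans hst, h1⟩]
    exact div_lt_div_of_pos_right (by linarith) (by linarith)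
  · rw [clamp_of_ge h h1]
    exact clamp_lt_one h hs

namespace Box

variable {F : Fam X} {o : Orientation X} (B : Box F o)

open Classical in
/-- The coordinate function of a box. -/
noncomputable def θ (l : X) : ℝ :=
  if l ∈ o.up (B.e.symm B.β) then 1 else if l ∈ o.dn (B.e.symm B.α) then -1
  else clamp B.α B.β (B.e l)

theorem θ_le (l : X) : B.θ l ≤ 1 := by
  unfold θ
  split_ifs
  · exact le_rfl
  · norm_num
  · exact clamp_le _ _ _

theorem le_θ (l : X) : -1 ≤ B.θ l := by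
  unfold θ
  split_ifs
  · norm_num
  · exact le_rfl
  · exact le_clamp _ _ _

theorem α_mem : B.e.symm B.α ∈ B.e.source := symm_mem B.pos.tar _

theorem β_mem : B.e.symm B.β ∈ B.e.source := symm_mem B.pos.tar _

theorem up_β : o.up (B.e.symm B.β) = upS B.e (B.e.symm B.β) := B.pos.up_eq _ B.β_mem

theorem dn_α : o.dn (B.e.symm B.α) = dnS B.e (B.e.symm B.α) := B.pos.dn_eq B.α_mem

theorem θ_of_mem {l : X} (hl : l ∈ B.e.source) : B.θ l = clamp B.α B.β (B.e l) := by
  unfold θ
  rw [B.up_β, B.dn_α, mem_upS_iff B.β_mem B.pos.tar hl, mem_dnS_iff B.α_mem B.pos.tar hl,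
    apply_symm B.pos.tar, apply_symm B.pos.tar]
  split_ifs with h1 h2
  · exact (clamp_of_ge B.hαβ h1.le).symm
  · exact (clamp_of_le B.hαβ h2.le).symm
  · rfl

theorem θ_symm (c : ℝ) : B.θ (B.e.symm c) = clamp B.α B.β c := by
  rw [B.θ_of_mem (symm_mem B.pos.tar c), apply_symm B.pos.tar]

theorem θ_of_up {l : X} (hl : l ∈ upS B.e (B.e.symm B.β)) : B.θ l = 1 := by
  unfold θ
  rw [B.up_β, if_pos hl]

theorem θ_of_dn {l : X} (hl : l ∈ dnS B.e (B.e.symm B.α)) : B.θ l = -1 := by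
  unfold θ
  rw [B.up_β, B.dn_α, if_neg, if_pos hl]
  intro h
  have h1 : l ∈ upS B.e (B.e.symm B.α) := by
    refine upS_subset B.pos.tar B.α_mem B.β_mem ?_ h
    rw [apply_symm B.pos.tar, apply_symm B.pos.tar]
    exact B.hαβ.le
  exact Set.disjoint_left.1 (disjoint_upS_dnS B.α_mem B.pos.tar) h1 hl

variable {B}

theorem segment {x : ℝ} (hx : x ∈ Ioo B.a B.b) {l : X} (hl : l ∈ F.U x) :
    l ∈ B.e.symm '' Icc B.α B.β ∨ l ∈ dnS B.e (B.e.symm B.α) ∨ l ∈ upS B.e (B.e.symm B.β) :=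
  (F.isLine hl).segment B.pos.tar B.hαβ (B.sub x hx) hl

theorem continuousAt_θ {x : ℝ} (hx : x ∈ Ioo B.a B.b) {l : X} (hl : l ∈ F.U x) :
    ContinuousAt B.θ l := by
  rcases B.segment hx hl with h | h | h
  · obtain ⟨c, hc, rfl⟩ := h
    have hs : B.e.symm c ∈ B.e.source := symm_mem B.pos.tar c
    have h1 : B.θ =ᶠ[𝓝 (B.e.symm c)] fun l => clamp B.α B.β (B.e l) := by
      filter_upwards [B.e.open_source.mem_nhds hs] with l hl
      exact B.θ_of_mem hl
    refine ContinuousAt.congr ?_ h1.symm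
    exact (continuous_clamp _ _).continuousAt.comp (B.e.continuousAt hs)
  · have h1 : B.θ =ᶠ[𝓝 l] fun l => -1 := by
      filter_upwards [isOpen_side.mem_nhds h] with l hl
      exact B.θ_of_dn hl
    exact continuousAt_const.congr h1.symm
  · have h1 : B.θ =ᶠ[𝓝 l] fun l => 1 := by
      filter_upwards [isOpen_side.mem_nhds h] with l hl
      exact B.θ_of_up hl
    exact continuousAt_const.congr h1.symm

theorem θ_mono {x : ℝ} (hx : x ∈ Ioo B.a B.b) {l k : X} (hl : l ∈ F.U x) (hk : k ∈ F.U x)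
    (hlk : k ∈ o.up l) : B.θ l ≤ B.θ k := by
  rcases B.segment hx hl with h | h | h
  · obtain ⟨c, hc, rfl⟩ := h
    have hcs : B.e.symm c ∈ B.e.source := symm_mem B.pos.tar c
    rw [B.pos.up_eq _ hcs] at hlk
    rcases B.segment hx hk with h' | h' | h'
    · obtain ⟨d, hd, rfl⟩ := h'
      rw [mem_upS_iff hcs B.pos.tar (symm_mem B.pos.tar d), apply_symm B.pos.tar,
        apply_symm B.pos.tar] at hlk
      rw [B.θ_symm, B.θ_symm]
      exact clamp_mono B.hαβ hlk.le
    · exfalso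
      have h1 : k ∈ dnS B.e (B.e.symm c) := by
        refine dnS_subset B.pos.tar B.α_mem hcs ?_ h'
        rw [apply_symm B.pos.tar, apply_symm B.pos.tar]
        exact hc.1
      exact Set.disjoint_left.1 (disjoint_upS_dnS hcs B.pos.tar) hlk h1
    · rw [B.θ_of_up h']
      exact B.θ_le _
  · rw [B.θ_of_dn h]
    exact B.le_θ _
  · rw [← B.up_β] at h
    have hβ : B.e.symm B.β ∈ F.U x := B.sub x hx ⟨B.β, right_mem_Icc.2 B.hαβ.le, rfl⟩
    have := (F.isLine hl).up_trans o hβ hl hk h hlk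
    rw [B.up_β] at this
    rw [B.θ_of_up this]
    exact B.θ_le _

theorem θ_lt {x : ℝ} (hx : x ∈ Ioo B.a B.b) {l k : X} (hl : l ∈ B.e.symm '' Ioo B.α B.β)
    (hk : k ∈ F.U x) (hlk : k ∈ o.up l) : B.θ l < B.θ k := by
  obtain ⟨c, hc, rfl⟩ := hl
  have hcs : B.e.symm c ∈ B.e.source := symm_mem B.pos.tar c
  rw [B.pos.up_eq _ hcs] at hlk
  rcases B.segment hx hk with h' | h' | h'
  · obtain ⟨d, hd, rfl⟩ := h'
    rw [mem_upS_iff hcs B.pos.tar (symm_mem B.pos.tar d), apply_symm B.pos.tar,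
      apply_symm B.pos.tar] at hlk
    rw [B.θ_symm, B.θ_symm]
    exact clamp_lt_clamp B.hαβ hc hlk
  · exfalso
    have h1 : k ∈ dnS B.e (B.e.symm c) := by
      refine dnS_subset B.pos.tar B.α_mem hcs ?_ h'
      rw [apply_symm B.pos.tar, apply_symm B.pos.tar]
      exact hc.1.le
    exact Set.disjoint_left.1 (disjoint_upS_dnS hcs B.pos.tar) hlk h1
  · rw [B.θ_of_up h', B.θ_symm]
    exact clamp_lt_one B.hαβ hc

theorem θ_β : B.θ (B.e.symm B.β) = 1 := by
  rw [B.θ_symm, clamp_of_ge B.hαβ le_rfl]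

theorem θ_α : B.θ (B.e.symm B.α) = -1 := by
  rw [B.θ_symm, clamp_of_le B.hαβ le_rfl]

theorem β_mem_U {x : ℝ} (hx : x ∈ Ioo B.a B.b) : B.e.symm B.β ∈ F.U x :=
  B.sub x hx ⟨B.β, right_mem_Icc.2 B.hαβ.le, rfl⟩

theorem α_mem_U {x : ℝ} (hx : x ∈ Ioo B.a B.b) : B.e.symm B.α ∈ F.U x :=
  B.sub x hx ⟨B.α, left_mem_Icc.2 B.hαβ.le, rfl⟩

variable (B) in
/-- The bump function of a box. -/
noncomputable def χ (x : ℝ) : ℝ := max 0 (min 1 ((x - B.a) * (B.b - x)))

theorem continuous_χ : Continuous B.χ := by unfold χ; fun_prop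

theorem χ_nonneg (x : ℝ) : 0 ≤ B.χ x := le_max_left _ _

theorem χ_le (x : ℝ) : B.χ x ≤ 1 := max_le zero_le_one (min_le_left _ _)

theorem χ_pos {x : ℝ} (hx : x ∈ Ioo B.a B.b) : 0 < B.χ x := by
  unfold χ
  refine lt_max_of_lt_right (lt_min one_pos (mul_pos ?_ ?_))
  · linarith [hx.1]
  · linarith [hx.2]

theorem mem_of_χ_ne {x : ℝ} (hx : B.χ x ≠ 0) : x ∈ Ioo B.a B.b := by
  have hab := B.hab
  by_contra h
  apply hx
  unfold χ
  have h1 : (x - B.a) * (B.b - x) ≤ 0 := by
    rw [mem_Ioo, not_and_or, not_lt, not_lt] at h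
    rcases h with h | h
    · exact mul_nonpos_of_nonpos_of_nonneg (by linarith) (by linarith)
    · exact mul_nonpos_of_nonneg_of_nonpos (by linarith) (by linarith)
  rw [min_eq_right (h1.trans zero_le_one), max_eq_left h1]

end Box

end Pool.Agent.H86.Bifol
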