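import Mathlib

/-!
# Simply connected (possibly non-Hausdorff) 1-manifolds: the two sides of a point

Basic facts used for `MP_a3f59c_gt`.
-/

open Set Topology Filter

namespace Pool.Agent.H86

/-- Every point has a chart onto the real line. -/
def HasCharts (X : Type*) [TopologicalSpace X] : Prop :=
  ∀ x : X, ∃ e : OpenPartialHomeomorph X ℝ, x ∈ e.source ∧ e.target = univ

variable {X : Type*} [TopologicalSpace X]

theorem HasCharts.t1 (h : HasCharts X) : T1Space X := by
  rw [t1Space_iff_exists_open]
  intro x y hxy
  obtain ⟨e, hx, ht⟩ := h x
  by_cases hy : y ∈ e.source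
  · have hne : e x ≠ e y := fun h => hxy (e.injOn hx hy h)
    refine ⟨e.source ∩ e ⁻¹' {e y}ᶜ, e.isOpen_inter_preimage isOpen_compl_singleton, ⟨hx, hne⟩, ?_⟩
    rintro ⟨-, h2⟩
    exact h2 rfl
  · exact ⟨e.source, e.open_source, hx, hy⟩

theorem HasCharts.locPath (h : HasCharts X) : LocallyPathConnectedSpace X := by
  choose e he _ using h
  let _ : ChartedSpace ℝ X :=
    { atlas := univ
      chartAt := e
      mem_chart_source := he
      chart_mem_atlas := fun _ => mem_univ _ }
  exact ChartedSpace.locallyPathConnectedSpace ℝ X

section cover

variable (t : X) (e : OpenPartialHomeomorph X ℝ)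

open Classical in
/-- The jump of the double cover at a point. -/
noncomputable def jump (x : X) : Bool := decide (e t < e x)

/-- The double cover of `X` with a twist at `t`. -/
noncomputable def twist (ht : t ∈ e.source) (h1 : IsClosed ({t} : Set X)) :
    FiberBundleCore Bool X Bool where
  baseSet b := if b then e.source else {t}ᶜ
  isOpen_baseSet b := by
    cases b
    · simpa using h1
    · simpa using e.open_source
  indexAt x := open Classical in if x = t then true else false
  mem_baseSet_at x := by
    by_cases h : x = t
    · simp [h, ht]
    · simp [h]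
  coordChange i j x v := if i = j then v else xor v (jump t e x)
  coordChange_self i x _ v := by simp
  continuousOn_coordChange i j := by
    by_cases hij : i = j
    · simp only [hij, if_true]
      exact continuous_snd.continuousOn
    · simp only [hij, if_false]
      have hU : (if i then e.source else {t}ᶜ) ∩ (if j then e.source else {t}ᶜ)
          = e.source ∩ {t}ᶜ := by
        cases i <;> cases j <;> simp_all [inter_comm]
      rw [hU]
      have hop : IsOpen (e.source ∩ {t}ᶜ : Set X) := e.open_source.inter h1.isOpen_compl
      rintro ⟨x, v⟩ ⟨⟨hx, hxt⟩, -⟩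
      apply ContinuousAt.continuousWithinAt
      have hne : e x ≠ e t := fun h => hxt (e.injOn hx ht h)
      have hc : ContinuousAt e x := e.continuousAt hx
      have hev : ∀ᶠ y in 𝓝 x, jump t e y = jump t e x := by
        rcases lt_or_gt_of_ne hne with h | h
        · filter_upwards [hc.eventually (gt_mem_nhds h)] with y hy
          simp [jump, not_lt.2 hy.le, not_lt.2 h.le]
        · filter_upwards [hc.eventually (lt_mem_nhds h)] with y hy
          have hy' : e t < e y := hy
          simp [jump, hy', h]
      have hev2 : (fun p : X × Bool => xor p.2 (jump t e p.1)) =ᶠ[𝓝 (x, v)]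
          fun p => xor p.2 (jump t e x) := by
        have := hev.prod_inl_nhds v
        filter_upwards [this] with p hp
        rw [hp]
      refine ContinuousAt.congr ?_ hev2.symm
      have : Continuous (fun b : Bool => xor b (jump t e x)) := continuous_of_discreteTopology
      exact (this.comp continuous_snd).continuousAt
  coordChange_comp i j k x hx v := by
    cases i <;> cases j <;> cases k <;> simp

/-- **The two sides of a point** of a simply connected 1-manifold lie in different components of
the complement of the point. -/
theorem sides (h : HasCharts X) [SimplyConnectedSpace X] {t : X} {e : OpenPartialHomeomorph X ℝ}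
    (ht : t ∈ e.source) (htar : e.target = univ) {a b : ℝ} (ha : a < e t) (hb : e t < b) :
    e.symm b ∉ connectedComponentIn {t}ᶜ (e.symm a) := by
  intro hmem
  have _ : T1Space X := h.t1
  have _ : LocallyPathConnectedSpace X := h.locPath
  have h1 : IsClosed ({t} : Set X) := isClosed_singleton
  set Z := twist t e ht h1 with hZ
  have cov : IsCoveringMap Z.proj := FiberBundle.isCoveringMap (F := Bool) (E := Z.Fiber)
  obtain ⟨s, ⟨-, hs⟩, -⟩ := cov.existsUnique_continuousMap_lifts (ContinuousMap.id X) t
    (⟨t, true⟩ : Z.TotalSpace) rfl
  have hproj : ∀ x, (s x).proj = x := fun x => congrFun hs x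
  -- the coordinate of the section in the trivialization `i`
  have hcont : ∀ i, ContinuousOn (fun x => ((Z.localTriv i) (s x)).2) (Z.baseSet i) := by
    intro i
    refine continuous_snd.comp_continuousOn
      ((Z.localTriv i).toOpenPartialHomeomorph.continuousOn.comp s.continuous.continuousOn ?_)
    intro x hx
    have : x ∈ (Z.localTriv i).baseSet := hx
    change s x ∈ (Z.localTriv i).source
    rw [FiberBundleCore.mem_localTriv_source, hproj]
    exact this
  have hmemT : ∀ c, e.symm c ∈ e.source := fun c => e.map_target (by rw [htar]; trivial)
  have hsym : ∀ c, e (e.symm c) = c := fun c => e.right_inv (by rw [htar]; trivial)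
  have hne : ∀ c, c ≠ e t → e.symm c ≠ t := by
    intro c hc hct
    exact hc (by rw [← hct, hsym])
  -- in the trivialization `false`
  have hA : ((Z.localTriv false) (s (e.symm a))).2 = ((Z.localTriv false) (s (e.symm b))).2 := by
    have hpre : IsPreconnected (connectedComponentIn {t}ᶜ (e.symm a)) :=
      isPreconnected_connectedComponentIn
    refine hpre.constant (f := fun x => ((Z.localTriv false) (s x)).2)
      ((hcont false).mono ?_) (mem_connectedComponentIn (hne a ha.ne)) hmem
    exact connectedComponentIn_subset _ _
  have hB : ((Z.localTriv true) (s (e.symm a))).2 = ((Z.localTriv true) (s (e.symm b))).2 := by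
    have hpre : IsPreconnected e.source := by
      rw [← e.symm_image_target_eq_source, htar]
      refine isPreconnected_univ.image _ ?_
      rw [← htar]
      exact e.continuousOn_symm
    exact hpre.constant (f := fun x => ((Z.localTriv true) (s x)).2)
      (hcont true) (hmemT a) (hmemT b)
  have hidx : ∀ c, c ≠ e t → Z.indexAt (e.symm c) = false := by
    intro c hc
    simp [hZ, twist, hne c hc]
  have key : ∀ c, c ≠ e t → ((Z.localTriv true) (s (e.symm c))).2 =
      xor ((Z.localTriv false) (s (e.symm c))).2 (decide (e t < c)) := by
    intro c hc
    rw [FiberBundleCore.localTriv_apply, FiberBundleCore.localTriv_apply]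
    simp only [hproj]
    rw [hidx c hc]
    simp [hZ, twist, jump, hsym]
  rw [key a ha.ne, key b hb.ne', hA] at hB
  simp [not_lt.2 ha.le, hb] at hB

end cover

end Pool.Agent.H86
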