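import Pool.Agent.H86.Lines

/-!
# Orientation of a simply connected 1-manifold and the order on lines
-/

open Set Topology Filter

namespace Pool.Agent.H86.Bifol

set_option linter.unusedSectionVars false
set_option linter.unusedVariables false

variable {X : Type*} [TopologicalSpace X]

/-- Charts onto the real line. -/
abbrev Ch (X : Type*) [TopologicalSpace X] := {e : OpenPartialHomeomorph X ℝ // e.target = univ}

/-- The opposite chart. -/
noncomputable def negC (e : OpenPartialHomeomorph X ℝ) : OpenPartialHomeomorph X ℝ :=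
  e.trans (Homeomorph.neg ℝ).toOpenPartialHomeomorph

theorem negC_source (e : OpenPartialHomeomorph X ℝ) : (negC e).source = e.source := by
  simp [negC]

theorem negC_target {e : OpenPartialHomeomorph X ℝ} (h : e.target = univ) :
    (negC e).target = univ := by
  simp [negC, h]

theorem negC_apply (e : OpenPartialHomeomorph X ℝ) (x : X) : negC e x = - e x := rfl

theorem negC_symm_apply (e : OpenPartialHomeomorph X ℝ) (c : ℝ) :
    (negC e).symm c = e.symm (-c) := rfl

variable [SCM X]

theorem upS_negC (e : OpenPartialHomeomorph X ℝ) (x : X) : upS (negC e) x = dnS e x := by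
  rw [upS, dnS, negC_apply, negC_symm_apply]
  congr 2
  ring

theorem dnS_negC (e : OpenPartialHomeomorph X ℝ) (x : X) : dnS (negC e) x = upS e x := by
  rw [upS, dnS, negC_apply, negC_symm_apply]
  congr 2
  ring

theorem upS_eq_of_mem {e : OpenPartialHomeomorph X ℝ} {x y : X} (h : y ∈ upS e x) :
    upS e x = side x y := side_eq h

theorem dnS_eq_of_mem {e : OpenPartialHomeomorph X ℝ} {x y : X} (h : y ∈ dnS e x) :
    dnS e x = side x y := side_eq h

/-- The upper sides of two charts agree or are opposite. -/
theorem upS_eq_or {e e' : OpenPartialHomeomorph X ℝ} {x : X} (hx : x ∈ e.source)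
    (ht : e.target = univ) (hx' : x ∈ e'.source) (ht' : e'.target = univ) :
    upS e' x = upS e x ∨ upS e' x = dnS e x := by
  have h1 : e'.symm (e' x + 1) ∈ upS e' x := symm_mem_upS hx' ht' (by linarith)
  rcases mem_upS_or_dnS hx ht (ne_of_mem_side h1) with h | h
  · left; rw [upS_eq_of_mem h, upS_eq_of_mem h1]
  · right; rw [dnS_eq_of_mem h, upS_eq_of_mem h1]

theorem upS_ne_dnS {e : OpenPartialHomeomorph X ℝ} {x : X} (hx : x ∈ e.source)
    (ht : e.target = univ) : upS e x ≠ dnS e x := by
  intro h
  have h1 : e.symm (e x + 1) ∈ upS e x := symm_mem_upS hx ht (by linarith)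
  exact Set.disjoint_left.1 (disjoint_upS_dnS hx ht) h1 (h ▸ h1)

theorem eventually_same {e e' : OpenPartialHomeomorph X ℝ} {x : X} (hx : x ∈ e.source)
    (ht : e.target = univ) (hx' : x ∈ e'.source) (ht' : e'.target = univ) :
    ∀ᶠ y in 𝓝 x, (upS e y = upS e' y ↔ upS e x = upS e' x) := by
  -- a closed interval around `x` in both charts
  have hV' : e.symm ⁻¹' e'.source ∈ 𝓝 (e x) := by
    have := e.continuousAt_symm (e.map_source hx)
    rw [ContinuousAt, e.left_inv hx] at this
    exact this (e'.open_source.mem_nhds hx')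
  obtain ⟨a, b, hab, hab'⟩ := mem_nhds_iff_exists_Ioo_subset.1 hV'
  obtain ⟨α, hα1, hα2⟩ := exists_between hab.1
  obtain ⟨β, hβ1, hβ2⟩ := exists_between hab.2
  have hsub : ∀ c ∈ Icc α β, e.symm c ∈ e'.source := fun c hc =>
    hab' ⟨lt_of_lt_of_le hα1 hc.1, lt_of_le_of_lt hc.2 hβ2⟩
  have hcont : ContinuousOn (fun c => e' (e.symm c)) (Icc α β) := by
    refine e'.continuousOn.comp (e.continuousOn_symm.mono ?_) hsub
    rw [ht]; exact subset_univ _
  have hinj : InjOn (fun c => e' (e.symm c)) (Icc α β) := by
    intro c hc d hd hcd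
    have := e'.injOn (hsub c hc) (hsub d hd) hcd
    have h2 := congrArg e this
    rwa [apply_symm ht, apply_symm ht] at h2
  have hβm : β ∈ Icc α β := right_mem_Icc.2 (hα2.trans hβ1).le
  have hxm : e x ∈ Icc α β := ⟨hα2.le, hβ1.le⟩
  have hex : e.symm (e x) = x := e.left_inv hx
  have key : ∀ᶠ y in 𝓝 x, y ∈ e.source ∧ e y ∈ Ioo α β := by
    filter_upwards [e.open_source.mem_nhds hx,
      (e.continuousAt hx) (Ioo_mem_nhds hα2 hβ1)] with y h1 h2
    exact ⟨h1, h2⟩
  rcases hcont.strictMonoOn_of_injOn_Icc' (hα2.trans hβ1).le hinj with hm | hm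
  · have main : ∀ y ∈ e.source, e y ∈ Ioo α β → upS e y = upS e' y := by
      intro y hy hyc
      have hye : e.symm (e y) = y := e.left_inv hy
      have hy' : y ∈ e'.source := by
        rw [← hye]; exact hsub _ ⟨hyc.1.le, hyc.2.le⟩
      have h1 : e.symm β ∈ upS e y := symm_mem_upS hy ht hyc.2
      have h2 : e.symm β ∈ upS e' y := by
        rw [mem_upS_iff hy' ht' (hsub β hβm)]
        have := hm ⟨hyc.1.le, hyc.2.le⟩ hβm hyc.2
        simp only [hye] at this
        exact this
      rw [upS_eq_of_mem h1, upS_eq_of_mem h2]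
    filter_upwards [key] with y hy
    simp only [main y hy.1 hy.2, main x hx ⟨hα2, hβ1⟩]
  · have main : ∀ y ∈ e.source, e y ∈ Ioo α β → upS e y ≠ upS e' y := by
      intro y hy hyc
      have hye : e.symm (e y) = y := e.left_inv hy
      have hy' : y ∈ e'.source := by
        rw [← hye]; exact hsub _ ⟨hyc.1.le, hyc.2.le⟩
      have h1 : e.symm β ∈ upS e y := symm_mem_upS hy ht hyc.2
      have h2 : e.symm β ∈ dnS e' y := by
        rw [mem_dnS_iff hy' ht' (hsub β hβm)]
        have := hm ⟨hyc.1.le, hyc.2.le⟩ hβm hyc.2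
        simp only [hye] at this
        exact this
      intro h
      exact Set.disjoint_left.1 (disjoint_upS_dnS hy' ht') (h ▸ h1) h2
    filter_upwards [key] with y hy
    simp only [main y hy.1 hy.2, main x hx ⟨hα2, hβ1⟩]

open Classical in
/-- Whether the upper sides of two charts differ. -/
noncomputable def J (i j : Ch X) (x : X) : Bool := decide (¬ upS i.1 x = upS j.1 x)

theorem J_comp {i j k : Ch X} {x : X} (hi : x ∈ i.1.source) (hj : x ∈ j.1.source)
    (hk : x ∈ k.1.source) : xor (J i j x) (J j k x) = J i k x := by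
  by_cases h1 : upS i.1 x = upS j.1 x
  · simp [J, h1]
  · by_cases h2 : upS j.1 x = upS k.1 x
    · simp [J, h2]
    · have h3 : upS i.1 x = upS k.1 x := by
        have h4 := (upS_eq_or hj j.2 hi i.2).resolve_left h1
        have h5 := (upS_eq_or hj j.2 hk k.2).resolve_left (Ne.symm h2)
        rw [h4, h5]
      have h6 : ¬ upS k.1 x = upS j.1 x := fun h => h2 h.symm
      simp [J, h2, h3, h6]

theorem J_eventually {i j : Ch X} {x : X} (hi : x ∈ i.1.source) (hj : x ∈ j.1.source) :
    ∀ᶠ y in 𝓝 x, J i j y = J i j x := by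
  filter_upwards [eventually_same hi i.2 hj j.2] with y hy
  simp only [J, hy]

variable (X) in
/-- The orientation double cover. -/
noncomputable def orientCover : FiberBundleCore (Ch X) X Bool where
  baseSet i := i.1.source
  isOpen_baseSet i := i.1.open_source
  indexAt x := ⟨(exists_chart x).choose, (exists_chart x).choose_spec.2⟩
  mem_baseSet_at x := (exists_chart x).choose_spec.1
  coordChange i j x v := xor v (J i j x)
  coordChange_self i x _ v := by simp [J]
  continuousOn_coordChange i j := by
    rintro ⟨x, v⟩ ⟨⟨hxi, hxj⟩, -⟩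
    apply ContinuousAt.continuousWithinAt
    have hev := J_eventually hxi hxj
    have hev2 : (fun p : X × Bool => xor p.2 (J i j p.1)) =ᶠ[𝓝 (x, v)]
        fun p => xor p.2 (J i j x) := by
      have := hev.prod_inl_nhds v
      filter_upwards [this] with p hp
      rw [hp]
    refine ContinuousAt.congr ?_ hev2.symm
    have : Continuous (fun b : Bool => xor b (J i j x)) := continuous_of_discreteTopology
    exact (this.comp continuous_snd).continuousAt
  coordChange_comp i j k x hx v := by
    rw [Bool.xor_assoc, J_comp hx.1.1 hx.1.2 hx.2]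

/-- **Orientation.** There is a choice of an upper side `up x` of each point `x` such that every
point has a chart in which `up y` is the upper side of all points `y` of its domain. -/
theorem exists_orientation (X : Type*) [TopologicalSpace X] [SCM X] :
    ∃ up : X → Set X, ∀ x, ∃ e : OpenPartialHomeomorph X ℝ, x ∈ e.source ∧ e.target = univ ∧
      ∀ y ∈ e.source, up y = upS e y := by
  classical
  set Z := orientCover X with hZ
  have cov : IsCoveringMap Z.proj := FiberBundle.isCoveringMap (F := Bool) (E := Z.Fiber)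
  obtain ⟨x₀⟩ : Nonempty X := inferInstance
  obtain ⟨s, ⟨-, hs⟩, -⟩ := cov.existsUnique_continuousMap_lifts (ContinuousMap.id X) x₀
    (⟨x₀, true⟩ : Z.TotalSpace) rfl
  have hproj : ∀ x, (s x).proj = x := fun x => congrFun hs x
  set pos : Ch X → X → Bool := fun i x => ((Z.localTriv i) (s x)).2 with hpos
  have hcont : ∀ i, ContinuousOn (pos i) (i.1.source) := by
    intro i
    refine continuous_snd.comp_continuousOn
      ((Z.localTriv i).toOpenPartialHomeomorph.continuousOn.comp s.continuous.continuousOn ?_)
    intro x hx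
    rw [FiberBundleCore.mem_localTriv_source, hproj]
    exact hx
  have hconst : ∀ i : Ch X, ∀ x ∈ i.1.source, ∀ y ∈ i.1.source, pos i x = pos i y := by
    intro i x hx y hy
    exact (isPreconnected_source i.2).constant (hcont i) hx hy
  have hval : ∀ (i : Ch X) x, pos i x = xor (s x).2 (J (Z.indexAt x) i x) := by
    intro i x
    simp only [hpos]
    rw [FiberBundleCore.localTriv_apply]
    simp only [hproj]
    rfl
  have hchange : ∀ (i j : Ch X) x, x ∈ i.1.source → x ∈ j.1.source →
      pos j x = xor (pos i x) (J i j x) := by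
    intro i j x hi hj
    have hidx : x ∈ (Z.indexAt x).1.source := Z.mem_baseSet_at x
    rw [hval, hval, Bool.xor_assoc, J_comp hidx hi hj]
  -- the upper side
  let ch : X → Ch X := fun x => ⟨(exists_chart x).choose, (exists_chart x).choose_spec.2⟩
  have hch : ∀ x, x ∈ (ch x).1.source := fun x => (exists_chart x).choose_spec.1
  refine ⟨fun x => if pos (ch x) x then upS (ch x).1 x else dnS (ch x).1 x, fun x => ?_⟩
  have main : ∀ i : Ch X, ∀ y ∈ i.1.source,
      (if pos (ch y) y then upS (ch y).1 y else dnS (ch y).1 y) =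
        if pos i y then upS i.1 y else dnS i.1 y := by
    intro i y hy
    have h1 := hchange i (ch y) y hy (hch y)
    by_cases h2 : upS i.1 y = upS (ch y).1 y
    · have h3 : dnS i.1 y = dnS (ch y).1 y := by
        rcases upS_eq_or (e := negC i.1) (e' := negC (ch y).1) (x := y)
          (by rwa [negC_source]) (negC_target i.2) (by rw [negC_source]; exact hch y)
          (negC_target (ch y).2) with h | h
        · rw [upS_negC, upS_negC] at h; exact h.symm
        · rw [upS_negC, dnS_negC, h2] at h
          exact absurd h.symm (upS_ne_dnS (hch y) (ch y).2)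
      have hJ : J i (ch y) y = false := by simp [J, h2]
      rw [h1, hJ, Bool.xor_false, h2, h3]
    · have hJ : J i (ch y) y = true := by simp [J, h2]
      have h4 : upS (ch y).1 y = dnS i.1 y :=
        (upS_eq_or hy i.2 (hch y) (ch y).2).resolve_left (Ne.symm h2)
      have h5 : upS i.1 y = dnS (ch y).1 y :=
        (upS_eq_or (hch y) (ch y).2 hy i.2).resolve_left h2
      rw [h1, hJ, h4, ← h5]
      cases pos i y <;> simp
  obtain ⟨e, hxe, htar⟩ := exists_chart x
  by_cases hp : pos ⟨e, htar⟩ x = true
  · refine ⟨e, hxe, htar, fun y hy => ?_⟩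
    beta_reduce
    rw [main ⟨e, htar⟩ y hy, hconst ⟨e, htar⟩ y hy x hxe, hp]
    simp
  · refine ⟨negC e, by rwa [negC_source], negC_target htar, fun y hy => ?_⟩
    rw [negC_source] at hy
    beta_reduce
    rw [main ⟨e, htar⟩ y hy, hconst ⟨e, htar⟩ y hy x hxe, upS_negC]
    simp [hp]

end Pool.Agent.H86.Bifol
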