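import Pool.Agent.H86.Folded

/-!
# Sides of points of a simply connected 1-manifold
-/

open Set Topology Filter

namespace Pool.Agent.H86.Bifol

/-- A simply connected space in which every point has a chart onto the real line. -/
class SCM (X : Type*) [TopologicalSpace X] : Prop extends SimplyConnectedSpace X where
  charts : HasCharts X

set_option linter.unusedSectionVars false
set_option linter.unusedVariables false

variable {X : Type*} [TopologicalSpace X]

instance (priority := 100) SCM.t1 [h : SCM X] : T1Space X := h.charts.t1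

instance (priority := 100) SCM.lpc [h : SCM X] : LocallyPathConnectedSpace X := h.charts.locPath

/-- The component of the complement of `p` containing `y`. -/
abbrev side (p y : X) : Set X := connectedComponentIn {p}ᶜ y

theorem self_notMem_side {p y : X} : p ∉ side p y :=
  fun h => connectedComponentIn_subset _ _ h rfl

theorem ne_of_mem_side {p y x : X} (h : x ∈ side p y) : x ≠ p := by
  rintro rfl; exact self_notMem_side h

theorem mem_side {p y : X} (h : y ≠ p) : y ∈ side p y := mem_connectedComponentIn h

theorem side_eq {p y x : X} (h : x ∈ side p y) : side p y = side p x :=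
  connectedComponentIn_eq h

theorem ne_of_mem_side' {p y x : X} (h : x ∈ side p y) : y ≠ p := by
  intro hy
  have : side p y = ∅ := connectedComponentIn_eq_empty (by simp [hy])
  rw [this] at h
  exact h

theorem mem_side_symm {p y x : X} (h : x ∈ side p y) : y ∈ side p x := by
  rw [← side_eq h]
  exact mem_side (ne_of_mem_side' h)

theorem mem_side_trans {p x y z : X} (h : x ∈ side p y) (h' : y ∈ side p z) : x ∈ side p z := by
  rw [side_eq h']; exact h

theorem isPreconnected_side {p y : X} : IsPreconnected (side p y) :=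
  isPreconnected_connectedComponentIn

theorem subset_side {A : Set X} {p a : X} (hA : IsPreconnected A) (hp : p ∉ A) (ha : a ∈ A) :
    A ⊆ side p a :=
  hA.subset_connectedComponentIn ha (fun _ hx h => hp (h ▸ hx))

theorem disjoint_side {p x y : X} (h : x ∉ side p y) : Disjoint (side p x) (side p y) := by
  rw [Set.disjoint_left]
  intro z hz hz'
  exact h (mem_side_trans (mem_side_symm hz) hz')

variable [SCM X]

theorem isOpen_side {p y : X} : IsOpen (side p y) := isOpen_compl_singleton.connectedComponentIn

theorem mem_closure_side {p y : X} (h : y ≠ p) : p ∈ closure (side p y) :=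
  mem_closure_component h

theorem isPreconnected_compl_side {p y : X} : IsPreconnected (side p y)ᶜ :=
  isPreconnected_compl_component

theorem exists_chart (x : X) : ∃ e : OpenPartialHomeomorph X ℝ, x ∈ e.source ∧ e.target = univ :=
  SCM.charts x

section chart

variable {e : OpenPartialHomeomorph X ℝ} {t : X}

theorem symm_mem (htar : e.target = univ) (c : ℝ) : e.symm c ∈ e.source :=
  e.map_target (by rw [htar]; trivial)

theorem apply_symm (htar : e.target = univ) (c : ℝ) : e (e.symm c) = c :=
  e.right_inv (by rw [htar]; trivial)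

theorem symm_ne (htar : e.target = univ) {c : ℝ} (hc : c ≠ e t) : e.symm c ≠ t := by
  intro hct
  exact hc (by rw [← hct, apply_symm htar])

theorem isPreconnected_symm_image (htar : e.target = univ) {s : Set ℝ} (hs : IsPreconnected s) :
    IsPreconnected (e.symm '' s) := by
  refine hs.image _ (e.continuousOn_symm.mono ?_)
  rw [htar]; exact subset_univ _

theorem isOpen_symm_image (htar : e.target = univ) {s : Set ℝ} (hs : IsOpen s) :
    IsOpen (e.symm '' s) :=
  e.isOpen_image_symm_of_subset_target hs (by rw [htar]; exact subset_univ _)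

theorem isPreconnected_source (htar : e.target = univ) : IsPreconnected e.source := by
  rw [← e.symm_image_target_eq_source, htar]
  exact isPreconnected_symm_image htar isPreconnected_univ

/-- The upper side of `t` in a chart. -/
def upS (e : OpenPartialHomeomorph X ℝ) (t : X) : Set X := side t (e.symm (e t + 1))

/-- The lower side of `t` in a chart. -/
def dnS (e : OpenPartialHomeomorph X ℝ) (t : X) : Set X := side t (e.symm (e t - 1))

theorem symm_mem_upS (ht : t ∈ e.source) (htar : e.target = univ) {c : ℝ} (hc : e t < c) :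
    e.symm c ∈ upS e t := by
  have h := subset_side (p := t) (isPreconnected_symm_image htar (isPreconnected_Ioi (a := e t)))
    (by rintro ⟨c, hc, h⟩; exact symm_ne htar (ne_of_gt hc) h)
    (a := e.symm (e t + 1)) ⟨_, by simp, rfl⟩
  exact h ⟨c, hc, rfl⟩

theorem symm_mem_dnS (ht : t ∈ e.source) (htar : e.target = univ) {c : ℝ} (hc : c < e t) :
    e.symm c ∈ dnS e t := by
  have h := subset_side (p := t) (isPreconnected_symm_image htar (isPreconnected_Iio (a := e t)))
    (by rintro ⟨c, hc, h⟩; exact symm_ne htar (ne_of_lt hc) h)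
    (a := e.symm (e t - 1)) ⟨_, by simp, rfl⟩
  exact h ⟨c, hc, rfl⟩

theorem disjoint_upS_dnS (ht : t ∈ e.source) (htar : e.target = univ) :
    Disjoint (upS e t) (dnS e t) :=
  disjoint_side (sides SCM.charts ht htar (by linarith) (by linarith))

theorem mem_upS_iff (ht : t ∈ e.source) (htar : e.target = univ) {y : X} (hy : y ∈ e.source) :
    y ∈ upS e t ↔ e t < e y := by
  constructor
  · intro h
    rcases lt_trichotomy (e t) (e y) with h' | h' | h'
    · exact h'
    · exact absurd (e.injOn ht hy h').symm (ne_of_mem_side h)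
    · exfalso
      have := symm_mem_dnS ht htar h'
      rw [e.left_inv hy] at this
      exact Set.disjoint_left.1 (disjoint_upS_dnS ht htar) h this
  · intro h
    have := symm_mem_upS ht htar h
    rwa [e.left_inv hy] at this

theorem mem_dnS_iff (ht : t ∈ e.source) (htar : e.target = univ) {y : X} (hy : y ∈ e.source) :
    y ∈ dnS e t ↔ e y < e t := by
  constructor
  · intro h
    rcases lt_trichotomy (e y) (e t) with h' | h' | h'
    · exact h'
    · exact absurd (e.injOn hy ht h') (ne_of_mem_side h)
    · exfalso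
      have := symm_mem_upS ht htar h'
      rw [e.left_inv hy] at this
      exact Set.disjoint_left.1 (disjoint_upS_dnS ht htar) this h
  · intro h
    have := symm_mem_dnS ht htar h
    rwa [e.left_inv hy] at this

theorem mem_upS_or_dnS (ht : t ∈ e.source) (htar : e.target = univ) {y : X} (hy : y ≠ t) :
    y ∈ upS e t ∨ y ∈ dnS e t := by
  obtain ⟨z, hz, hzy⟩ := mem_closure_iff.1 (mem_closure_side hy) _ e.open_source ht
  have hzt : z ≠ t := ne_of_mem_side hzy
  have hne : e z ≠ e t := fun h => hzt (e.injOn hz ht h)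
  rcases lt_or_gt_of_ne hne with h | h
  · right
    have h1 := (mem_dnS_iff ht htar hz).2 h
    exact mem_side_trans (mem_side_symm hzy) h1
  · left
    have h1 := (mem_upS_iff ht htar hz).2 h
    exact mem_side_trans (mem_side_symm hzy) h1

end chart

/-- There are only two sides. -/
theorem mem_side_of_notMem {p a x y : X} (hx : x ≠ p) (hy : y ≠ p) (ha : a ≠ p)
    (hxa : x ∉ side p a) (hya : y ∉ side p a) : x ∈ side p y := by
  obtain ⟨e, hp, htar⟩ := exists_chart p
  have key : ∀ z w : X, z ∈ upS e p → w ∈ upS e p → z ∈ side p w := fun z w hz hw =>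
    mem_side_trans hz (mem_side_symm hw)
  have key' : ∀ z w : X, z ∈ dnS e p → w ∈ dnS e p → z ∈ side p w := fun z w hz hw =>
    mem_side_trans hz (mem_side_symm hw)
  rcases mem_upS_or_dnS hp htar hx with h1 | h1 <;>
  rcases mem_upS_or_dnS hp htar hy with h2 | h2 <;>
  rcases mem_upS_or_dnS hp htar ha with h3 | h3
  · exact key _ _ h1 h2
  · exact key _ _ h1 h2
  · exact absurd (key _ _ h1 h3) hxa
  · exact absurd (key' _ _ h2 h3) hya
  · exact absurd (key _ _ h2 h3) hya
  · exact absurd (key' _ _ h1 h3) hxa
  · exact key' _ _ h1 h2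
  · exact key' _ _ h1 h2

theorem exists_other (p x : X) : ∃ y, y ≠ p ∧ y ∉ side p x :=
  exists_other_side SCM.charts p x

theorem closure_side_subset {p y : X} : closure (side p y) ⊆ insert p (side p y) := by
  intro x hx
  by_cases hxp : x = p
  · exact Or.inl hxp
  right
  obtain ⟨z, hz, hz'⟩ := mem_closure_iff.1 hx _ isOpen_side (mem_side hxp)
  exact mem_side_trans (mem_side_symm hz) hz'

/-- **Germ lemma.** A connected set which does not contain `p` but has `p` in its closure contains
all points near `p` on its side of `p`. -/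
theorem germ {A : Set X} {p a : X} (hA : IsPreconnected A) (hp : p ∉ A) (hc : p ∈ closure A)
    (ha : a ∈ A) : A ∈ 𝓝[side p a] p := by
  obtain ⟨e, hpe, htar⟩ := exists_chart p
  have hsub : A ⊆ side p a := subset_side hA hp ha
  have hap : a ≠ p := fun h => hp (h ▸ ha)
  rcases mem_upS_or_dnS hpe htar hap with hup | hdn
  · have hs : side p a = upS e p := (side_eq hup).symm
    obtain ⟨a₁, ha₁e, ha₁⟩ := mem_closure_iff.1 hc _ e.open_source hpe
    have h1 : e p < e a₁ := (mem_upS_iff hpe htar ha₁e).1 (hs ▸ hsub ha₁)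
    have key : ∀ c ∈ Ioo (e p) (e a₁), e.symm c ∈ A := by
      intro c hc'
      by_contra hcA
      obtain ⟨a₂, ⟨ha₂e, ha₂c⟩, ha₂⟩ := mem_closure_iff.1 hc _
        (e.isOpen_inter_preimage (isOpen_Iio (a := c))) ⟨hpe, hc'.1⟩
      have hce : e.symm c ∈ e.source := symm_mem htar c
      have h3 : a₁ ∈ upS e (e.symm c) := by
        rw [mem_upS_iff hce htar ha₁e, apply_symm htar]; exact hc'.2
      have h4 : a₂ ∈ dnS e (e.symm c) := by
        rw [mem_dnS_iff hce htar ha₂e, apply_symm htar]; exact ha₂c
      have h5 : a₁ ∈ side (e.symm c) a₂ := subset_side hA hcA ha₂ ha₁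
      exact Set.disjoint_left.1 (disjoint_upS_dnS hce htar) h3 (mem_side_trans h5 h4)
    rw [mem_nhdsWithin]
    refine ⟨e.source ∩ e ⁻¹' Iio (e a₁), e.isOpen_inter_preimage isOpen_Iio, ⟨hpe, h1⟩, ?_⟩
    rintro x ⟨⟨hxe, hx1⟩, hx2⟩
    rw [hs, mem_upS_iff hpe htar hxe] at hx2
    have := key (e x) ⟨hx2, hx1⟩
    rwa [e.left_inv hxe] at this
  · have hs : side p a = dnS e p := (side_eq hdn).symm
    obtain ⟨a₁, ha₁e, ha₁⟩ := mem_closure_iff.1 hc _ e.open_source hpe
    have h1 : e a₁ < e p := (mem_dnS_iff hpe htar ha₁e).1 (hs ▸ hsub ha₁)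
    have key : ∀ c ∈ Ioo (e a₁) (e p), e.symm c ∈ A := by
      intro c hc'
      by_contra hcA
      obtain ⟨a₂, ⟨ha₂e, ha₂c⟩, ha₂⟩ := mem_closure_iff.1 hc _
        (e.isOpen_inter_preimage (isOpen_Ioi (a := c))) ⟨hpe, hc'.2⟩
      have hce : e.symm c ∈ e.source := symm_mem htar c
      have h3 : a₁ ∈ dnS e (e.symm c) := by
        rw [mem_dnS_iff hce htar ha₁e, apply_symm htar]; exact hc'.1
      have h4 : a₂ ∈ upS e (e.symm c) := by
        rw [mem_upS_iff hce htar ha₂e, apply_symm htar]; exact ha₂c
      have h5 : a₂ ∈ side (e.symm c) a₁ := subset_side hA hcA ha₁ ha₂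
      exact Set.disjoint_left.1 (disjoint_upS_dnS hce htar) h4 (mem_side_trans h5 h3)
    rw [mem_nhdsWithin]
    refine ⟨e.source ∩ e ⁻¹' Ioi (e a₁), e.isOpen_inter_preimage isOpen_Ioi, ⟨hpe, h1⟩, ?_⟩
    rintro x ⟨⟨hxe, hx1⟩, hx2⟩
    rw [hs, mem_dnS_iff hpe htar hxe] at hx2
    have := key (e x) ⟨hx1, hx2⟩
    rwa [e.left_inv hxe] at this

theorem neBot_side {p a : X} (h : a ≠ p) : (𝓝[side p a] p).NeBot :=
  mem_closure_iff_nhdsWithin_neBot.1 (mem_closure_side h)

/-- Two connected sets on the same side of `p` which accumulate at `p` meet near `p`. -/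
theorem germ_inter {A B : Set X} {p a : X} (hA : IsPreconnected A) (hpA : p ∉ A)
    (hcA : p ∈ closure A) (ha : a ∈ A) (hB : IsPreconnected B) (hpB : p ∉ B)
    (hcB : p ∈ closure B) {b : X} (hb : b ∈ B) (hab : a ∈ side p b) :
    A ∩ B ∈ 𝓝[side p a] p := by
  refine Filter.inter_mem (germ hA hpA hcA ha) ?_
  have := germ hB hpB hcB hb
  rwa [side_eq hab] at this

/-! ### Non-separated points -/

omit [SCM X] in
theorem NonSeparated.symm' {x y : X} (h : NonSeparated x y) : NonSeparated y x := by
  intro U V hU hV hx hy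
  have := h V U hV hU hy hx
  rwa [inter_comm] at this

omit [SCM X] in
theorem NonSeparated.mem_closure {x y : X} (h : NonSeparated x y) {A : Set X} (hA : IsOpen A)
    (hx : x ∈ A) : y ∈ closure A := by
  rw [mem_closure_iff]
  intro o ho hy
  have := h A o hA ho hx hy
  rwa [inter_comm] at this

omit [SCM X] in
theorem nonSeparated_of_neBot {x y : X} {f : Filter X} [hf : f.NeBot] (hx : f ≤ 𝓝 x)
    (hy : f ≤ 𝓝 y) : NonSeparated x y := by
  intro U V hU hV hxU hyV
  exact hf.nonempty_of_mem (Filter.inter_mem (hx (hU.mem_nhds hxU)) (hy (hV.mem_nhds hyV)))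

/-- Non-separated points in an open set are not separated by a point. -/
theorem NonSeparated.mem_side {x y p : X} (h : NonSeparated x y) (hx : x ≠ p) (hy : y ≠ p) :
    x ∈ side p y := by
  obtain ⟨z, hz, hz'⟩ := h _ _ isOpen_side isOpen_side (Bifol.mem_side hx) (Bifol.mem_side hy)
  exact mem_side_trans (mem_side_symm hz) hz'

omit [SCM X] in
/-- A chart domain contains no two distinct non-separated points. -/
theorem NonSeparated.notMem_source {x y : X} (h : NonSeparated x y) (hne : x ≠ y)
    {e : OpenPartialHomeomorph X ℝ} (hx : x ∈ e.source) : y ∉ e.source := by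
  intro hy
  have hne' : e x ≠ e y := fun h => hne (e.injOn hx hy h)
  obtain ⟨U, V, hU, hV, hxU, hyV, hd⟩ := t2_separation hne'
  obtain ⟨z, hz, hz'⟩ := h _ _ (e.isOpen_inter_preimage hU) (e.isOpen_inter_preimage hV)
    ⟨hx, hxU⟩ ⟨hy, hyV⟩
  exact Set.disjoint_left.1 hd hz.2 hz'.2

/-- Points near `y` on the side of `x` are near `x`, if `x` and `y` are not separated. -/
theorem NonSeparated.germ_le {x y : X} (h : NonSeparated x y) (hne : x ≠ y) :
    𝓝[side y x] y ≤ 𝓝 x := by
  obtain ⟨e, hx, htar⟩ := exists_chart x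
  intro V hV
  -- a small interval around `x`
  have hV' : e.symm ⁻¹' (V ∩ e.source) ∈ 𝓝 (e x) := by
    have := e.continuousAt_symm (e.map_source hx)
    rw [ContinuousAt, e.left_inv hx] at this
    exact this (Filter.inter_mem hV (e.open_source.mem_nhds hx))
  obtain ⟨a, b, hab, hab'⟩ := mem_nhds_iff_exists_Ioo_subset.1 hV'
  set A := e.symm '' Ioo a b with hA
  have hAo : IsOpen A := isOpen_symm_image htar isOpen_Ioo
  have hxA : x ∈ A := ⟨e x, hab, e.left_inv hx⟩
  have hAe : A ⊆ V ∩ e.source := by
    rintro _ ⟨c, hc, rfl⟩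
    exact hab' hc
  have hyA : y ∉ A := fun hy => h.notMem_source hne hx (hAe hy).2
  have := germ (isPreconnected_symm_image htar isPreconnected_Ioo) hyA
    (h.mem_closure hAo hxA) hxA
  exact Filter.mem_of_superset this (hAe.trans inter_subset_left)

/-- Two points not separated from `c` and on the same side of `c` are not separated. -/
theorem NonSeparated.trans_side {x y c : X} (hx : NonSeparated x c) (hy : NonSeparated y c)
    (hxc : x ≠ c) (hs : x ∈ side c y) : NonSeparated x y := by
  have hyc : y ≠ c := ne_of_mem_side' hs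
  have h1 := hx.germ_le hxc
  have h2 := hy.germ_le hyc
  rw [side_eq hs] at h2
  have := neBot_side hxc
  exact nonSeparated_of_neBot h1 h2

/-! ### Exit lemma and intersections -/

/-- **Exit lemma.** Let `A` be open and connected, `W ⊆ A` connected and open, `y ∈ W` and
`g ∈ A \ W`. Some boundary point `p` of `W` in `A` separates `g` from `y` or is equal to `g`. -/
theorem exit {A W : Set X} (hA : IsPreconnected A) (hAo : IsOpen A) (hW : IsPreconnected W)
    (hWo : IsOpen W) (hWA : W ⊆ A) {g y : X} (hg : g ∈ A) (hgW : g ∉ W) (hy : y ∈ W) :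
    ∃ p ∈ A, p ∈ closure W ∧ p ∉ W ∧ (p = g ∨ y ∉ side p g) := by
  have hAp : IsPathConnected A :=
    (hAo.isConnected_iff_isPathConnected).1 ⟨⟨g, hg⟩, hA⟩
  obtain ⟨γ, hγ⟩ := hAp.joinedIn g hg y (hWA hy)
  -- first entry in `W`
  set T : Set unitInterval := {t | γ t ∈ W} with hT
  have hTo : IsOpen T := hWo.preimage γ.continuous
  have hT1 : (1 : unitInterval) ∈ T := by simp [hT, hy]
  have hTne : T.Nonempty := ⟨1, hT1⟩
  set s := sInf T with hs
  have hsle : ∀ t ∈ T, s ≤ t := fun t ht => sInf_le ht
  have hlt : ∀ t, t < s → γ t ∉ W := fun t ht h => not_le.2 ht (hsle t h)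
  have hsW : γ s ∉ W := by
    intro h
    have h0 : s ≠ 0 := by
      intro h0
      apply hgW
      rw [h0] at h
      simpa using h
    have hpos : (0 : unitInterval) < s := lt_of_le_of_ne s.2.1 (Ne.symm h0)
    obtain ⟨l, hl, hl'⟩ := exists_Ioc_subset_of_mem_nhds (hTo.mem_nhds h) ⟨0, hpos⟩
    obtain ⟨m, hm1, hm2⟩ := exists_between hl
    exact hlt m hm2 (hl' ⟨hm1, hm2.le⟩)
  have hscl : γ s ∈ closure W := by
    have h1 : s ∈ closure T := sInf_mem_closure hTne
    have h2 := image_closure_subset_closure_image γ.continuous (s := T) ⟨s, h1, rfl⟩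
    refine closure_mono ?_ h2
    rintro _ ⟨t, ht, rfl⟩
    exact ht
  refine ⟨γ s, hγ s, hscl, hsW, ?_⟩
  by_cases hpg : γ s = g
  · exact Or.inl hpg
  right
  -- first visit of the point
  set T' : Set unitInterval := {t | γ t = γ s} with hT'
  have hT'c : IsClosed T' := isClosed_singleton.preimage γ.continuous
  have hT's : s ∈ T' := rfl
  set s₁ := sInf T' with hs₁
  have hs₁T : γ s₁ = γ s := hT'c.sInf_mem ⟨s, hT's⟩
  have hs₁s : s₁ ≤ s := sInf_le hT's
  have hpos : (0 : unitInterval) < s₁ := by
    refine lt_of_le_of_ne s₁.2.1 ?_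
    intro h0
    apply hpg
    rw [← hs₁T, ← h0]
    simp
  set A' := γ '' Iio s₁ with hA'
  have hA'pre : IsPreconnected A' := isPreconnected_Iio.image _ γ.continuous.continuousOn
  have hpA' : γ s ∉ A' := by
    rintro ⟨t, ht, hts⟩
    exact not_le.2 ht (sInf_le (show t ∈ T' from hts))
  have hgA' : g ∈ A' := ⟨0, hpos, by simp⟩
  have hclA' : γ s ∈ closure A' := by
    rw [← hs₁T]
    have h1 : s₁ ∈ closure (Iio s₁) := by
      have hne : (Iio s₁).Nonempty := ⟨(0 : unitInterval), hpos⟩
      rw [closure_Iio' hne]; exact self_mem_Iic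
    exact image_closure_subset_closure_image γ.continuous ⟨s₁, h1, rfl⟩
  intro hysg
  have h1 : A' ∩ W ∈ 𝓝[side (γ s) g] (γ s) :=
    germ_inter hA'pre hpA' hclA' hgA' hW hsW hscl hy (mem_side_symm hysg)
  have hne : (𝓝[side (γ s) g] (γ s)).NeBot := neBot_side (Ne.symm hpg)
  obtain ⟨x, ⟨t, ht, rfl⟩, hxW⟩ := hne.nonempty_of_mem h1
  exact hlt t (lt_of_lt_of_le ht hs₁s) hxW

/-- The intersection of two connected open sets is connected. -/
theorem isPreconnected_inter {A B : Set X} (hA : IsPreconnected A) (hAo : IsOpen A)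
    (hB : IsPreconnected B) (hBo : IsOpen B) : IsPreconnected (A ∩ B) := by
  have key : ∀ y ∈ A ∩ B, ∀ g ∈ A ∩ B, g ∈ connectedComponentIn (A ∩ B) y := by
    intro y hy g hg
    by_contra hgW
    set W := connectedComponentIn (A ∩ B) y with hW
    have hWo : IsOpen W := (hAo.inter hBo).connectedComponentIn
    have hWsub : W ⊆ A ∩ B := connectedComponentIn_subset _ _
    have hyW : y ∈ W := mem_connectedComponentIn hy
    have hcl : ∀ p ∈ A ∩ B, p ∈ closure W → p ∈ W := by
      intro p hp hpc
      have hVo : IsOpen (connectedComponentIn (A ∩ B) p) := (hAo.inter hBo).connectedComponentIn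
      obtain ⟨z, hz, hz'⟩ := mem_closure_iff.1 hpc _ hVo (mem_connectedComponentIn hp)
      rw [hW, connectedComponentIn_eq hz', ← connectedComponentIn_eq hz]
      exact mem_connectedComponentIn hp
    obtain ⟨p, hpA, hpcl, hpW, hp⟩ := exit hA hAo isPreconnected_connectedComponentIn hWo
      (hWsub.trans inter_subset_left) hg.1 hgW hyW
    rcases hp with rfl | hp
    · exact hpW (hcl p hg hpcl)
    · have hpB : p ∈ B := by
        by_contra hpB
        exact hp (subset_side hB hpB hg.2 hy.2)
      exact hpW (hcl p ⟨hpA, hpB⟩ hpcl)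
  refine isPreconnected_of_forall_pair ?_
  intro x hx y hy
  exact ⟨connectedComponentIn (A ∩ B) x, connectedComponentIn_subset _ _,
    mem_connectedComponentIn hx, key x hx y hy, isPreconnected_connectedComponentIn⟩

/-! ### Position of two half-spaces -/

theorem side_subset_side {p q a b : X} (hb : b ≠ q) (hq : q ∈ side p a) (hp : p ∉ side q b) :
    side q b ⊆ side p a := by
  obtain ⟨z, hz, hz'⟩ := mem_closure_iff.1 (mem_closure_side hb) _ isOpen_side hq
  have h := subset_side (isPreconnected_side (p := q) (y := b)) hp hz'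
  rw [side_eq hz]
  exact h

theorem disjoint_side_side {p q a b : X} (hpq : p ≠ q) (ha : a ≠ p) (hq : q ∉ side p a)
    (hp : p ∉ side q b) : Disjoint (side p a) (side q b) := by
  rw [Set.disjoint_left]
  intro z hz hz'
  have h1 : side p a ⊆ side q z := subset_side isPreconnected_side hq hz
  rw [← side_eq hz'] at h1
  have h2 : p ∈ closure (side q b) := closure_mono h1 (mem_closure_side ha)
  rcases closure_side_subset h2 with h | h
  · exact hpq h
  · exact hp h

theorem union_side_side {p q a b : X} (hq : q ∈ side p a) (hp : p ∈ side q b) :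
    side p a ∪ side q b = univ := by
  rw [eq_univ_iff_forall]
  intro x
  by_cases hx : x ∈ side p a
  · exact Or.inl hx
  right
  have h1 : (side p a)ᶜ ⊆ side q p := subset_side isPreconnected_compl_side (fun h => h hq)
    self_notMem_side
  rw [side_eq hp]
  exact h1 hx

end Pool.Agent.H86.Bifol
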