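import Pool.Agent.H86.FamOf

/-!
# Triples of pairwise transverse foliations with two Hausdorff leaf spaces
-/

open Set Topology Filter

namespace Pool.Agent.H86.Bifol

set_option linter.unusedSectionVars false
set_option linter.unusedVariables false

/-- The triple `(Λ₁, Λ₂, Λ₃)` is realized by three pairwise transverse foliations of the plane. -/
def RealizedTriple (Λ₁ Λ₂ Λ₃ : Type*) [TopologicalSpace Λ₁] [TopologicalSpace Λ₂]
    [TopologicalSpace Λ₃] : Prop :=
  ∃ F₁ F₂ F₃ : Foliation, Transverse F₁ F₂ ∧ Transverse F₁ F₃ ∧ Transverse F₂ F₃ ∧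
    Nonempty (F₁.LeafSpace ≃ₜ Λ₁) ∧ Nonempty (F₂.LeafSpace ≃ₜ Λ₂) ∧
    Nonempty (F₃.LeafSpace ≃ₜ Λ₃)

/-- A chart onto the square from local coordinates. -/
theorem exists_square_chart {V : Set (ℝ × ℝ)} (hV : IsOpen V) {T : ℝ × ℝ → ℝ × ℝ}
    (hc : ContinuousOn T V) (hi : InjOn T V) (ho : ∀ U ⊆ V, IsOpen U → IsOpen (T '' U))
    {p : ℝ × ℝ} (hp : p ∈ V) :
    ∃ E : OpenPartialHomeomorph (ℝ × ℝ) (ℝ × ℝ), p ∈ E.source ∧ E.source ⊆ V ∧
      E.target = Square ∧
      (∀ q ∈ E.source, ∀ r ∈ E.source, (T q).1 = (T r).1 ↔ (E q).1 = (E r).1) ∧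
      (∀ q ∈ E.source, ∀ r ∈ E.source, (T q).2 = (T r).2 ↔ (E q).2 = (E r).2) := by
  classical
  -- the inverse map
  set S : ℝ × ℝ → ℝ × ℝ := Function.invFunOn T V with hS
  have hSl : ∀ q ∈ V, S (T q) = q := fun q hq => hi.leftInvOn_invFunOn hq
  have hSr : ∀ v ∈ T '' V, T (S v) = v := fun v hv => Function.invFunOn_eq hv
  have hSV : ∀ v ∈ T '' V, S v ∈ V := fun v hv => Function.invFunOn_mem hv
  have hSc : ContinuousOn S (T '' V) := by
    intro v hv
    rw [ContinuousWithinAt, tendsto_def]
    intro N hN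
    obtain ⟨o, hoN, hoo, hov⟩ := mem_nhds_iff.1 hN
    have h1 : IsOpen (T '' (o ∩ V)) := ho _ inter_subset_right (hoo.inter hV)
    have h2 : v ∈ T '' (o ∩ V) := ⟨S v, ⟨hov, hSV v hv⟩, hSr v hv⟩
    refine mem_nhdsWithin_of_mem_nhds (Filter.mem_of_superset (h1.mem_nhds h2) ?_)
    rintro _ ⟨q, ⟨hqo, hqV⟩, rfl⟩
    exact hoN ((hSl q hqV).symm ▸ hqo)
  have hTV : IsOpen (T '' V) := ho V subset_rfl hV
  have hmem : T '' V ∈ 𝓝 ((T p).1, (T p).2) := hTV.mem_nhds ⟨p, hp, rfl⟩
  rw [nhds_prod_eq, Filter.mem_prod_iff] at hmem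
  obtain ⟨A, hA, B, hB, hAB⟩ := hmem
  obtain ⟨a, b, hab, habA⟩ := mem_nhds_iff_exists_Ioo_subset.1 hA
  obtain ⟨c, d, hcd, hcdB⟩ := mem_nhds_iff_exists_Ioo_subset.1 hB
  have hab' : 0 < b - a := by linarith [hab.1, hab.2]
  have hcd' : 0 < d - c := by linarith [hcd.1, hcd.2]
  have hrect : Ioo a b ×ˢ Ioo c d ⊆ T '' V := (prod_mono habA hcdB).trans hAB
  set W : Set (ℝ × ℝ) := V ∩ T ⁻¹' (Ioo a b ×ˢ Ioo c d) with hW
  have hWo : IsOpen W := hc.isOpen_inter_preimage hV (isOpen_Ioo.prod isOpen_Ioo)
  have hin : ∀ v ∈ Square, ((a + b + (b - a) * v.1) / 2, (c + d + (d - c) * v.2) / 2) ∈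
      Ioo a b ×ˢ Ioo c d := by
    rintro ⟨v, w⟩ ⟨⟨h1, h2⟩, h3, h4⟩
    simp only at h1 h2 h3 h4 ⊢
    refine ⟨⟨?_, ?_⟩, ?_, ?_⟩ <;> simp only <;> nlinarith
  let E : OpenPartialHomeomorph (ℝ × ℝ) (ℝ × ℝ) :=
    { toFun := fun q => ((2 * (T q).1 - a - b) / (b - a), (2 * (T q).2 - c - d) / (d - c))
      invFun := fun v => S ((a + b + (b - a) * v.1) / 2, (c + d + (d - c) * v.2) / 2)
      source := W
      target := Square
      map_source' := by
        rintro q ⟨hq, ⟨h1, h2⟩, h3, h4⟩
        refine ⟨⟨?_, ?_⟩, ?_, ?_⟩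
        · change -1 < (2 * (T q).1 - a - b) / (b - a)
          rw [lt_div_iff₀ hab']; linarith
        · change (2 * (T q).1 - a - b) / (b - a) < 1
          rw [div_lt_one hab']; linarith
        · change -1 < (2 * (T q).2 - c - d) / (d - c)
          rw [lt_div_iff₀ hcd']; linarith
        · change (2 * (T q).2 - c - d) / (d - c) < 1
          rw [div_lt_one hcd']; linarith
      map_target' := by
        intro v hv
        have h1 := hin v hv
        refine ⟨hSV _ (hrect h1), ?_⟩
        rw [mem_preimage, hSr _ (hrect h1)]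
        exact h1
      left_inv' := by
        rintro q ⟨hq, h1⟩
        have e1 : (a + b + (b - a) * ((2 * (T q).1 - a - b) / (b - a))) / 2 = (T q).1 := by
          field_simp; ring
        have e2 : (c + d + (d - c) * ((2 * (T q).2 - c - d) / (d - c))) / 2 = (T q).2 := by
          field_simp; ring
        simp only [e1, e2]
        exact hSl q hq
      right_inv' := by
        intro v hv
        have h1 := hin v hv
        simp only [hSr _ (hrect h1)]
        refine Prod.ext ?_ ?_
        · field_simp; ring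
        · field_simp; ring
      open_source := hWo
      open_target := isOpen_Ioo.prod isOpen_Ioo
      continuousOn_toFun := by
        have h1 : ContinuousOn T W := hc.mono inter_subset_left
        have h2 : ContinuousOn (fun q => (T q).1) W := continuous_fst.comp_continuousOn h1
        have h3 : ContinuousOn (fun q => (T q).2) W := continuous_snd.comp_continuousOn h1
        fun_prop
      continuousOn_invFun := by
        refine hSc.comp (by fun_prop) ?_
        intro v hv
        exact hrect (hin v hv) }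
  refine ⟨E, ⟨hp, hab, hcd⟩, inter_subset_left, rfl, ?_, ?_⟩
  · intro q hq r hr
    change _ ↔ (2 * (T q).1 - a - b) / (b - a) = (2 * (T r).1 - a - b) / (b - a)
    rw [div_left_inj' hab'.ne']
    constructor
    · intro h; rw [h]
    · intro h; linarith
  · intro q hq r hr
    change _ ↔ (2 * (T q).2 - c - d) / (d - c) = (2 * (T r).2 - c - d) / (d - c)
    rw [div_left_inj' hcd'.ne']
    constructor
    · intro h; rw [h]
    · intro h; linarith

variable {X : Type*} [TopologicalSpace X] [SCM X]

section slant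

variable {F : Fam X} {o : Orientation X}

theorem Box.hlen (B : Box F o) : B.b - B.a ≤ 2 := by
  have h1 : ∀ x ∈ Ioo B.a B.b, x ∈ Ioo (-1 : ℝ) 1 := by
    intro x hx
    exact F.bdd x ⟨_, Box.β_mem_U hx⟩
  by_contra hcon
  push Not at hcon
  have hab := B.hab
  -- the points near both ends
  by_cases h2 : -1 ≤ B.a
  · have h3 : (max 1 B.a + B.b) / 2 ∈ Ioo B.a B.b := by
      have h4 : max 1 B.a < B.b := max_lt (by linarith) hab
      have h5 := le_max_right 1 B.a
      constructor <;> linarith
    have h4 := (h1 _ h3).2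
    have h5 := le_max_left 1 B.a
    linarith
  · push Not at h2
    have h3 : (B.a + min (-1) B.b) / 2 ∈ Ioo B.a B.b := by
      have h4 : B.a < min (-1) B.b := lt_min h2 hab
      have h5 := min_le_right (-1) B.b
      constructor <;> linarith
    have h4 := (h1 _ h3).1
    have h5 := min_le_left (-1) B.b
    linarith

theorem Box.χ_lip (B : Box F o) (x y : ℝ) : |B.χ x - B.χ y| ≤ 2 * |x - y| := by
  have hab := B.hab
  have hlen := B.hlen
  set pr : ℝ → ℝ := fun x => max B.a (min B.b x) with hpr
  have hprm : ∀ x, pr x ∈ Icc B.a B.b := fun x =>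
    ⟨le_max_left _ _, max_le hab.le (min_le_left _ _)⟩
  have hprl : ∀ x y, |pr x - pr y| ≤ |x - y| := by
    intro x y
    have h1 : |max B.a (min B.b x) - max B.a (min B.b y)| ≤ |min B.b x - min B.b y| := by
      have := abs_max_sub_max_le_max B.a (min B.b x) B.a (min B.b y)
      simpa using this
    have h2 : |min B.b x - min B.b y| ≤ |x - y| := by
      have := abs_min_sub_min_le_max B.b x B.b y
      simpa using this
    exact h1.trans h2
  have hval : ∀ x, B.χ x = min 1 ((pr x - B.a) * (B.b - pr x)) := by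
    intro x
    unfold Box.χ
    rcases le_or_gt x B.a with h1 | h1
    · have e1 : pr x = B.a := by
        simp only [hpr]
        rw [min_eq_right (h1.trans hab.le), max_eq_left h1]
      have e2 : (x - B.a) * (B.b - x) ≤ 0 :=
        mul_nonpos_of_nonpos_of_nonneg (by linarith) (by linarith)
      rw [e1, sub_self, zero_mul, min_eq_right (e2.trans zero_le_one), max_eq_left e2,
        min_eq_right zero_le_one]
    · rcases le_or_gt B.b x with h2 | h2
      · have e1 : pr x = B.b := by
          simp only [hpr]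
          rw [min_eq_left h2, max_eq_right hab.le]
        have e2 : (x - B.a) * (B.b - x) ≤ 0 :=
          mul_nonpos_of_nonneg_of_nonpos (by linarith) (by linarith)
        rw [e1, sub_self, mul_zero, min_eq_right (e2.trans zero_le_one), max_eq_left e2,
          min_eq_right zero_le_one]
      · have e1 : pr x = x := by
          simp only [hpr]
          rw [min_eq_right h2.le, max_eq_right h1.le]
        have e2 : 0 ≤ (x - B.a) * (B.b - x) := mul_nonneg (by linarith) (by linarith)
        rw [e1, max_eq_right (le_min zero_le_one e2)]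
  rw [hval, hval]
  have h1 : |min 1 ((pr x - B.a) * (B.b - pr x)) - min 1 ((pr y - B.a) * (B.b - pr y))| ≤
      |(pr x - B.a) * (B.b - pr x) - (pr y - B.a) * (B.b - pr y)| := by
    have := abs_min_sub_min_le_max 1 ((pr x - B.a) * (B.b - pr x)) 1
      ((pr y - B.a) * (B.b - pr y))
    simpa using this
  refine h1.trans ?_
  have h2 : (pr x - B.a) * (B.b - pr x) - (pr y - B.a) * (B.b - pr y) =
      (pr x - pr y) * (B.a + B.b - pr x - pr y) := by ring
  rw [h2, abs_mul]
  have h3 : |B.a + B.b - pr x - pr y| ≤ 2 := by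
    have hx := hprm x
    have hy := hprm y
    rw [abs_le]
    constructor <;> linarith [hx.1, hx.2, hy.1, hy.2]
  calc |pr x - pr y| * |B.a + B.b - pr x - pr y| ≤ |x - y| * 2 :=
        mul_le_mul (hprl x y) h3 (abs_nonneg _) (abs_nonneg _)
    _ = 2 * |x - y| := by ring

variable (B : ℕ → Box F o)

theorem height_lip (l : X) (x y : ℝ) : |height B (l, x) - height B (l, y)| ≤ 4 * |x - y| := by
  unfold height
  rw [← (summable_height B (l, x)).tsum_sub (summable_height B (l, y))]
  have h1 : ∀ j, ‖wt j * ((B j).χ x * (B j).θ l) - wt j * ((B j).χ y * (B j).θ l)‖ ≤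
      (2 * |x - y|) * wt j := by
    intro j
    have e : wt j * ((B j).χ x * (B j).θ l) - wt j * ((B j).χ y * (B j).θ l) =
        wt j * (((B j).χ x - (B j).χ y) * (B j).θ l) := by ring
    rw [e, Real.norm_eq_abs, abs_mul, abs_of_pos (wt_pos j), abs_mul, mul_comm]
    refine mul_le_mul_of_nonneg_right ?_ (wt_pos j).le
    have h2 : |(B j).θ l| ≤ 1 := abs_le.2 ⟨(B j).le_θ l, (B j).θ_le l⟩
    calc |(B j).χ x - (B j).χ y| * |(B j).θ l| ≤ (2 * |x - y|) * 1 :=
          mul_le_mul ((B j).χ_lip x y) h2 (abs_nonneg _) (by positivity)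
      _ = 2 * |x - y| := mul_one _
  have h2 : Summable fun j => (2 * |x - y|) * wt j := summable_wt.mul_left _
  have h3 := tsum_of_norm_bounded (h2.hasSum) h1
  rw [Real.norm_eq_abs, tsum_mul_left] at h3
  have h4 : ∑' j, wt j = 2 := tsum_geometric_two
  rw [h4] at h3
  linarith

theorem mass_lip (x y : ℝ) : |mass B x - mass B y| ≤ 4 * |x - y| := by
  unfold mass
  rw [← (summable_mass B x).tsum_sub (summable_mass B y)]
  have h1 : ∀ j, ‖wt j * (B j).χ x - wt j * (B j).χ y‖ ≤ (2 * |x - y|) * wt j := by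
    intro j
    have e : wt j * (B j).χ x - wt j * (B j).χ y = wt j * ((B j).χ x - (B j).χ y) := by ring
    rw [e, Real.norm_eq_abs, abs_mul, abs_of_pos (wt_pos j), mul_comm]
    exact mul_le_mul_of_nonneg_right ((B j).χ_lip x y) (wt_pos j).le
  have h2 : Summable fun j => (2 * |x - y|) * wt j := summable_wt.mul_left _
  have h3 := tsum_of_norm_bounded (h2.hasSum) h1
  rw [Real.norm_eq_abs, tsum_mul_left] at h3
  have h4 : ∑' j, wt j = 2 := tsum_geometric_two
  rw [h4] at h3
  linarith

/-- The slanted function. -/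
noncomputable def slant (p : X × ℝ) : ℝ := 8 * p.2 - height B p

theorem continuousOn_slant : ContinuousOn (slant B) F.Ω := by
  refine ContinuousOn.sub (Continuous.continuousOn (by fun_prop)) (continuousOn_height B)

theorem slant_lt (l : X) {x y : ℝ} (h : x < y) : slant B (l, x) < slant B (l, y) := by
  have h1 := abs_le.1 (height_lip B l x y)
  rw [abs_of_neg (by linarith : x - y < 0)] at h1
  unfold slant
  simp only
  linarith [h1.1]

end slant

end Pool.Agent.H86.Bifol
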