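import Pool.Agent.H86.Triple

/-!
# The third foliation
-/

open Set Topology Filter

namespace Pool.Agent.H86.Bifol

set_option linter.unusedSectionVars false
set_option linter.unusedVariables false

theorem eq_Ioo_of_open {S : Set ℝ} (hSo : IsOpen S) (hSp : IsPreconnected S) (hSne : S.Nonempty)
    (hlow : BddBelow S) (hupp : BddAbove S) : ∃ A C : ℝ, A < C ∧ S = Ioo A C := by
  have heq : S = Ioo (sInf S) (sSup S) := by
    refine Subset.antisymm ?_ (IsConnected.Ioo_csInf_csSup_subset ⟨hSne, hSp⟩ hlow hupp)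
    intro x hx
    obtain ⟨a, b, hab, hab'⟩ := mem_nhds_iff_exists_Ioo_subset.1 (hSo.mem_nhds hx)
    obtain ⟨α, hα1, hα2⟩ := exists_between hab.1
    obtain ⟨β, hβ1, hβ2⟩ := exists_between hab.2
    exact ⟨lt_of_le_of_lt (csInf_le hlow (hab' ⟨hα1, hα2.trans hab.2⟩)) hα2,
      lt_of_lt_of_le hβ1 (le_csSup hupp (hab' ⟨hab.1.trans hβ1, hβ2⟩))⟩
  refine ⟨sInf S, sSup S, ?_, heq⟩
  obtain ⟨x, hx⟩ := hSne
  rw [heq] at hx
  exact hx.1.trans hx.2

variable {X : Type*} [TopologicalSpace X] [SCM X]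

section

variable {F : Fam X} {o : Orientation X}

/-- Fibrewise strictly decreasing functions give open maps. -/
theorem isOpenMap_of_mono {g : X × ℝ → ℝ} (hg : ContinuousOn g F.Ω)
    (hmono : ∀ x l k, l ∈ F.U x → k ∈ F.U x → k ∈ o.up l → g (k, x) < g (l, x)) :
    IsOpenMap (fun p : F.Ω => (p.1.2, g p.1)) := by
  intro W hW
  obtain ⟨W', hW', rfl⟩ := isOpen_induced_iff.1 hW
  rw [isOpen_iff_mem_nhds]
  rintro _ ⟨⟨⟨l, x₀⟩, hl⟩, hlW, rfl⟩
  obtain ⟨C, hC1, hC2, hC3⟩ := exists_box F o (W := W' ∩ F.Ω) (hW'.inter F.isOpen)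
    inter_subset_right (p := (l, x₀)) ⟨hlW, hl⟩
  obtain ⟨c₀, hc₀, rfl⟩ := hC1
  have hαI : C.α ∈ Icc C.α C.β := left_mem_Icc.2 C.hαβ.le
  have hβI : C.β ∈ Icc C.α C.β := right_mem_Icc.2 C.hαβ.le
  have hcont : ∀ c ∈ Icc C.α C.β, ContinuousAt (fun x => g (C.e.symm c, x)) x₀ := by
    intro c hc
    have h1 : (C.e.symm c, x₀) ∈ F.Ω := (hC3 c hc x₀ hC2).2
    have h2 : ContinuousAt g (C.e.symm c, x₀) := hg.continuousAt (F.isOpen.mem_nhds h1)
    have h3 : ContinuousAt (fun x : ℝ => (C.e.symm c, x)) x₀ := by fun_prop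
    exact ContinuousAt.comp (f := fun x : ℝ => (C.e.symm c, x)) (g := g) h2 h3
  have hup : ∀ c d, c < d → C.e.symm d ∈ o.up (C.e.symm c) := by
    intro c d hcd
    rw [C.pos.up_eq _ (symm_mem C.pos.tar c), mem_upS_iff (symm_mem C.pos.tar c) C.pos.tar
      (symm_mem C.pos.tar d), apply_symm C.pos.tar, apply_symm C.pos.tar]
    exact hcd
  set t₀ := g (C.e.symm c₀, x₀) with ht₀
  have hhigh : t₀ < g (C.e.symm C.α, x₀) :=
    hmono _ _ _ (hC3 _ hαI x₀ hC2).2 hl (hup _ _ hc₀.1)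
  have hlow : g (C.e.symm C.β, x₀) < t₀ :=
    hmono _ _ _ hl (hC3 _ hβI x₀ hC2).2 (hup _ _ hc₀.2)
  have e1 : ∀ᶠ q : ℝ × ℝ in 𝓝 (x₀, t₀), q.1 ∈ Ioo C.a C.b :=
    continuousAt_fst.eventually (Ioo_mem_nhds hC2.1 hC2.2)
  have e2 : ∀ᶠ q : ℝ × ℝ in 𝓝 (x₀, t₀), q.2 < g (C.e.symm C.α, q.1) := by
    have h1 : ContinuousAt (fun q : ℝ × ℝ => g (C.e.symm C.α, q.1)) (x₀, t₀) :=
      ContinuousAt.comp (f := fun q : ℝ × ℝ => q.1) (g := fun x => g (C.e.symm C.α, x))
        (hcont _ hαI) continuousAt_fst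
    exact continuousAt_snd.eventually_lt h1 hhigh
  have e3 : ∀ᶠ q : ℝ × ℝ in 𝓝 (x₀, t₀), g (C.e.symm C.β, q.1) < q.2 := by
    have h1 : ContinuousAt (fun q : ℝ × ℝ => g (C.e.symm C.β, q.1)) (x₀, t₀) :=
      ContinuousAt.comp (f := fun q : ℝ × ℝ => q.1) (g := fun x => g (C.e.symm C.β, x))
        (hcont _ hβI) continuousAt_fst
    exact h1.eventually_lt continuousAt_snd hlow
  filter_upwards [e1, e2, e3] with q h1 h2 h3
  obtain ⟨x, t⟩ := q
  have hsegc : ContinuousOn (fun c => g (C.e.symm c, x)) (Icc C.α C.β) := by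
    refine hg.comp (f := fun c => (C.e.symm c, x)) ?_ ?_
    · refine ContinuousOn.prodMk (C.e.continuousOn_symm.mono ?_) continuousOn_const
      rw [C.pos.tar]; exact subset_univ _
    · intro c hc
      exact (hC3 c hc x h1).2
  obtain ⟨c, hc, hct⟩ := intermediate_value_Icc' C.hαβ.le hsegc ⟨h3.le, h2.le⟩
  refine ⟨⟨(C.e.symm c, x), (hC3 c hc x h1).2⟩, (hC3 c hc x h1).1, ?_⟩
  exact Prod.ext rfl hct

variable (B : ℕ → Box F o)

/-- Slanted function and chart coordinate: an open map on the domain of a box. -/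
theorem isOpen_image_slant {e : OpenPartialHomeomorph X ℝ} (he : e.target = univ)
    {U : Set (X × ℝ)} (hU : IsOpen U) (hUΩ : U ⊆ F.Ω) (hUe : ∀ p ∈ U, p.1 ∈ e.source) :
    IsOpen ((fun p : X × ℝ => (slant B p, e p.1)) '' U) := by
  rw [isOpen_iff_mem_nhds]
  rintro _ ⟨⟨l, x₀⟩, hl, rfl⟩
  have hle : l ∈ e.source := hUe _ hl
  have hmem : (fun q : ℝ × ℝ => (e.symm q.1, q.2)) ⁻¹' U ∈ 𝓝 (e l, x₀) := by
    have h1 : ContinuousAt (fun q : ℝ × ℝ => (e.symm q.1, q.2)) (e l, x₀) := by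
      have h2 : ContinuousAt (fun q : ℝ × ℝ => e.symm q.1) (e l, x₀) :=
        ContinuousAt.comp (f := fun q : ℝ × ℝ => q.1) (g := e.symm)
          (e.continuousAt_symm (e.map_source hle)) continuousAt_fst
      exact h2.prodMk continuousAt_snd
    have h3 : ((e.symm (e l), x₀) : X × ℝ) ∈ U := by rw [e.left_inv hle]; exact hl
    exact h1 (hU.mem_nhds h3)
  rw [nhds_prod_eq, Filter.mem_prod_iff] at hmem
  obtain ⟨A, hA, V, hV, hAV⟩ := hmem
  obtain ⟨a, b, hx, hV'⟩ := mem_nhds_iff_exists_Ioo_subset.1 hV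
  obtain ⟨x₁, hx1, hx1'⟩ := exists_between hx.1
  obtain ⟨x₂, hx2, hx2'⟩ := exists_between hx.2
  have hx₁V : x₁ ∈ V := hV' ⟨hx1, hx1'.trans (hx2.trans hx2')⟩
  have hx₂V : x₂ ∈ V := hV' ⟨hx1.trans (hx1'.trans hx2), hx2'⟩
  have hseg : ∀ x ∈ Icc x₁ x₂, x ∈ V := fun x hx' =>
    hV' ⟨lt_of_lt_of_le hx1 hx'.1, lt_of_le_of_lt hx'.2 hx2'⟩
  have htA : e l ∈ A := mem_of_mem_nhds hA
  have hcont : ∀ x ∈ V, ContinuousAt (fun t => slant B (e.symm t, x)) (e l) := by
    intro x hx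
    have h1 : (e.symm (e l), x) ∈ F.Ω := hUΩ (hAV (mk_mem_prod htA hx))
    have h2 : ContinuousAt (slant B) (e.symm (e l), x) :=
      (continuousOn_slant B).continuousAt (F.isOpen.mem_nhds h1)
    have h3 : ContinuousAt (fun t : ℝ => (e.symm t, x)) (e l) :=
      (e.continuousAt_symm (e.map_source hle)).prodMk continuousAt_const
    exact ContinuousAt.comp (f := fun t : ℝ => (e.symm t, x)) (g := slant B) h2 h3
  have hlow : slant B (e.symm (e l), x₁) < slant B (l, x₀) := by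
    rw [e.left_inv hle]; exact slant_lt B l hx1'
  have hhigh : slant B (l, x₀) < slant B (e.symm (e l), x₂) := by
    rw [e.left_inv hle]; exact slant_lt B l hx2
  have e1 : ∀ᶠ q : ℝ × ℝ in 𝓝 (slant B (l, x₀), e l), q.2 ∈ A :=
    continuousAt_snd.eventually hA
  have e2 : ∀ᶠ q : ℝ × ℝ in 𝓝 (slant B (l, x₀), e l), slant B (e.symm q.2, x₁) < q.1 := by
    have h1 : ContinuousAt (fun q : ℝ × ℝ => slant B (e.symm q.2, x₁)) (slant B (l, x₀), e l) :=
      ContinuousAt.comp (f := fun q : ℝ × ℝ => q.2) (g := fun t => slant B (e.symm t, x₁))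
        (hcont _ hx₁V) continuousAt_snd
    exact h1.eventually_lt continuousAt_fst hlow
  have e3 : ∀ᶠ q : ℝ × ℝ in 𝓝 (slant B (l, x₀), e l), q.1 < slant B (e.symm q.2, x₂) := by
    have h1 : ContinuousAt (fun q : ℝ × ℝ => slant B (e.symm q.2, x₂)) (slant B (l, x₀), e l) :=
      ContinuousAt.comp (f := fun q : ℝ × ℝ => q.2) (g := fun t => slant B (e.symm t, x₂))
        (hcont _ hx₂V) continuousAt_snd
    exact continuousAt_fst.eventually_lt h1 hhigh
  filter_upwards [e1, e2, e3] with q h1 h2 h3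
  obtain ⟨s, t⟩ := q
  have hc : ContinuousOn (fun x => slant B (e.symm t, x)) (Icc x₁ x₂) := by
    refine (continuousOn_slant B).comp (f := fun x : ℝ => (e.symm t, x)) (by fun_prop) ?_
    intro x hx
    exact hUΩ (hAV (mk_mem_prod h1 (hseg x hx)))
  obtain ⟨x, hx', hxs⟩ := intermediate_value_Icc (hx1'.trans hx2).le hc ⟨h2.le, h3.le⟩
  refine ⟨(e.symm t, x), hAV (mk_mem_prod h1 (hseg x hx')), Prod.ext hxs ?_⟩
  exact apply_symm he t

variable {B} (hB : ∀ p ∈ F.Ω, ∃ j, p.1 ∈ (B j).e.symm '' Ioo (B j).α (B j).β ∧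
      p.2 ∈ Ioo (B j).a (B j).b)

include hB

theorem slant_anti (x : ℝ) (l k : X) (hl : l ∈ F.U x) (hk : k ∈ F.U x) (hlk : k ∈ o.up l) :
    slant B (k, x) < slant B (l, x) := by
  have := height_lt hB hl hk hlk
  unfold slant
  simp only
  linarith

theorem slant_injOn : InjOn (fun p : X × ℝ => (p.2, slant B p)) F.Ω := by
  rintro ⟨l, x⟩ hl ⟨k, y⟩ hk h
  simp only [Prod.mk.injEq] at h
  obtain ⟨rfl, h2⟩ := h
  have h4 : l = k := by
    by_contra hne
    rcases o.up_or_dn (Ne.symm hne) with h | h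
    · exact (slant_anti hB x l k hl hk h).ne' h2
    · have h5 : l ∈ o.up k := ((F.isLine (x := x) hl).mem_up_iff o hk hl).2 h
      exact (slant_anti hB x k l hk hl h5).ne h2
  rw [h4]

/-- The level sets of the slanted function are connected. -/
theorem isPreconnected_level {A C : ℝ} (hbase : {x | (F.U x).Nonempty} = Ioo A C) (c : ℝ) :
    IsPreconnected {p : F.Ω | slant B p.1 = c} := by
  set S : Set ℝ := {x | x ∈ Ioo A C ∧ |8 * x - c| < mass B x} with hS
  have hSord : OrdConnected S := by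
    refine ⟨?_⟩
    rintro x ⟨hx, hx'⟩ y ⟨hy, hy'⟩ z hz
    refine ⟨⟨lt_of_lt_of_le hx.1 hz.1, lt_of_le_of_lt hz.2 hy.2⟩, ?_⟩
    rw [abs_lt] at hx' hy' ⊢
    have h1 := (abs_le.1 (mass_lip B x z)).2
    have h2 := (abs_le.1 (mass_lip B y z)).2
    rw [abs_of_nonpos (by linarith [hz.1] : x - z ≤ 0)] at h1
    rw [abs_of_nonneg (by linarith [hz.2] : 0 ≤ y - z)] at h2
    constructor
    · linarith [hz.1, hx'.1]
    · linarith [hz.2, hy'.2]
  have hSp : PreconnectedSpace S := Subtype.preconnectedSpace hSord.isPreconnected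
  have h1 := isOpenEmbedding_Φ hB
  have hrange : ∀ x : S, ((x.1, (8 * x.1 - c) / mass B x.1) : ℝ × ℝ) ∈ range (Φ B) := by
    rintro ⟨x, hx, hx'⟩
    rw [range_Φ hB]
    have hxne : (F.U x).Nonempty := by
      have : x ∈ {x | (F.U x).Nonempty} := hbase ▸ hx
      exact this
    have hm := mass_pos hB hxne
    rw [abs_lt] at hx'
    refine ⟨hxne, ?_, ?_⟩
    · change -1 < (8 * x - c) / mass B x
      rw [lt_div_iff₀ hm]; linarith [hx'.1]
    · change (8 * x - c) / mass B x < 1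
      rw [div_lt_one hm]; exact hx'.2
  have hmne : ∀ x : S, mass B x.1 ≠ 0 := by
    rintro ⟨x, hx, hx'⟩
    exact (lt_of_le_of_lt (abs_nonneg _) hx').ne'
  let γ : S → F.Ω := fun x => h1.isEmbedding.toHomeomorph.symm ⟨_, hrange x⟩
  have hγc : Continuous γ := by
    refine h1.isEmbedding.toHomeomorph.symm.continuous.comp ?_
    refine Continuous.subtype_mk ?_ _
    refine Continuous.prodMk continuous_subtype_val ?_
    refine Continuous.div (by fun_prop) ((continuous_mass B).comp continuous_subtype_val) hmne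
  have hγ : ∀ x : S, Φ B (γ x) = (x.1, (8 * x.1 - c) / mass B x.1) := by
    intro x
    have := h1.isEmbedding.toHomeomorph.apply_symm_apply ⟨_, hrange x⟩
    exact congrArg Subtype.val this
  have heq : {p : F.Ω | slant B p.1 = c} = range γ := by
    ext p
    constructor
    · intro hp
      have hp' : 8 * p.1.2 - height B p.1 = c := hp
      have hm := mass_pos' hB p
      have hh : height B p.1 = 8 * p.1.2 - c := by linarith
      have hpU : p.1.1 ∈ F.U p.1.2 := p.2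
      have hx : p.1.2 ∈ Ioo A C := by
        rw [← hbase]; exact ⟨_, hpU⟩
      have h2 := height_lt_mass hB hpU
      have h3 := neg_mass_lt_height hB hpU
      have h4 : ((p.1.1, p.1.2) : X × ℝ) = p.1 := rfl
      rw [h4, hh] at h2 h3
      refine ⟨⟨p.1.2, hx, abs_lt.2 ⟨h3, h2⟩⟩, ?_⟩
      apply injective_Φ hB
      rw [hγ]
      refine Prod.ext rfl ?_
      change (8 * p.1.2 - c) / mass B p.1.2 = height B p.1 / mass B p.1.2
      rw [hh]
    · rintro ⟨x, rfl⟩
      have h2 := hγ x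
      have e1 : (γ x).1.2 = x.1 := congrArg Prod.fst h2
      have e2 : height B (γ x).1 / mass B (γ x).1.2 = (8 * x.1 - c) / mass B x.1 :=
        congrArg Prod.snd h2
      rw [e1, div_left_inj' (hmne x)] at e2
      change 8 * (γ x).1.2 - height B (γ x).1 = c
      rw [e1, e2]; ring
  rw [heq]
  exact isPreconnected_range hγc

end

theorem isOpenMap_slant {F : Fam X} {o : Orientation X} (B : ℕ → Box F o) :
    IsOpenMap (fun p : F.Ω => slant B p.1) := by
  intro W hW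
  obtain ⟨W', hW', rfl⟩ := isOpen_induced_iff.1 hW
  rw [isOpen_iff_mem_nhds]
  rintro _ ⟨p, hp, rfl⟩
  obtain ⟨e, hpe, htar⟩ := exists_chart p.1.1
  have h1 := isOpen_image_slant B htar
    (U := W' ∩ F.Ω ∩ Prod.fst ⁻¹' e.source)
    ((hW'.inter F.isOpen).inter (e.open_source.preimage continuous_fst))
    (fun q hq => hq.1.2) (fun q hq => hq.2)
  have h2 := isOpenMap_fst _ h1
  refine Filter.mem_of_superset (h2.mem_nhds ⟨(slant B p.1, e p.1.1),
    ⟨p.1, ⟨⟨hp, p.2⟩, hpe⟩, rfl⟩, rfl⟩) ?_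
  rintro _ ⟨_, ⟨q, hq, rfl⟩, rfl⟩
  exact ⟨⟨q, hq.1.2⟩, hq.1.1, rfl⟩

theorem range_slant {F : Fam X} {o : Orientation X} (B : ℕ → Box F o) :
    ∃ A C : ℝ, A < C ∧ range (fun p : F.Ω => slant B p.1) = Ioo A C := by
  have _ := preconnectedSpace_Ω F
  have hb : ∀ p : F.Ω, |height B p.1| ≤ 2 := by
    intro p
    have h3 := tsum_of_norm_bounded (f := fun j => wt j * ((B j).χ p.1.2 * (B j).θ p.1.1))
      (summable_wt.hasSum) (fun j => by rw [Real.norm_eq_abs]; exact abs_term_le B j p.1)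
    have h4 : ∑' j, wt j = 2 := tsum_geometric_two
    rw [h4] at h3
    exact h3
  have hx : ∀ p : F.Ω, p.1.2 ∈ Ioo (-1 : ℝ) 1 := fun p => F.bdd _ ⟨p.1.1, p.2⟩
  refine eq_Ioo_of_open (isOpenMap_slant B).isOpen_range ?_ ?_ ?_ ?_
  · refine isPreconnected_range ?_
    exact continuousOn_iff_continuous_domRestrict.1 (continuousOn_slant B)
  · obtain ⟨l⟩ : Nonempty X := inferInstance
    obtain ⟨x, hx⟩ := F.ne l
    exact ⟨_, ⟨(l, x), hx⟩, rfl⟩
  · refine ⟨-10, ?_⟩
    rintro _ ⟨p, rfl⟩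
    have h1 := (hx p).1
    have h2 := (abs_le.1 (hb p)).2
    unfold slant
    linarith
  · refine ⟨10, ?_⟩
    rintro _ ⟨p, rfl⟩
    have h1 := (hx p).2
    have h2 := (abs_le.1 (hb p)).1
    unfold slant
    linarith

/-- The total space is a plane, with given boxes. -/
theorem exists_homeo' {F : Fam X} {o : Orientation X} {B : ℕ → Box F o}
    (hB : ∀ p ∈ F.Ω, ∃ j, p.1 ∈ (B j).e.symm '' Ioo (B j).α (B j).β ∧
      p.2 ∈ Ioo (B j).a (B j).b) {A C : ℝ} (hAC : A < C)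
    (hbase : {x | (F.U x).Nonempty} = Ioo A C) :
    ∃ (Ψ : ℝ × ℝ ≃ₜ F.Ω), ∀ q, (Ψ q).1.2 = ρ A C q.1 := by
  have h1 := isOpenEmbedding_Φ hB
  have h2 : IsOpenEmbedding (Prod.map (ρ A C) κ) :=
    (isOpenEmbedding_ρ hAC).prodMap isOpenEmbedding_κ
  have h3 : range (Prod.map (ρ A C) κ) = range (Φ B) := by
    rw [range_Φ hB, hbase, range_prodMap, range_ρ hAC, range_κ]
  refine ⟨h2.isEmbedding.toHomeomorph.trans
    ((Homeomorph.setCongr h3).trans h1.isEmbedding.toHomeomorph.symm), fun q => ?_⟩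
  set p := (h2.isEmbedding.toHomeomorph.trans
    ((Homeomorph.setCongr h3).trans h1.isEmbedding.toHomeomorph.symm)) q with hp
  have h4 : h1.isEmbedding.toHomeomorph p =
      (Homeomorph.setCongr h3) (h2.isEmbedding.toHomeomorph q) := by
    rw [hp]
    simp
  have h5 := congrArg (fun z => z.1.1) h4
  exact h5

/-- **Realization of triples.** -/
theorem realizedTriple_of_fam (F : Fam X) [SecondCountableTopology X] :
    RealizedTriple X ℝ ℝ := by
  obtain ⟨up, hup⟩ := exists_orientation X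
  set o : Orientation X := ⟨up, hup⟩ with ho
  obtain ⟨B, hB⟩ := exists_boxes F o
  obtain ⟨A, C, hAC, hbase⟩ := base_eq F
  obtain ⟨Ψ, hΨ⟩ := exists_homeo' hB hAC hbase
  obtain ⟨A', C', hAC', hrange⟩ := range_slant B
  have hρ : Function.Injective (ρ A C) := (isOpenEmbedding_ρ hAC).injective
  have hfst : ∀ q r : ℝ × ℝ, (Ψ q).1.2 = (Ψ r).1.2 ↔ q.1 = r.1 := by
    intro q r
    rw [hΨ, hΨ]
    exact hρ.eq_iff
  have hsc : Continuous (fun p : F.Ω => slant B p.1) :=
    continuousOn_iff_continuous_domRestrict.1 (continuousOn_slant B)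
  set f : ℝ × ℝ → X := fun q => (Ψ q).1.1 with hf
  set g : ℝ × ℝ → ℝ := fun q => q.1 with hg
  set k : ℝ × ℝ → Ioo A' C' := fun q => ⟨slant B (Ψ q).1, hrange ▸ ⟨Ψ q, rfl⟩⟩ with hk
  have hkeq : ∀ q r, k q = k r ↔ slant B (Ψ q).1 = slant B (Ψ r).1 := by
    intro q r
    rw [hk, Subtype.mk.injEq]
  -- charts for the pair of the first two foliations
  have h12 : ∀ p, ∃ E : OpenPartialHomeomorph (ℝ × ℝ) (ℝ × ℝ), p ∈ E.source ∧
      E.target = Square ∧ (∀ q ∈ E.source, ∀ r ∈ E.source, f q = f r ↔ (E q).2 = (E r).2) ∧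
      (∀ q ∈ E.source, ∀ r ∈ E.source, g q = g r ↔ (E q).1 = (E r).1) := by
    intro p
    obtain ⟨E, h1, h2, h3, h4⟩ := exists_plane_box F Ψ p
    exact ⟨E, h1, h2, h3, fun q hq r hr => (hfst q r).symm.trans (h4 q hq r hr)⟩
  -- first and third
  have h13 : ∀ p, ∃ E : OpenPartialHomeomorph (ℝ × ℝ) (ℝ × ℝ), p ∈ E.source ∧
      E.target = Square ∧ (∀ q ∈ E.source, ∀ r ∈ E.source, f q = f r ↔ (E q).2 = (E r).2) ∧
      (∀ q ∈ E.source, ∀ r ∈ E.source, k q = k r ↔ (E q).1 = (E r).1) := by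
    intro p
    obtain ⟨e, hpe, htar⟩ := exists_chart (Ψ p).1.1
    set V : Set (ℝ × ℝ) := {q | (Ψ q).1.1 ∈ e.source} with hV
    have hVo : IsOpen V := e.open_source.preimage (by fun_prop)
    set T : ℝ × ℝ → ℝ × ℝ := fun q => (slant B (Ψ q).1, e (Ψ q).1.1) with hT
    have hTc : ContinuousOn T V := by
      refine ContinuousOn.prodMk (hsc.comp Ψ.continuous).continuousOn ?_
      exact e.continuousOn.comp (by fun_prop) (fun q hq => hq)
    have hTi : InjOn T V := by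
      intro q hq r hr h
      simp only [hT, Prod.mk.injEq] at h
      have h1 : (Ψ q).1.1 = (Ψ r).1.1 := e.injOn hq hr h.2
      have h2 : (Ψ q).1.2 = (Ψ r).1.2 := by
        rcases lt_trichotomy (Ψ q).1.2 (Ψ r).1.2 with h3 | h3 | h3
        · have h4 := slant_lt B (Ψ q).1.1 h3
          have e1 : ((Ψ q).1.1, (Ψ r).1.2) = (Ψ r).1 := Prod.ext h1 rfl
          rw [e1] at h4
          exact absurd h.1 h4.ne
        · exact h3
        · have h4 := slant_lt B (Ψ q).1.1 h3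
          have e1 : ((Ψ q).1.1, (Ψ r).1.2) = (Ψ r).1 := Prod.ext h1 rfl
          rw [e1] at h4
          exact absurd h.1 h4.ne'
      exact Ψ.injective (Subtype.ext (Prod.ext h1 h2))
    have hTo : ∀ U ⊆ V, IsOpen U → IsOpen (T '' U) := by
      intro U hUV hU
      have h1 : IsOpen (Subtype.val '' (Ψ '' U)) :=
        F.isOpen.isOpenMap_subtype_val _ (Ψ.isOpenMap _ hU)
      have h2 := isOpen_image_slant B htar h1 (by
        rintro _ ⟨p, -, rfl⟩; exact p.2) (by
        rintro _ ⟨_, ⟨q, hq, rfl⟩, rfl⟩; exact hUV hq)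
      rw [image_image, image_image] at h2
      exact h2
    obtain ⟨E, h1, h2, h3, h4, h5⟩ := exists_square_chart hVo hTc hTi hTo (p := p) hpe
    refine ⟨E, h1, h3, ?_, ?_⟩
    · intro q hq r hr
      refine Iff.trans ?_ (h5 q hq r hr)
      constructor
      · intro h
        have h' : (Ψ q).1.1 = (Ψ r).1.1 := h
        simp only [hT, h']
      · intro h
        exact e.injOn (h2 hq) (h2 hr) h
    · intro q hq r hr
      rw [hkeq]
      exact h4 q hq r hr
  -- second and third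
  have h23 : ∀ p, ∃ E : OpenPartialHomeomorph (ℝ × ℝ) (ℝ × ℝ), p ∈ E.source ∧
      E.target = Square ∧ (∀ q ∈ E.source, ∀ r ∈ E.source, g q = g r ↔ (E q).2 = (E r).2) ∧
      (∀ q ∈ E.source, ∀ r ∈ E.source, k q = k r ↔ (E q).1 = (E r).1) := by
    intro p
    set T : ℝ × ℝ → ℝ × ℝ := fun q => (slant B (Ψ q).1, (Ψ q).1.2) with hT
    have hTc : Continuous T := (hsc.comp Ψ.continuous).prodMk (by fun_prop)
    have hTi : InjOn T univ := by
      intro q _ r _ h
      simp only [hT, Prod.mk.injEq] at h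
      have := slant_injOn hB (Ψ q).2 (Ψ r).2 (Prod.ext h.2 h.1)
      exact Ψ.injective (Subtype.ext this)
    have hTo : ∀ U ⊆ (univ : Set (ℝ × ℝ)), IsOpen U → IsOpen (T '' U) := by
      intro U _ hU
      have h1 := isOpenMap_of_mono (o := o) (continuousOn_slant B) (slant_anti hB) _
        (Ψ.isOpenMap _ hU)
      have h2 := (Homeomorph.prodComm ℝ ℝ).isOpenMap _ h1
      rw [image_image, image_image] at h2
      exact h2
    obtain ⟨E, h1, h2, h3, h4, h5⟩ := exists_square_chart isOpen_univ hTc.continuousOn hTi hTo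
      (p := p) (mem_univ p)
    refine ⟨E, h1, h3, ?_, ?_⟩
    · intro q hq r hr
      rw [← hfst q r]
      exact h5 q hq r hr
    · intro q hq r hr
      rw [hkeq]
      exact h4 q hq r hr
  have hcf : ∀ p, ∃ φ, p ∈ φ.source ∧ LevelChart f φ := by
    intro p
    obtain ⟨E, h1, h2, h3, h4⟩ := h12 p
    exact ⟨E, h1, h2, h3⟩
  have hcg : ∀ p, ∃ φ, p ∈ φ.source ∧ LevelChart g φ := by
    intro p
    obtain ⟨E, h1, h2, h3, h4⟩ := h23 p
    exact ⟨E, h1, h2, h3⟩
  have hck : ∀ p, ∃ φ, p ∈ φ.source ∧ LevelChart k φ := by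
    intro p
    obtain ⟨E, h1, h2, h3, h4⟩ := h13 p
    refine ⟨swapChart E, by rwa [swapChart_source], swapChart_target E h2, ?_⟩
    intro q hq r hr
    rw [swapChart_source] at hq hr
    exact h4 q hq r hr
  have htr : ∀ {Z W : Type _} (u : ℝ × ℝ → Z) (v : ℝ × ℝ → W)
      (hu : ∀ p, ∃ φ, p ∈ φ.source ∧ LevelChart u φ)
      (hv : ∀ p, ∃ φ, p ∈ φ.source ∧ LevelChart v φ),
      (∀ p, ∃ E : OpenPartialHomeomorph (ℝ × ℝ) (ℝ × ℝ), p ∈ E.source ∧
      E.target = Square ∧ (∀ q ∈ E.source, ∀ r ∈ E.source, u q = u r ↔ (E q).2 = (E r).2) ∧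
      (∀ q ∈ E.source, ∀ r ∈ E.source, v q = v r ↔ (E q).1 = (E r).1)) →
      Transverse (ofMap u hu) (ofMap v hv) := by
    intro Z W u v hu hv h p
    obtain ⟨E, h1, h2, h3, h4⟩ := h p
    refine ⟨E, h1, h2, ?_, ?_⟩
    · intro φ hφ q hq
      refine ⟨E.source ∩ φ.source, (E.open_source.inter φ.open_source).mem_nhds hq, ?_⟩
      intro r hr s hs
      exact (h3 r hr.1 s hs.1).symm.trans (hφ.2 r hr.2 s hs.2)
    · intro φ hφ q hq
      refine ⟨E.source ∩ φ.source, (E.open_source.inter φ.open_source).mem_nhds hq, ?_⟩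
      intro r hr s hs
      exact (h4 r hr.1 s hs.1).symm.trans (hφ.2 r hr.2 s hs.2)
  refine ⟨ofMap f hcf, ofMap g hcg, ofMap k hck, ?_, ?_, ?_, ?_, ?_, ?_⟩
  · intro p
    obtain ⟨E, h1, h2, h3, h4⟩ := h12 p
    refine ⟨E, h1, h2, ?_, ?_⟩
    · intro φ hφ q hq
      refine ⟨E.source ∩ φ.source, (E.open_source.inter φ.open_source).mem_nhds hq, ?_⟩
      intro r hr s hs
      exact (h3 r hr.1 s hs.1).symm.trans (hφ.2 r hr.2 s hs.2)
    · intro φ hφ q hq
      refine ⟨E.source ∩ φ.source, (E.open_source.inter φ.open_source).mem_nhds hq, ?_⟩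
      intro r hr s hs
      exact (h4 r hr.1 s hs.1).symm.trans (hφ.2 r hr.2 s hs.2)
  · intro p
    obtain ⟨E, h1, h2, h3, h4⟩ := h13 p
    refine ⟨E, h1, h2, ?_, ?_⟩
    · intro φ hφ q hq
      refine ⟨E.source ∩ φ.source, (E.open_source.inter φ.open_source).mem_nhds hq, ?_⟩
      intro r hr s hs
      exact (h3 r hr.1 s hs.1).symm.trans (hφ.2 r hr.2 s hs.2)
    · intro φ hφ q hq
      refine ⟨E.source ∩ φ.source, (E.open_source.inter φ.open_source).mem_nhds hq, ?_⟩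
      intro r hr s hs
      exact (h4 r hr.1 s hs.1).symm.trans (hφ.2 r hr.2 s hs.2)
  · exact htr g k hcg hck h23
  · refine ofMap_leafSpace hcf ?_ (by fun_prop) ?_ ?_
    · intro l
      have h1 : f ⁻¹' {l} = Ψ ⁻¹' {p : F.Ω | p.1.1 = l} := rfl
      rw [h1, Ψ.isPreconnected_preimage]
      exact isPreconnected_fibre F l
    · exact (isOpenMap_fst.comp F.isOpen.isOpenMap_subtype_val).comp Ψ.isOpenMap
    · intro l
      obtain ⟨x, hx⟩ := F.ne l
      exact ⟨Ψ.symm ⟨(l, x), hx⟩, by simp [hf]⟩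
  · refine ofMap_leafSpace hcg ?_ continuous_fst isOpenMap_fst Prod.fst_surjective
    intro c
    have h1 : g ⁻¹' {c} = range (fun t : ℝ => (c, t)) := by
      ext ⟨a, b⟩
      constructor
      · intro h
        have h' : a = c := h
        exact ⟨b, by rw [h']⟩
      · rintro ⟨t, ht⟩
        have := congrArg Prod.fst ht
        exact this.symm
    rw [h1]
    exact isPreconnected_range (by fun_prop)
  · have hkc : Continuous k := Continuous.subtype_mk (hsc.comp Ψ.continuous) _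
    have hko : IsOpenMap k := by
      intro U hU
      have h1 := isOpenMap_slant B _ (Ψ.isOpenMap _ hU)
      rw [image_image] at h1
      have h2 : k '' U = Subtype.val ⁻¹' ((fun q => slant B (Ψ q).1) '' U) := by
        ext z
        constructor
        · rintro ⟨q, hq, rfl⟩
          exact ⟨q, hq, rfl⟩
        · rintro ⟨q, hq, hz⟩
          exact ⟨q, hq, Subtype.ext hz⟩
      rw [h2]
      exact h1.preimage continuous_subtype_val
    have hks : Function.Surjective k := by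
      rintro ⟨c, hc⟩
      rw [← hrange] at hc
      obtain ⟨p, hp⟩ := hc
      refine ⟨Ψ.symm p, Subtype.ext ?_⟩
      simp only [hk, Homeomorph.apply_symm_apply]
      exact hp
    have hkf : ∀ z, IsPreconnected (k ⁻¹' {z}) := by
      rintro ⟨c, hc⟩
      have h1 : k ⁻¹' {⟨c, hc⟩} = Ψ ⁻¹' {p : F.Ω | slant B p.1 = c} := by
        ext q
        simp only [hk, mem_preimage, mem_singleton_iff, Subtype.mk.injEq, mem_ofPred_eq]
      rw [h1, Ψ.isPreconnected_preimage]
      exact isPreconnected_level hB hbase c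
    obtain ⟨e⟩ := ofMap_leafSpace hck hkf hkc hko hks
    exact ⟨e.trans ((Homeomorph.setCongr (range_ρ hAC')).symm.trans
      (isOpenEmbedding_ρ hAC').isEmbedding.toHomeomorph.symm)⟩

theorem realizedTriple_of_noThree [SecondCountableTopology X] (h3 : NoThree X) :
    RealizedTriple X ℝ ℝ := by
  obtain ⟨F⟩ := exists_fam_of_noThree h3
  exact realizedTriple_of_fam F

end Pool.Agent.H86.Bifol
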