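import Pool.Agent.H86.Lines

/-!
# Types of folded half-spaces
-/

open Set Topology Filter

namespace Pool.Agent.H86.Bifol

set_option linter.unusedSectionVars false
set_option linter.unusedVariables false

variable {X : Type*} [TopologicalSpace X]

/-- There are no three pairwise disjoint folded half-spaces. -/
def NoThree (X : Type*) [TopologicalSpace X] : Prop :=
  ¬ ∃ H₁ H₂ H₃ : Set X, IsFolded H₁ ∧ IsFolded H₂ ∧ IsFolded H₃ ∧
    Disjoint H₁ H₂ ∧ Disjoint H₁ H₃ ∧ Disjoint H₂ H₃

/-- A distribution of the folded half-spaces which have a disjoint folded half-space in two types,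
such that disjoint ones have different types. -/
structure Typing (X : Type*) [TopologicalSpace X] where
  /-- left type -/
  L : Set (Set X)
  /-- right type -/
  R : Set (Set X)
  opp : ∀ H H', IsFolded H → IsFolded H' → Disjoint H H' → (H ∈ L ∧ H' ∈ R) ∨ (H ∈ R ∧ H' ∈ L)
  excl : ∀ H, H ∈ L → H ∉ R
  partner : ∀ H, H ∈ L ∨ H ∈ R → IsFolded H ∧ ∃ H', IsFolded H' ∧ Disjoint H H'

/-- Exchange of the types. -/
def Typing.swap (T : Typing X) : Typing X where
  L := T.R
  R := T.L
  opp H H' h h' hd := (T.opp H H' h h' hd).symm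
  excl H h h' := T.excl H h' h
  partner H h := T.partner H h.symm

theorem Typing.cover (T : Typing X) {H H' : Set X} (h : H ∈ T.L) (h' : H' ∈ T.L)
    (hu : H ∪ H' = univ) : False := by
  obtain ⟨hf, H₁, hf₁, hd₁⟩ := T.partner H (Or.inl h)
  obtain ⟨hf', H₂, hf₂, hd₂⟩ := T.partner H' (Or.inl h')
  have h1 : H₁ ∈ T.R := by
    rcases T.opp H H₁ hf hf₁ hd₁ with h3 | h3
    · exact h3.2
    · exact absurd h3.1 (T.excl H h)
  have h2 : H₂ ∈ T.R := by
    rcases T.opp H' H₂ hf' hf₂ hd₂ with h3 | h3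
    · exact h3.2
    · exact absurd h3.1 (T.excl H' h')
  have hd : Disjoint H₁ H₂ := by
    rw [Set.disjoint_left]
    intro x hx hx'
    have : x ∈ H ∪ H' := hu ▸ mem_univ x
    rcases this with hxH | hxH
    · exact Set.disjoint_left.1 hd₁ hxH hx
    · exact Set.disjoint_left.1 hd₂ hxH hx'
  rcases T.opp H₁ H₂ hf₁ hf₂ hd with h3 | h3
  · exact T.excl _ h3.1 h1
  · exact T.excl _ h3.2 h2

variable [SCM X]

theorem IsFolded.ne_univ {H : Set X} (h : IsFolded H) : H ≠ univ := by
  obtain ⟨z, z', hne, hns, rfl⟩ := h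
  intro h
  have h1 : z ∈ connectedComponentIn {z}ᶜ z' := by
    rw [h]; trivial
  exact self_notMem_side h1

theorem IsFolded.nonempty {H : Set X} (h : IsFolded H) : H.Nonempty := by
  obtain ⟨z, z', hne, hns, rfl⟩ := h
  exact ⟨z', mem_side (Ne.symm hne)⟩

theorem IsFolded.isOpen {H : Set X} (h : IsFolded H) : IsOpen H := by
  obtain ⟨z, z', hne, hns, rfl⟩ := h
  exact isOpen_side

/-- The four possible positions of two half-spaces. -/
theorem IsFolded.position {H H' : Set X} (h : IsFolded H) (h' : IsFolded H') :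
    H ⊆ H' ∨ H' ⊆ H ∨ Disjoint H H' ∨ H ∪ H' = univ := by
  obtain ⟨p, a, hpa, -, rfl⟩ := h
  obtain ⟨q, b, hqb, -, rfl⟩ := h'
  change side p a ⊆ side q b ∨ side q b ⊆ side p a ∨ Disjoint (side p a) (side q b) ∨
    side p a ∪ side q b = univ
  by_cases hpq : p = q
  · subst hpq
    by_cases h : a ∈ side p b
    · left; rw [side_eq h]
    · right; right; left
      exact disjoint_side h
  by_cases hq : q ∈ side p a <;> by_cases hp : p ∈ side q b
  · right; right; right; exact union_side_side hq hp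
  · right; left; exact side_subset_side (Ne.symm hqb) hq hp
  · left; exact side_subset_side (Ne.symm hpa) hp hq
  · right; right; left; exact disjoint_side_side hpq (Ne.symm hpa) hq hp

theorem exists_typing (h3 : NoThree X) : Nonempty (Typing X) := by
  classical
  by_cases hB : ∃ H₀ H₀' : Set X, IsFolded H₀ ∧ IsFolded H₀' ∧ Disjoint H₀ H₀'
  swap
  · exact ⟨⟨∅, ∅, fun H H' h h' hd => absurd ⟨H, H', h, h', hd⟩ hB, fun _ h => h.elim,
      fun _ h => by rcases h with h | h <;> exact h.elim⟩⟩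
  obtain ⟨H₀, H₀', hf₀, hf₀', hd₀⟩ := hB
  set B : Set (Set X) := {H | IsFolded H ∧ ∃ H', IsFolded H' ∧ Disjoint H H'} with hBdef
  set N : Set (Set X) := {H | H ⊆ H₀ ∨ H₀ ⊆ H} with hN
  refine ⟨⟨B ∩ N, B \ N, ?_, fun H h h' => h'.2 h.2, ?_⟩⟩
  · intro H H' hf hf' hd
    have hHB : H ∈ B := ⟨hf, H', hf', hd⟩
    have hHB' : H' ∈ B := ⟨hf', H, hf, hd.symm⟩
    have h1 : ¬ (H ∈ N ∧ H' ∈ N) := by
      rintro ⟨hN1, hN2⟩
      have key : ∀ A A' : Set X, IsFolded A → IsFolded A' → Disjoint A A' → A ⊆ H₀ →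
          (A' ⊆ H₀ ∨ H₀ ⊆ A') → False := by
        intro A A' hA hA' hAA hs hs'
        rcases hs' with hs' | hs'
        · exact h3 ⟨A, A', H₀', hA, hA', hf₀', hAA, hd₀.mono_left hs, hd₀.mono_left hs'⟩
        · obtain ⟨x, hx⟩ := hA.nonempty
          exact Set.disjoint_left.1 hAA hx (hs' (hs hx))
      rcases hN1 with hs | hs
      · exact key H H' hf hf' hd hs hN2
      · rcases hN2 with hs' | hs'
        · exact key H' H hf' hf hd.symm hs' (Or.inr hs)
        · obtain ⟨x, hx⟩ := hf₀.nonempty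
          exact Set.disjoint_left.1 hd (hs hx) (hs' hx)
    have h2 : H ∈ N ∨ H' ∈ N := by
      by_contra hcon
      push Not at hcon
      have aux : ∀ A, IsFolded A → A ∉ N → Disjoint A H₀ ∨ A ∪ H₀ = univ := by
        intro A hA hAN
        rcases hA.position hf₀ with h | h | h | h
        · exact absurd (Or.inl h) hAN
        · exact absurd (Or.inr h) hAN
        · exact Or.inl h
        · exact Or.inr h
      have sub : ∀ A A' : Set X, Disjoint A A' → A ∪ H₀ = univ → A' ⊆ H₀ := by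
        intro A A' hAA hu x hx
        rcases (hu ▸ mem_univ x : x ∈ A ∪ H₀) with h | h
        · exact absurd hx (Set.disjoint_left.1 hAA h)
        · exact h
      rcases aux H hf hcon.1 with h4 | h4
      · rcases aux H' hf' hcon.2 with h5 | h5
        · exact h3 ⟨H, H', H₀, hf, hf', hf₀, hd, h4, h5⟩
        · exact hcon.1 (Or.inl (sub H' H hd.symm h5))
      · exact hcon.2 (Or.inl (sub H H' hd h4))
    by_cases hH : H ∈ N
    · exact Or.inl ⟨⟨hHB, hH⟩, hHB', fun h => h1 ⟨hH, h⟩⟩
    · exact Or.inr ⟨⟨hHB, hH⟩, hHB', h2.resolve_left hH⟩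
  · rintro H (h | h)
    · exact h.1
    · exact h.1

end Pool.Agent.H86.Bifol
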